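import Pool.Agent.H51Seshadri.Data2

namespace Pool.Agent.H51Seshadri
open Ex

theorem b1_0 : chk1 0 = true := by decide +kernel

theorem b1_1 : chk1 1 = true := by decide +kernel

theorem b1_2 : chk1 2 = true := by decide +kernel

theorem b1_3 : chk1 3 = true := by decide +kernel

theorem b1_4 : chk1 4 = true := by decide +kernel

theorem b1_5 : chk1 5 = true := by decide +kernel

theorem b1_6 : chk1 6 = true := by decide +kernel

theorem b1_7 : chk1 7 = true := by decide +kernel

theorem b1_8 : chk1 8 = true := by decide +kernel

theorem b1_9 : chk1 9 = true := by decide +kernel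

theorem b1_10 : chk1 10 = true := by decide +kernel

theorem b1_11 : chk1 11 = true := by decide +kernel

theorem b1_12 : chk1 12 = true := by decide +kernel

theorem b1_13 : chk1 13 = true := by decide +kernel

theorem b1_14 : chk1 14 = true := by decide +kernel


end Pool.Agent.H51Seshadri
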