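import Pool.Agent.H51Seshadri.Data2

namespace Pool.Agent.H51Seshadri
open Ex

theorem b4_0 : chk4 0 = true := by decide +kernel

theorem b4_1 : chk4 1 = true := by decide +kernel

theorem b4_2 : chk4 2 = true := by decide +kernel

theorem b4_3 : chk4 3 = true := by decide +kernel

theorem b4_4 : chk4 4 = true := by decide +kernel

theorem b4_5 : chk4 5 = true := by decide +kernel

theorem b4_6 : chk4 6 = true := by decide +kernel

theorem b4_7 : chk4 7 = true := by decide +kernel

theorem b4_8 : chk4 8 = true := by decide +kernel

theorem b4_9 : chk4 9 = true := by decide +kernel

theorem b4_10 : chk4 10 = true := by decide +kernel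

theorem b4_11 : chk4 11 = true := by decide +kernel

theorem b4_12 : chk4 12 = true := by decide +kernel

theorem b4_13 : chk4 13 = true := by decide +kernel

theorem b4_14 : chk4 14 = true := by decide +kernel

theorem b4_15 : chk4 15 = true := by decide +kernel

theorem b0_0 : chk0 0 = true := by decide +kernel

theorem b0_1 : chk0 1 = true := by decide +kernel

theorem b0_2 : chk0 2 = true := by decide +kernel

theorem b0_3 : chk0 3 = true := by decide +kernel

theorem b0_4 : chk0 4 = true := by decide +kernel

theorem b0_5 : chk0 5 = true := by decide +kernel

theorem b0_6 : chk0 6 = true := by decide +kernel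

theorem b0_7 : chk0 7 = true := by decide +kernel

theorem b0_8 : chk0 8 = true := by decide +kernel

theorem b0_9 : chk0 9 = true := by decide +kernel

theorem b0_10 : chk0 10 = true := by decide +kernel

theorem b0_11 : chk0 11 = true := by decide +kernel

theorem b0_12 : chk0 12 = true := by decide +kernel

theorem b0_13 : chk0 13 = true := by decide +kernel

theorem b0_14 : chk0 14 = true := by decide +kernel

theorem b00_0 : chk00 0 = true := by decide +kernel

theorem b00_1 : chk00 1 = true := by decide +kernel

theorem bL1 : eqv 80 (lineProd 15) L1E = true := by decide +kernel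

theorem bL2 : eqv 40 (mul L1E L1E) L2E = true := by decide +kernel

theorem bL3 : eqv 40 (mul L1E L2E) L3E = true := by decide +kernel


end Pool.Agent.H51Seshadri
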