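import Pool.Agent.H51Seshadri.Defs

namespace Pool.Agent.H51Seshadri
open Ex

theorem bN_8_0 : allBelow 4 (fun i => force (0 + i) (chkN 8)) = true := by
  decide +kernel

theorem bN_8_4 : allBelow 4 (fun i => force (4 + i) (chkN 8)) = true := by
  decide +kernel

theorem bN_8_8 : allBelow 4 (fun i => force (8 + i) (chkN 8)) = true := by
  decide +kernel

theorem bN_8_12 : allBelow 3 (fun i => force (12 + i) (chkN 8)) = true := by
  decide +kernel

theorem bN_9_0 : allBelow 4 (fun i => force (0 + i) (chkN 9)) = true := by
  decide +kernel

theorem bN_9_4 : allBelow 4 (fun i => force (4 + i) (chkN 9)) = true := by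
  decide +kernel

theorem bN_9_8 : allBelow 4 (fun i => force (8 + i) (chkN 9)) = true := by
  decide +kernel

theorem bN_9_12 : allBelow 3 (fun i => force (12 + i) (chkN 9)) = true := by
  decide +kernel

theorem bN_10_0 : allBelow 4 (fun i => force (0 + i) (chkN 10)) = true := by
  decide +kernel

theorem bN_10_4 : allBelow 4 (fun i => force (4 + i) (chkN 10)) = true := by
  decide +kernel

theorem bN_10_8 : allBelow 4 (fun i => force (8 + i) (chkN 10)) = true := by
  decide +kernel

theorem bN_10_12 : allBelow 3 (fun i => force (12 + i) (chkN 10)) = true := by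
  decide +kernel

theorem bN_11_0 : allBelow 4 (fun i => force (0 + i) (chkN 11)) = true := by
  decide +kernel

theorem bN_11_4 : allBelow 4 (fun i => force (4 + i) (chkN 11)) = true := by
  decide +kernel

theorem bN_11_8 : allBelow 4 (fun i => force (8 + i) (chkN 11)) = true := by
  decide +kernel

theorem bN_11_12 : allBelow 3 (fun i => force (12 + i) (chkN 11)) = true := by
  decide +kernel

theorem bN_12_0 : allBelow 4 (fun i => force (0 + i) (chkN 12)) = true := by
  decide +kernel

theorem bN_12_4 : allBelow 4 (fun i => force (4 + i) (chkN 12)) = true := by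
  decide +kernel

theorem bN_12_8 : allBelow 4 (fun i => force (8 + i) (chkN 12)) = true := by
  decide +kernel

theorem bN_12_12 : allBelow 3 (fun i => force (12 + i) (chkN 12)) = true := by
  decide +kernel

theorem bN_13_0 : allBelow 4 (fun i => force (0 + i) (chkN 13)) = true := by
  decide +kernel

theorem bN_13_4 : allBelow 4 (fun i => force (4 + i) (chkN 13)) = true := by
  decide +kernel

theorem bN_13_8 : allBelow 4 (fun i => force (8 + i) (chkN 13)) = true := by
  decide +kernel

theorem bN_13_12 : allBelow 3 (fun i => force (12 + i) (chkN 13)) = true := by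
  decide +kernel

theorem bN_14_0 : allBelow 4 (fun i => force (0 + i) (chkN 14)) = true := by
  decide +kernel

theorem bN_14_4 : allBelow 4 (fun i => force (4 + i) (chkN 14)) = true := by
  decide +kernel

theorem bN_14_8 : allBelow 4 (fun i => force (8 + i) (chkN 14)) = true := by
  decide +kernel

theorem bN_14_12 : allBelow 3 (fun i => force (12 + i) (chkN 14)) = true := by
  decide +kernel

theorem bN_15_0 : allBelow 4 (fun i => force (0 + i) (chkN 15)) = true := by
  decide +kernel

theorem bN_15_4 : allBelow 4 (fun i => force (4 + i) (chkN 15)) = true := by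
  decide +kernel

theorem bN_15_8 : allBelow 4 (fun i => force (8 + i) (chkN 15)) = true := by
  decide +kernel

theorem bN_15_12 : allBelow 3 (fun i => force (12 + i) (chkN 15)) = true := by
  decide +kernel


end Pool.Agent.H51Seshadri
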