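import Pool.Agent.H51Seshadri.Defs

namespace Pool.Agent.H51Seshadri
open Ex

theorem bT_0_0 : allBelow 4 (fun i => force (0 + i) (chkT 0)) = true := by
  decide +kernel

theorem bT_0_4 : allBelow 4 (fun i => force (4 + i) (chkT 0)) = true := by
  decide +kernel

theorem bT_0_8 : allBelow 4 (fun i => force (8 + i) (chkT 0)) = true := by
  decide +kernel

theorem bT_0_12 : allBelow 4 (fun i => force (12 + i) (chkT 0)) = true := by
  decide +kernel

theorem bT_1_0 : allBelow 4 (fun i => force (0 + i) (chkT 1)) = true := by
  decide +kernel

theorem bT_1_4 : allBelow 4 (fun i => force (4 + i) (chkT 1)) = true := by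
  decide +kernel

theorem bT_1_8 : allBelow 4 (fun i => force (8 + i) (chkT 1)) = true := by
  decide +kernel

theorem bT_1_12 : allBelow 4 (fun i => force (12 + i) (chkT 1)) = true := by
  decide +kernel

theorem bT_2_0 : allBelow 4 (fun i => force (0 + i) (chkT 2)) = true := by
  decide +kernel

theorem bT_2_4 : allBelow 4 (fun i => force (4 + i) (chkT 2)) = true := by
  decide +kernel

theorem bT_2_8 : allBelow 4 (fun i => force (8 + i) (chkT 2)) = true := by
  decide +kernel

theorem bT_2_12 : allBelow 4 (fun i => force (12 + i) (chkT 2)) = true := by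
  decide +kernel

theorem bT_3_0 : allBelow 4 (fun i => force (0 + i) (chkT 3)) = true := by
  decide +kernel

theorem bT_3_4 : allBelow 4 (fun i => force (4 + i) (chkT 3)) = true := by
  decide +kernel

theorem bT_3_8 : allBelow 4 (fun i => force (8 + i) (chkT 3)) = true := by
  decide +kernel

theorem bT_3_12 : allBelow 4 (fun i => force (12 + i) (chkT 3)) = true := by
  decide +kernel

theorem bT_4_0 : allBelow 4 (fun i => force (0 + i) (chkT 4)) = true := by
  decide +kernel

theorem bT_4_4 : allBelow 4 (fun i => force (4 + i) (chkT 4)) = true := by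
  decide +kernel

theorem bT_4_8 : allBelow 4 (fun i => force (8 + i) (chkT 4)) = true := by
  decide +kernel

theorem bT_4_12 : allBelow 4 (fun i => force (12 + i) (chkT 4)) = true := by
  decide +kernel

theorem bT_5_0 : allBelow 4 (fun i => force (0 + i) (chkT 5)) = true := by
  decide +kernel

theorem bT_5_4 : allBelow 4 (fun i => force (4 + i) (chkT 5)) = true := by
  decide +kernel

theorem bT_5_8 : allBelow 4 (fun i => force (8 + i) (chkT 5)) = true := by
  decide +kernel

theorem bT_5_12 : allBelow 4 (fun i => force (12 + i) (chkT 5)) = true := by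
  decide +kernel

theorem bT_6_0 : allBelow 4 (fun i => force (0 + i) (chkT 6)) = true := by
  decide +kernel

theorem bT_6_4 : allBelow 4 (fun i => force (4 + i) (chkT 6)) = true := by
  decide +kernel

theorem bT_6_8 : allBelow 4 (fun i => force (8 + i) (chkT 6)) = true := by
  decide +kernel

theorem bT_6_12 : allBelow 4 (fun i => force (12 + i) (chkT 6)) = true := by
  decide +kernel

theorem bT_7_0 : allBelow 4 (fun i => force (0 + i) (chkT 7)) = true := by
  decide +kernel

theorem bT_7_4 : allBelow 4 (fun i => force (4 + i) (chkT 7)) = true := by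
  decide +kernel

theorem bT_7_8 : allBelow 4 (fun i => force (8 + i) (chkT 7)) = true := by
  decide +kernel

theorem bT_7_12 : allBelow 4 (fun i => force (12 + i) (chkT 7)) = true := by
  decide +kernel


end Pool.Agent.H51Seshadri
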