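import Pool.Agent.H51Seshadri.Defs

namespace Pool.Agent.H51Seshadri
open Ex

theorem bT_8_0 : allBelow 4 (fun i => force (0 + i) (chkT 8)) = true := by
  decide +kernel

theorem bT_8_4 : allBelow 4 (fun i => force (4 + i) (chkT 8)) = true := by
  decide +kernel

theorem bT_8_8 : allBelow 4 (fun i => force (8 + i) (chkT 8)) = true := by
  decide +kernel

theorem bT_8_12 : allBelow 4 (fun i => force (12 + i) (chkT 8)) = true := by
  decide +kernel

theorem bT_9_0 : allBelow 4 (fun i => force (0 + i) (chkT 9)) = true := by
  decide +kernel

theorem bT_9_4 : allBelow 4 (fun i => force (4 + i) (chkT 9)) = true := by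
  decide +kernel

theorem bT_9_8 : allBelow 4 (fun i => force (8 + i) (chkT 9)) = true := by
  decide +kernel

theorem bT_9_12 : allBelow 4 (fun i => force (12 + i) (chkT 9)) = true := by
  decide +kernel

theorem bT_10_0 : allBelow 4 (fun i => force (0 + i) (chkT 10)) = true := by
  decide +kernel

theorem bT_10_4 : allBelow 4 (fun i => force (4 + i) (chkT 10)) = true := by
  decide +kernel

theorem bT_10_8 : allBelow 4 (fun i => force (8 + i) (chkT 10)) = true := by
  decide +kernel

theorem bT_10_12 : allBelow 4 (fun i => force (12 + i) (chkT 10)) = true := by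
  decide +kernel

theorem bT_11_0 : allBelow 4 (fun i => force (0 + i) (chkT 11)) = true := by
  decide +kernel

theorem bT_11_4 : allBelow 4 (fun i => force (4 + i) (chkT 11)) = true := by
  decide +kernel

theorem bT_11_8 : allBelow 4 (fun i => force (8 + i) (chkT 11)) = true := by
  decide +kernel

theorem bT_11_12 : allBelow 4 (fun i => force (12 + i) (chkT 11)) = true := by
  decide +kernel

theorem bT_12_0 : allBelow 4 (fun i => force (0 + i) (chkT 12)) = true := by
  decide +kernel

theorem bT_12_4 : allBelow 4 (fun i => force (4 + i) (chkT 12)) = true := by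
  decide +kernel

theorem bT_12_8 : allBelow 4 (fun i => force (8 + i) (chkT 12)) = true := by
  decide +kernel

theorem bT_12_12 : allBelow 4 (fun i => force (12 + i) (chkT 12)) = true := by
  decide +kernel

theorem bT_13_0 : allBelow 4 (fun i => force (0 + i) (chkT 13)) = true := by
  decide +kernel

theorem bT_13_4 : allBelow 4 (fun i => force (4 + i) (chkT 13)) = true := by
  decide +kernel

theorem bT_13_8 : allBelow 4 (fun i => force (8 + i) (chkT 13)) = true := by
  decide +kernel

theorem bT_13_12 : allBelow 4 (fun i => force (12 + i) (chkT 13)) = true := by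
  decide +kernel

theorem bT_14_0 : allBelow 4 (fun i => force (0 + i) (chkT 14)) = true := by
  decide +kernel

theorem bT_14_4 : allBelow 4 (fun i => force (4 + i) (chkT 14)) = true := by
  decide +kernel

theorem bT_14_8 : allBelow 4 (fun i => force (8 + i) (chkT 14)) = true := by
  decide +kernel

theorem bT_14_12 : allBelow 4 (fun i => force (12 + i) (chkT 14)) = true := by
  decide +kernel

theorem bT_15_0 : allBelow 4 (fun i => force (0 + i) (chkT 15)) = true := by
  decide +kernel

theorem bT_15_4 : allBelow 4 (fun i => force (4 + i) (chkT 15)) = true := by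
  decide +kernel

theorem bT_15_8 : allBelow 4 (fun i => force (8 + i) (chkT 15)) = true := by
  decide +kernel

theorem bT_15_12 : allBelow 4 (fun i => force (12 + i) (chkT 15)) = true := by
  decide +kernel


end Pool.Agent.H51Seshadri
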