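import Pool.Agent.H51Seshadri.Facts

/-!
Finite combinatorial checks and elementary algebra lemmas.
-/

namespace Pool.Agent.H51Seshadri

/-- Determinant of three lines. -/
def dz (a b c : ℕ) : ℤ :=
  (lc a 0 : ℤ) * ((lc b 1 : ℤ) * lc c 2 - (lc b 2 : ℤ) * lc c 1) -
  (lc a 1 : ℤ) * ((lc b 0 : ℤ) * lc c 2 - (lc b 2 : ℤ) * lc c 0) +
  (lc a 2 : ℤ) * ((lc b 0 : ℤ) * lc c 1 - (lc b 1 : ℤ) * lc c 0)

lemma c1 : ∀ s < 16, ∀ k < 15, onL s k = false → dz (k1 s) (k2 s) k % 11 ≠ 0 := by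
  decide +kernel

set_option synthInstance.maxSize 4000 in
lemma c2 : ∀ i < 3, ∀ j < 3, ∀ k < 15, k ≠ cl i j → k ≠ cl i ((j + 1) % 3) →
    dz (cl i j) (cl i ((j + 1) % 3)) k % 11 ≠ 0 := by
  decide +kernel

lemma c3 : ∀ s < 16, ∀ t < 16, s ≠ t → ∃ k < 15, onL t k = true ∧ onL s k = false := by
  decide +kernel

lemma c4 : ∀ i < 3, ∀ j < 3, ∀ s < 16, ∃ k < 15, onL s k = true ∧ k ≠ cl i j ∧
    k ≠ cl i ((j + 1) % 3) := by
  decide +kernel

lemma c5 : ∀ s < 16, k1 s < 15 ∧ k2 s < 15 ∧ onL s (k1 s) = true ∧ onL s (k2 s) = true ∧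
    mi s < 3 ∧ onL s (2 - mi s) = false := by
  decide +kernel

/-- Incidence number. -/
def cnt (k t : ℕ) : ℕ := ∑ j : Fin 4, if dd k j = t then 1 else 0

/-- Multiplicity of the map at the point. -/
def MM (t : ℕ) : ℕ := if t < 6 then 20 else 4

lemma c6 : ∀ k < 15, ∀ t < 16, cnt k t + 2 * cnt (nx (nx k)) t + ∑ j : Fin 4, mm (dd k j) t
    = MM t := by
  decide +kernel

lemma c7 : ∀ k < 15, nx k < 15 := by decide +kernel

lemma c8 : ∀ k < 15, ∀ j : Fin 4, dd k j < 16 ∧ onL (dd k j) k = true := by decide +kernel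

lemma c9 : ∀ k < 15, ∀ t < 16, onL t k = true → ∃ j : Fin 4, dd k j = t := by decide +kernel

lemma c10 : ∀ k < 15, ∀ j j' : Fin 4, dd k j = dd k j' → j = j' := by decide +kernel

lemma c11 : ∀ i < 3, ∀ j < 3, cl i j < 15 ∧ nx (cl i j) = cl i ((j + 1) % 3) := by
  decide +kernel

/-- Number of points of the line `k` on the line `l`. -/
def nn (k l : ℕ) : ℕ := ∑ j : Fin 4, if onL (dd k j) l = true then 1 else 0

set_option synthInstance.maxSize 4000 in
lemma c12 : ∀ k < 15, ∀ i < 3, ∀ j < 3,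
    (k ≠ cl i j ∧ k ≠ cl i ((j + 1) % 3) ∧ nx (nx k) ≠ cl i j ∧ nx (nx k) ≠ cl i ((j + 1) % 3) ∧
      nn k (cl i ((j + 1) % 3)) = 1 ∧ k ≠ cl i ((j + 2) % 3)) ∨
    (k = cl i j ∧ k ≠ cl i ((j + 1) % 3) ∧ nx (nx k) ≠ cl i j ∧ nx (nx k) ≠ cl i ((j + 1) % 3) ∧
      nn k (cl i ((j + 1) % 3)) = 0 ∧ k ≠ cl i ((j + 2) % 3)) ∨
    (k ≠ cl i j ∧ k = cl i ((j + 1) % 3) ∧ nx (nx k) = cl i j ∧ nx (nx k) ≠ cl i ((j + 1) % 3) ∧
      nn k (cl i ((j + 1) % 3)) = 4 ∧ k ≠ cl i ((j + 2) % 3)) ∨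
    (k ≠ cl i j ∧ k ≠ cl i ((j + 1) % 3) ∧ nx (nx k) ≠ cl i j ∧ nx (nx k) = cl i ((j + 1) % 3) ∧
      nn k (cl i ((j + 1) % 3)) = 0 ∧ k = cl i ((j + 2) % 3)) := by
  decide +kernel

/-- A line outside each triangle. -/
lemma c13 : ∀ i < 3, ∃ k < 15, ∀ j < 3, k ≠ cl i j := by decide +kernel

lemma c14 : ∀ i < 3, ∀ i' < 3, i ≠ i' → ∀ j < 3, ∀ j' < 3, cl i j ≠ cl i' j' := by decide +kernel

lemma c15 : ∀ i < 3, ∀ j < 3, ∀ t < 16, ¬ (onL t (cl i j) = true ∧
    onL t (cl i ((j + 1) % 3)) = true) := by decide +kernel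

lemma c16 : ∀ i < 3, ∀ j < 3, ni (cl i j) < 3 ∧ 2 - ni (cl i j) ≠ cl i j ∧
    2 - ni (cl i j) ≠ cl i ((j + 1) % 3) := by decide +kernel

lemma c17 : ∀ k < 15, nth 0 ckTab k % 11 ≠ 0 ∧ nth 0 c0Tab k % 11 ≠ 0 := by decide +kernel

lemma c18 : ∑ t : Fin 16, dg t = 200 ∧ (∀ s : Fin 16, (∑ t : Fin 16, mm t s) + 1 = 4 * MM s) := by
  decide +kernel

/-- Weights. -/
def wt (s : ℕ) : ℕ := if s < 6 then 3 else 1

lemma c19 : ∑ t : Fin 16, wt t * dg t = 320 ∧
    (∀ s : Fin 16, (∑ t : Fin 16, wt t * mm t s) + 11 * wt s = 8 * MM s) := by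
  decide +kernel

lemma c20 : ∀ i < 3, ∀ j < 3, (∑ t : Fin 16, if onL t (cl i j) = true then 1 else 0) = 4 ∧
    (∑ t : Fin 16, wt t * if onL t (cl i j) = true then 1 else 0) = 8 := by
  decide +kernel

lemma c21 : ∀ k < 15, ∑ j : Fin 4, dg (dd k j) = 48 := by decide +kernel

lemma c22 : ∀ s < 16, ∀ i < 3, ∀ j < 3, ¬ (k1 s = cl i j ∧ k2 s = cl i ((j + 1) % 3)) ∧
    ¬ (k2 s = cl i j ∧ k1 s = cl i ((j + 1) % 3)) ∧ k1 s ≠ k2 s := by decide +kernel

lemma c23 : ∀ s < 16, ∀ t < 16, onL t (k1 s) = true → onL t (k2 s) = true → t = s := by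
  decide +kernel

section Alg
open MvPolynomial
variable {F : Type*} [Field F] [CharP F 11]

lemma isUnit_natCast {n : ℕ} (h : n % 11 ≠ 0) : IsUnit ((n : MvPolynomial (Fin 2) F)) := by
  have : (n : F) ≠ 0 := by
    intro h0
    exact h (Nat.mod_eq_zero_of_dvd ((CharP.cast_eq_zero_iff F 11 n).mp h0))
  have h2 : IsUnit (C (n : F) : MvPolynomial (Fin 2) F) := (IsUnit.mk0 _ this).map C
  simpa using h2

lemma isUnit_intCast {n : ℤ} (h : n % 11 ≠ 0) : IsUnit ((n : MvPolynomial (Fin 2) F)) := by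
  have : (n : F) ≠ 0 := by
    intro h0
    have := (CharP.intCast_eq_zero_iff F 11 n).mp h0
    exact h (Int.emod_eq_zero_of_dvd (by exact_mod_cast this))
  have h2 : IsUnit (C (n : F) : MvPolynomial (Fin 2) F) := (IsUnit.mk0 _ this).map C
  simpa using h2

/-- Three independent lines. -/
lemma three {a b c : ℕ} (hd : dz a b c % 11 ≠ 0) {g : Fin 3 → MvPolynomial (Fin 2) F}
    {p : MvPolynomial (Fin 2) F} (h1 : p ∣ ell a g) (h2 : p ∣ ell b g) (h3 : p ∣ ell c g) :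
    ∀ i, p ∣ g i := by
  have hu : IsUnit ((dz a b c : ℤ) : MvPolynomial (Fin 2) F) := isUnit_intCast hd
  intro i
  rw [← hu.dvd_mul_left]
  have e0 : ((dz a b c : ℤ) : MvPolynomial (Fin 2) F) * g 0 =
      ((lc b 1 : MvPolynomial (Fin 2) F) * lc c 2 - (lc b 2 : MvPolynomial (Fin 2) F) * lc c 1) *
        ell a g -
      ((lc a 1 : MvPolynomial (Fin 2) F) * lc c 2 - (lc a 2 : MvPolynomial (Fin 2) F) * lc c 1) *
        ell b g +
      ((lc a 1 : MvPolynomial (Fin 2) F) * lc b 2 - (lc a 2 : MvPolynomial (Fin 2) F) * lc b 1) *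
        ell c g := by
    simp only [dz, ell]; push_cast; ring
  have e1 : ((dz a b c : ℤ) : MvPolynomial (Fin 2) F) * g 1 =
      -((lc b 0 : MvPolynomial (Fin 2) F) * lc c 2 - (lc b 2 : MvPolynomial (Fin 2) F) * lc c 0) *
        ell a g +
      ((lc a 0 : MvPolynomial (Fin 2) F) * lc c 2 - (lc a 2 : MvPolynomial (Fin 2) F) * lc c 0) *
        ell b g -
      ((lc a 0 : MvPolynomial (Fin 2) F) * lc b 2 - (lc a 2 : MvPolynomial (Fin 2) F) * lc b 0) *
        ell c g := by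
    simp only [dz, ell]; push_cast; ring
  have e2 : ((dz a b c : ℤ) : MvPolynomial (Fin 2) F) * g 2 =
      ((lc b 0 : MvPolynomial (Fin 2) F) * lc c 1 - (lc b 1 : MvPolynomial (Fin 2) F) * lc c 0) *
        ell a g -
      ((lc a 0 : MvPolynomial (Fin 2) F) * lc c 1 - (lc a 1 : MvPolynomial (Fin 2) F) * lc c 0) *
        ell b g +
      ((lc a 0 : MvPolynomial (Fin 2) F) * lc b 1 - (lc a 1 : MvPolynomial (Fin 2) F) * lc b 0) *
        ell c g := by
    simp only [dz, ell]; push_cast; ring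
  fin_cases i
  · rw [show ((fun i => i) (⟨0, by norm_num⟩ : Fin 3)) = 0 from rfl, e0]
    exact dvd_add (dvd_sub (h1.mul_left _) (h2.mul_left _)) (h3.mul_left _)
  · rw [show ((fun i => i) (⟨1, by norm_num⟩ : Fin 3)) = 1 from rfl, e1]
    exact dvd_sub (dvd_add (h1.mul_left _) (h2.mul_left _)) (h3.mul_left _)
  · rw [show ((fun i => i) (⟨2, by norm_num⟩ : Fin 3)) = 2 from rfl, e2]
    exact dvd_add (dvd_sub (h1.mul_left _) (h2.mul_left _)) (h3.mul_left _)

end Alg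

section Homog
open MvPolynomial

/-- A quotient of homogeneous polynomials is homogeneous. -/
lemma homog_of_mul {σ R : Type*} [CommRing R] [IsDomain R] {a b c : MvPolynomial σ R} {m n : ℕ}
    (ha : a.IsHomogeneous m) (hc : c.IsHomogeneous n) (h : a * b = c) (h0 : c ≠ 0) :
    ∃ l, b.IsHomogeneous l ∧ m + l = n := by
  classical
  have ha0 : a ≠ 0 := by rintro rfl; exact h0 (by rw [← h, zero_mul])
  have key : c = ∑ l ∈ Finset.range (b.totalDegree + 1),
      if m + l = n then a * homogeneousComponent l b else 0 := by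
    conv_lhs => rw [← homogeneousComponent_eq_self hc, ← h]
    conv_lhs => rw [← sum_homogeneousComponent b, Finset.mul_sum, map_sum]
    refine Finset.sum_congr rfl fun l _ => ?_
    have hl : (a * homogeneousComponent l b).IsHomogeneous (m + l) :=
      ha.mul (homogeneousComponent_isHomogeneous l b)
    rw [homogeneousComponent_of_mem hl]
    split_ifs with h1 h2 h2
    · rfl
    · exact absurd h1.symm h2
    · exact absurd h2.symm h1
    · rfl
  by_cases hmn : m ≤ n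
  · refine ⟨n - m, ?_, by omega⟩
    have : c = a * homogeneousComponent (n - m) b := by
      rw [key]
      by_cases hr : n - m ∈ Finset.range (b.totalDegree + 1)
      · rw [Finset.sum_eq_single (n - m)]
        · rw [if_pos (by omega)]
        · intro l _ hl; rw [if_neg (by omega)]
        · intro h; exact absurd hr h
      · rw [Finset.sum_eq_zero, homogeneousComponent_eq_zero, mul_zero]
        · rw [Finset.mem_range, not_lt] at hr
          omega
        · intro l hl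
          rw [if_neg]
          intro h'
          apply hr
          rwa [show n - m = l by omega]
    have hb : b = homogeneousComponent (n - m) b := mul_left_cancel₀ ha0 (by rw [h, ← this])
    rw [hb]
    exact homogeneousComponent_isHomogeneous _ _
  · exfalso
    apply h0
    rw [key]
    apply Finset.sum_eq_zero
    intro l _
    rw [if_neg (by omega)]

end Homog

end Pool.Agent.H51Seshadri
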