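import Pool.Agent.H51Seshadri.FF2

/-!
The degree formula for plane curves parametrised by binary forms.
-/

namespace Pool.Agent.H51Seshadri
open IntermediateField algebraAdjoinAdjoin Polynomial

section
variable {F : Type*} [Field F]

/-- Degree of a simple extension through an irreducible bivariate polynomial. -/
lemma finrank_of_irreducible {f g : RatFunc F} (hf : ¬ ∃ c, f = RatFunc.C c)
    {A : Polynomial (Polynomial F)} (hA : Irreducible A)
    (h : Polynomial.eval₂ (Polynomial.aeval f : Polynomial F →ₐ[F] RatFunc F).toRingHom g A = 0) :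
    Module.finrank F⟮f⟯ F⟮f⟯⟮g⟯ = A.natDegree := by
  have htr : Transcendental F f := f.transcendental_of_ne_C hf
  have : UniqueFactorizationMonoid (Algebra.adjoin F {f}) := htr.uniqueFactorizationMonoid_adjoin
  set e := Polynomial.algEquivOfTranscendental F f htr with he
  set P1 : Polynomial (Algebra.adjoin F {f}) := A.mapEquiv e.toRingEquiv with hP1
  have hirr1 : Irreducible P1 := by rw [hP1, MulEquiv.irreducible_iff]; exact hA
  have hdeg1 : P1.natDegree = A.natDegree := by
    rw [hP1, Polynomial.mapEquiv_apply]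
    exact Polynomial.natDegree_map_eq_of_injective e.injective A
  have hinj2 : Function.Injective (algebraMap (Algebra.adjoin F {f}) F⟮f⟯) :=
    FaithfulSMul.algebraMap_injective _ _
  set P2 : Polynomial F⟮f⟯ := P1.map (algebraMap (Algebra.adjoin F {f}) F⟮f⟯) with hP2
  have hdeg2 : P2.natDegree = A.natDegree := by
    rw [hP2, Polynomial.natDegree_map_eq_of_injective hinj2, hdeg1]
  have hA0 : A ≠ 0 := hA.ne_zero
  have hnd : A.natDegree ≠ 0 := by
    intro h0
    obtain ⟨a, ha⟩ := Polynomial.natDegree_eq_zero.mp h0
    rw [← ha, Polynomial.eval₂_C] at h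
    have ha0 : a = 0 := by
      by_contra hne
      exact htr ⟨a, hne, h⟩
    exact hA0 (by rw [← ha, ha0, map_zero])
  have hprim : P1.IsPrimitive := hirr1.isPrimitive (by rw [hdeg1]; exact hnd)
  have hirr2 : Irreducible P2 :=
    (hprim.irreducible_iff_irreducible_map_fraction_map).mp hirr1
  have hev : Polynomial.aeval g P2 = 0 := by
    rw [hP2, hP1, Polynomial.mapEquiv_apply, Polynomial.aeval_def, Polynomial.eval₂_map,
      Polynomial.eval₂_map]
    convert h using 2
    ext x
    · change ((e (Polynomial.C x) : Algebra.adjoin F {f}) : RatFunc F) = Polynomial.aeval f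
        (Polynomial.C x)
      rw [Polynomial.aeval_C, ← Polynomial.algebraMap_eq, e.commutes]
      rfl
    · simp [he]
  have hint : IsIntegral F⟮f⟯ g := by
    rw [← isAlgebraic_iff_isIntegral]
    exact ⟨P2, hirr2.ne_zero, hev⟩
  rw [adjoin.finrank hint, ← minpoly.eq_of_irreducible hirr2 hev, mul_comm,
    Polynomial.natDegree_C_mul (inv_ne_zero (Polynomial.leadingCoeff_ne_zero.mpr hirr2.ne_zero)),
    hdeg2]

/-- Degree of the extension generated by a reduced fraction. -/
lemma finrank_of_coprime {p q : Polynomial F} (hp : p ≠ 0) (hq : q ≠ 0) (h : IsCoprime p q)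
    {f : RatFunc F} (hf : f = algebraMap (Polynomial F) (RatFunc F) p /
      algebraMap (Polynomial F) (RatFunc F) q) :
    Module.finrank F⟮f⟯ (RatFunc F) = max p.natDegree q.natDegree ∧
      max f.num.natDegree f.denom.natDegree = max p.natDegree q.natDegree := by
  have hmul : f.num * q = p * f.denom := by
    apply RatFunc.algebraMap_injective F
    rw [map_mul, map_mul]
    have h1 := RatFunc.num_div_denom f
    have hd : algebraMap (Polynomial F) (RatFunc F) f.denom ≠ 0 :=
      RatFunc.algebraMap_ne_zero f.denom_ne_zero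
    have hq' : algebraMap (Polynomial F) (RatFunc F) q ≠ 0 := RatFunc.algebraMap_ne_zero hq
    rw [hf] at h1
    rw [hf] at hd ⊢
    field_simp at h1
    rw [mul_comm]
    exact h1
  have hn0 : f.num ≠ 0 := by
    intro h0
    rw [h0, zero_mul] at hmul
    exact mul_ne_zero hp f.denom_ne_zero hmul.symm
  have c1 := f.isCoprime_num_denom
  have d1 : f.num ∣ p := c1.dvd_of_dvd_mul_right (hmul ▸ dvd_mul_right _ _)
  have d2 : p ∣ f.num := h.dvd_of_dvd_mul_right (hmul ▸ dvd_mul_right _ _)
  have d3 : f.denom ∣ q := c1.symm.dvd_of_dvd_mul_left (hmul ▸ dvd_mul_left _ _)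
  have d4 : q ∣ f.denom := h.symm.dvd_of_dvd_mul_left (hmul ▸ dvd_mul_left _ _)
  have e1 : f.num.natDegree = p.natDegree :=
    le_antisymm (Polynomial.natDegree_le_of_dvd d1 hp) (Polynomial.natDegree_le_of_dvd d2 hn0)
  have e2 : f.denom.natDegree = q.natDegree :=
    le_antisymm (Polynomial.natDegree_le_of_dvd d3 hq)
      (Polynomial.natDegree_le_of_dvd d4 f.denom_ne_zero)
  rw [RatFunc.finrank_eq_max_natDegree, e1, e2]
  exact ⟨rfl, rfl⟩

/-- The field of ratios. -/
noncomputable def KS (V : Submodule F (RatFunc F)) : IntermediateField F (RatFunc F) :=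
  IntermediateField.adjoin F {r | ∃ a ∈ V, ∃ b ∈ V, r = a / b}

lemma KS_eq {x y z : RatFunc F} (hy : y ≠ 0) :
    KS (Submodule.span F {x, y, z}) = IntermediateField.adjoin F {x / y, z / y} := by
  apply le_antisymm
  · unfold KS
    rw [IntermediateField.adjoin_le_iff]
    rintro r ⟨a, ha, b, hb, rfl⟩
    have key : ∀ a ∈ Submodule.span F {x, y, z},
        a / y ∈ IntermediateField.adjoin F {x / y, z / y} := by
      intro a ha
      induction ha using Submodule.span_induction with
      | mem w hw =>
        rcases hw with rfl | rfl | hw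
        · exact IntermediateField.subset_adjoin _ _ (by simp)
        · rw [div_self hy]; exact one_mem _
        · rw [Set.mem_singleton_iff] at hw
          subst hw
          exact IntermediateField.subset_adjoin _ _ (by simp)
      | zero => rw [zero_div]; exact zero_mem _
      | add u v _ _ hu hv => rw [add_div]; exact add_mem hu hv
      | smul c u _ hu =>
        have : (c • u) / y = c • (u / y) := by
          rw [Algebra.smul_def, Algebra.smul_def, mul_div_assoc]
        rw [this]
        exact IntermediateField.smul_mem _ hu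
    have : a / b = (a / y) / (b / y) := by field_simp
    rw [this]
    exact div_mem (key a ha) (key b hb)
  · rw [IntermediateField.adjoin_le_iff]
    rintro r hr
    have hx' : x ∈ Submodule.span F {x, y, z} := Submodule.subset_span (by simp)
    have hy' : y ∈ Submodule.span F {x, y, z} := Submodule.subset_span (by simp)
    have hz' : z ∈ Submodule.span F {x, y, z} := Submodule.subset_span (by simp)
    rcases hr with rfl | hr
    · exact IntermediateField.subset_adjoin _ _ ⟨x, hx', y, hy', rfl⟩
    · rw [Set.mem_singleton_iff] at hr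
      subst hr
      exact IntermediateField.subset_adjoin _ _ ⟨z, hz', y, hy', rfl⟩

/-- Dehomogenised value in the function field. -/
noncomputable def iota : MvPolynomial (Fin 2) F →ₐ[F] RatFunc F :=
  (IsScalarTower.toAlgHom F (Polynomial F) (RatFunc F)).comp dehom

lemma iota_apply (p : MvPolynomial (Fin 2) F) :
    iota p = algebraMap (Polynomial F) (RatFunc F) (dehom p) := rfl

/-- The degree formula. -/
theorem deg_formula [IsAlgClosed F] {x y z h p q : MvPolynomial (Fin 2) F} {m D : ℕ}
    (hx : x = h * p) (hy : y = h * q) (h0 : dehom h ≠ 0) (hp0 : p ≠ 0) (hq0 : q ≠ 0)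
    (hp : p.IsHomogeneous m) (hq : q.IsHomogeneous m) (hrel : IsRelPrime p q) (hm : 0 < m)
    {G : MvPolynomial (Fin 3) F} (hG : G.IsHomogeneous D) (hirr : Irreducible G)
    (hev : MvPolynomial.aeval ![x, y, z] G = 0) :
    m = G.degreeOf 2 * Module.finrank (KS (Submodule.span F {iota x, iota y, iota z}))
      (RatFunc F) := by
  have hP := dehom_ne_zero hp hp0
  have hQ := dehom_ne_zero hq hq0
  have hcop := dehom_coprime hp hq hrel
  have hmax := dehom_max hp hq hrel
  set f : RatFunc F := iota x / iota y with hf
  set g : RatFunc F := iota z / iota y with hg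
  have hh' : algebraMap (Polynomial F) (RatFunc F) (dehom h) ≠ 0 := RatFunc.algebraMap_ne_zero h0
  have hq' : algebraMap (Polynomial F) (RatFunc F) (dehom q) ≠ 0 := RatFunc.algebraMap_ne_zero hQ
  have hy0 : iota y ≠ 0 := by
    rw [iota_apply, hy, map_mul, map_mul]
    exact mul_ne_zero hh' hq'
  have hfpq : f = algebraMap (Polynomial F) (RatFunc F) (dehom p) /
      algebraMap (Polynomial F) (RatFunc F) (dehom q) := by
    rw [hf, iota_apply, iota_apply, hx, hy, map_mul, map_mul, map_mul, map_mul,
      mul_div_mul_left _ _ hh']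
  obtain ⟨r1, r2⟩ := finrank_of_coprime hP hQ hcop hfpq
  rw [hmax] at r1 r2
  have hnc : ¬ ∃ c, f = RatFunc.C c := by
    rintro ⟨c, hc⟩
    rw [hc] at r2
    simp at r2
    omega
  have hG1 : ¬ G ∣ MvPolynomial.X 1 := by
    rintro ⟨c, hc⟩
    have := congrArg (MvPolynomial.aeval ![x, y, z]) hc
    rw [map_mul, hev, zero_mul] at this
    simp only [MvPolynomial.aeval_X, Matrix.cons_val_one, Matrix.cons_val_zero] at this
    apply hy0
    rw [this, map_zero]
  have hth := theta_irreducible hG hirr hG1
  have hth2 := theta_natDegree hG hirr.ne_zero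
  have hev2 : Polynomial.eval₂ (Polynomial.aeval f : Polynomial F →ₐ[F] RatFunc F).toRingHom g
      (theta G) = 0 := by
    have e1 : (Polynomial.eval₂RingHom (Polynomial.aeval f :
        Polynomial F →ₐ[F] RatFunc F).toRingHom g).comp theta.toRingHom =
        (MvPolynomial.aeval ![f, 1, g] : MvPolynomial (Fin 3) F →ₐ[F] RatFunc F).toRingHom := by
      apply MvPolynomial.ringHom_ext
      · intro r
        simp [theta]
      · intro i
        fin_cases i <;> simp [theta]
    have e2 : Polynomial.eval₂ (Polynomial.aeval f : Polynomial F →ₐ[F] RatFunc F).toRingHom g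
      (theta G) = MvPolynomial.aeval ![f, 1, g] G := DFunLike.congr_fun e1 G
    rw [e2]
    have e3 : (![f, 1, g] : Fin 3 → RatFunc F) = fun i => (iota y)⁻¹ * iota (![x, y, z] i) := by
      funext i
      fin_cases i
      · simp [hf, div_eq_inv_mul]
      · simp [hy0]
      · simp [hg, div_eq_inv_mul]
    rw [e3, aeval_scale hG]
    have e4 : MvPolynomial.aeval (fun i => iota (![x, y, z] i)) G =
        iota (MvPolynomial.aeval ![x, y, z] G) := by
      rw [MvPolynomial.comp_aeval_apply]
    rw [e4, hev, map_zero, mul_zero]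
  have r3 := finrank_of_irreducible hnc hth hev2
  rw [KS_eq hy0, ← r1, ← Module.finrank_mul_finrank F⟮f⟯ F⟮f⟯⟮g⟯ (RatFunc F), r3, hth2]
  congr 1
  have : F⟮f⟯⟮g⟯.restrictScalars F = F⟮f, g⟯ := IntermediateField.adjoin_simple_adjoin_simple F f g
  rw [← this]
  rfl

end

end Pool.Agent.H51Seshadri
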