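import Pool.Agent.H51Seshadri.Mult
import Pool.Agent.H51Seshadri.FF3

/-!
The plane curve parametrised by three binary forms.
-/

namespace Pool.Agent.H51Seshadri
open MvPolynomial

section
variable {k : Type*} [Field k]

/-- Three binary forms are algebraically dependent. -/
lemma exists_dep (g : Fin 3 → MvPolynomial (Fin 2) k) :
    ∃ A : MvPolynomial (Fin 3) k, A ≠ 0 ∧ aeval g A = 0 := by
  by_contra hcon
  push Not at hcon
  have hinj : AlgebraicIndependent k g := by
    rw [algebraicIndependent_iff]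
    intro p hp
    by_contra hne
    exact hcon p hne hp
  have h1 := hinj.lift_cardinalMk_le_trdeg
  rw [MvPolynomial.trdeg_of_isDomain] at h1
  simp at h1
  norm_cast at h1

/-- Existence of an irreducible equation. -/
theorem exists_eq {g : Fin 3 → MvPolynomial (Fin 2) k} {d : ℕ} (hd : 0 < d)
    (hg : ∀ i, (g i).IsHomogeneous d) :
    ∃ G : MvPolynomial (Fin 3) k, Irreducible G ∧ G.IsHomogeneous G.totalDegree ∧
      aeval g G = 0 := by
  classical
  -- homogeneous components of a relation are relations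
  have comp : ∀ A : MvPolynomial (Fin 3) k, aeval g A = 0 →
      ∀ n, aeval g (homogeneousComponent n A) = 0 := by
    intro A hA n
    have h1 : ∀ n, (aeval g (homogeneousComponent n A)).IsHomogeneous (d * n) := by
      intro n
      have := (homogeneousComponent_isHomogeneous n A).aeval (n := d) g hg
      exact this
    by_cases hn : n ∈ Finset.range (A.totalDegree + 1)
    · have h2 : homogeneousComponent (d * n) (aeval g A) = 0 := by rw [hA, map_zero]
      rw [← sum_homogeneousComponent A, map_sum, map_sum, Finset.sum_eq_single n] at h2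
      · rwa [homogeneousComponent_eq_self (h1 n)] at h2
      · intro m _ hm
        rw [homogeneousComponent_of_mem (h1 m), if_neg]
        intro h
        exact hm (Nat.eq_of_mul_eq_mul_left hd h.symm)
      · intro h; exact absurd hn h
    · rw [homogeneousComponent_eq_zero, map_zero]
      rw [Finset.mem_range, not_lt] at hn
      omega
  have hex : ∃ n, ∃ A : MvPolynomial (Fin 3) k, A ≠ 0 ∧ A.IsHomogeneous n ∧ aeval g A = 0 := by
    obtain ⟨A, hA0, hA⟩ := exists_dep g
    by_contra hcon
    push Not at hcon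
    apply hA0
    rw [← sum_homogeneousComponent A]
    apply Finset.sum_eq_zero
    intro n _
    by_contra hne
    exact hcon n _ hne (homogeneousComponent_isHomogeneous n A) (comp A hA n)
  set n := Nat.find hex with hn
  obtain ⟨A, hA0, hAh, hA⟩ := Nat.find_spec hex
  rw [← hn] at hAh
  have hmin : ∀ m, ∀ B : MvPolynomial (Fin 3) k, B ≠ 0 → B.IsHomogeneous m → aeval g B = 0 →
      n ≤ m := fun m B h1 h2 h3 => Nat.find_min' hex ⟨B, h1, h2, h3⟩
  have htd : A.totalDegree = n := hAh.totalDegree hA0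
  have hmin' : ∀ B : MvPolynomial (Fin 3) k, B ≠ 0 → aeval g B = 0 → n ≤ B.totalDegree := by
    intro B hB0 hB
    have : ∃ m, m ≤ B.totalDegree ∧ homogeneousComponent m B ≠ 0 := by
      by_contra hcon
      push Not at hcon
      apply hB0
      rw [← sum_homogeneousComponent B]
      apply Finset.sum_eq_zero
      intro m hm
      exact hcon m (Nat.lt_succ_iff.mp (Finset.mem_range.mp hm))
    obtain ⟨m, hm, hm0⟩ := this
    exact (hmin m _ hm0 (homogeneousComponent_isHomogeneous m B) (comp B hB m)).trans hm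
  refine ⟨A, ⟨?_, ?_⟩, by rw [htd]; exact hAh, hA⟩
  · intro hu
    obtain ⟨c, hc⟩ := MvPolynomial.isUnit_iff_eq_C_of_isReduced.mp hu
    obtain ⟨hc1, hc2⟩ := hc
    rw [hc2, aeval_C] at hA
    have : (algebraMap k (MvPolynomial (Fin 2) k)) c ≠ 0 := by
      rw [MvPolynomial.algebraMap_eq, C_ne_zero]
      exact hc1.ne_zero
    exact this hA
  · intro B C' hBC
    have hB0 : B ≠ 0 := by rintro rfl; exact hA0 (by rw [hBC, zero_mul])
    have hC0 : C' ≠ 0 := by rintro rfl; exact hA0 (by rw [hBC, mul_zero])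
    have hdeg : B.totalDegree + C'.totalDegree = n := by
      rw [← htd, hBC, totalDegree_mul_of_isDomain hB0 hC0]
    rw [hBC, map_mul, mul_eq_zero] at hA
    have unit_of : ∀ E : MvPolynomial (Fin 3) k, E ≠ 0 → E.totalDegree = 0 → IsUnit E := by
      intro E hE0 hE
      rw [totalDegree_eq_zero_iff_eq_C] at hE
      rw [hE] at hE0 ⊢
      exact (IsUnit.mk0 _ (C_ne_zero.mp hE0)).map C
    rcases hA with h | h
    · right
      have := hmin' B hB0 h
      exact unit_of C' hC0 (by omega)
    · left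
      have := hmin' C' hC0 h
      exact unit_of B hB0 (by omega)

/-- Span of the three dehomogenised forms. -/
noncomputable def Vg (g : Fin 3 → MvPolynomial (Fin 2) k) : Submodule k (RatFunc k) :=
  Submodule.span k (Set.range fun i => iota (g i))

/-- Linear change of the parametrisation. -/
noncomputable def lg (A : Matrix (Fin 3) (Fin 3) k) (g : Fin 3 → MvPolynomial (Fin 2) k) :
    Fin 3 → MvPolynomial (Fin 2) k :=
  fun i => ∑ j, algebraMap k (MvPolynomial (Fin 2) k) (A i j) * g j

lemma lg_hom (A : Matrix (Fin 3) (Fin 3) k) {g : Fin 3 → MvPolynomial (Fin 2) k} {d : ℕ}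
    (hg : ∀ i, (g i).IsHomogeneous d) (i : Fin 3) : (lg A g i).IsHomogeneous d := by
  apply IsHomogeneous.sum
  intro j _
  have := (isHomogeneous_C (Fin 2) (A i j)).mul (hg j)
  rwa [zero_add] at this

lemma lg_comp (A B : Matrix (Fin 3) (Fin 3) k) (g : Fin 3 → MvPolynomial (Fin 2) k) :
    lg B (lg A g) = lg (B * A) g := by
  funext i
  simp only [lg, Matrix.mul_apply, map_sum, map_mul, Finset.mul_sum, Finset.sum_mul]
  rw [Finset.sum_comm]
  exact Finset.sum_congr rfl fun j _ => Finset.sum_congr rfl fun l _ => by ring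

lemma lg_one (g : Fin 3 → MvPolynomial (Fin 2) k) : lg 1 g = g := by
  funext i
  rw [lg, Finset.sum_eq_single i]
  · simp
  · intro j _ hj
    rw [Matrix.one_apply_ne (Ne.symm hj)]
    simp
  · intro h; exact absurd (Finset.mem_univ _) h

lemma Vg_le (A : Matrix (Fin 3) (Fin 3) k) (g : Fin 3 → MvPolynomial (Fin 2) k) :
    Vg (lg A g) ≤ Vg g := by
  unfold Vg
  rw [Submodule.span_le]
  rintro _ ⟨i, rfl⟩
  simp only [lg, map_sum, map_mul, AlgHom.commutes]
  apply Submodule.sum_mem
  intro j _
  rw [← Algebra.smul_def]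
  exact Submodule.smul_mem _ _ (Submodule.subset_span ⟨j, rfl⟩)

lemma Vg_eq {A B : Matrix (Fin 3) (Fin 3) k} (h2 : B * A = 1)
    (g : Fin 3 → MvPolynomial (Fin 2) k) : Vg (lg A g) = Vg g := by
  apply le_antisymm (Vg_le A g)
  have := Vg_le B (lg A g)
  rwa [lg_comp, h2, lg_one] at this

lemma Vg_triple (g : Fin 3 → MvPolynomial (Fin 2) k) :
    Vg g = Submodule.span k {iota (g 0), iota (g 1), iota (g 2)} := by
  unfold Vg
  congr 1
  ext x
  simp only [Set.mem_range, Set.mem_insert_iff, Set.mem_singleton_iff]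
  constructor
  · rintro ⟨i, rfl⟩
    fin_cases i <;> simp
  · rintro (h | h | h)
    · exact ⟨0, h.symm⟩
    · exact ⟨1, h.symm⟩
    · exact ⟨2, h.symm⟩

/-- The fundamental formula at a point. -/
theorem point_formula [IsAlgClosed k] {g : Fin 3 → MvPolynomial (Fin 2) k} {P : Fin 3 → k}
    {A B : Matrix (Fin 3) (Fin 3) k} (h1 : A * B = 1) (h2 : B * A = 1) {c : k} (hc : c ≠ 0)
    (hP : A.mulVec P = c • e2 k) {h p q : MvPolynomial (Fin 2) k} {m ν : ℕ}
    (hh : h.IsHomogeneous ν) (hh0 : h ≠ 0)
    (hx : lg A g 0 = h * p) (hy : lg A g 1 = h * q) (hp0 : p ≠ 0) (hq0 : q ≠ 0)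
    (hp : p.IsHomogeneous m) (hq : q.IsHomogeneous m) (hrel : IsRelPrime p q) (hm : 0 < m)
    {G : MvPolynomial (Fin 3) k} {D : ℕ} (hG : G.IsHomogeneous D) (hirr : Irreducible G)
    (hev : aeval g G = 0) :
    mult P G ≤ D ∧ m = (D - mult P G) * Module.finrank (KS (Vg g)) (RatFunc k) := by
  have hmul := mult_eq h1 h2 hc hP hG hirr.ne_zero
  have hev' : aeval ![lg A g 0, lg A g 1, lg A g 2] (lin B G) = 0 := by
    have e1 : (![lg A g 0, lg A g 1, lg A g 2] : Fin 3 → MvPolynomial (Fin 2) k) = lg A g := by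
      funext i; fin_cases i <;> rfl
    rw [e1, aeval_lin]
    have e2 : (fun i => ∑ j, algebraMap k (MvPolynomial (Fin 2) k) (B i j) * lg A g j) = g := by
      have := lg_comp A B g
      rw [h2, lg_one] at this
      exact this
    rw [e2, hev]
  have key := deg_formula hx hy (dehom_ne_zero hh hh0) hp0 hq0 hp hq hrel hm
    (lin_hom B hG) (lin_irreducible h2 h1 hirr) hev'
  rw [← Vg_triple, Vg_eq h2] at key
  refine ⟨by omega, ?_⟩
  rw [show D - mult P G = (lin B G).degreeOf 2 by omega]
  exact key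

/-- Linear forms are combinations of the variables. -/
lemma hom_one {L : MvPolynomial (Fin 3) k} (hL : L.IsHomogeneous 1) :
    ∃ l : Fin 3 → k, L = ∑ i, C (l i) * X i := by
  have h1 : L ∈ homogeneousSubmodule (Fin 3) k 1 := hL
  rw [homogeneousSubmodule_one_eq_span_X, Submodule.mem_span_range_iff_exists_fun] at h1
  obtain ⟨l, hl⟩ := h1
  refine ⟨l, ?_⟩
  rw [← hl]
  exact Finset.sum_congr rfl fun i _ => (C_mul').symm

/-- Linear forms vanishing at a point, evaluated along the curve. -/
lemma lin_form_dvd {g : Fin 3 → MvPolynomial (Fin 2) k} {P : Fin 3 → k}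
    {A B : Matrix (Fin 3) (Fin 3) k} (h2 : B * A = 1) {c : k} (hc : c ≠ 0)
    (hP : A.mulVec P = c • e2 k) {e : MvPolynomial (Fin 2) k} (h0 : e ∣ lg A g 0)
    (h1 : e ∣ lg A g 1) (L : MvPolynomial (Fin 3) k) (hL : L.IsHomogeneous 1)
    (hL0 : MvPolynomial.eval P L = 0) : e ∣ aeval g L := by
  obtain ⟨l, hl⟩ := hom_one (lin_hom B hL)
  have e1 : aeval g L = aeval (lg A g) (lin B L) := by
    rw [aeval_lin]
    have e2 : (fun i => ∑ j, algebraMap k (MvPolynomial (Fin 2) k) (B i j) * lg A g j) = g := by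
      have := lg_comp A B g
      rw [h2, lg_one] at this
      exact this
    rw [e2]
  have e3 : c * l 2 = 0 := by
    have : MvPolynomial.eval (c • e2 k) (lin B L) = 0 := by
      rw [← hP, ← eval_lin, lin_comp, h2, lin_one, hL0]
    rw [hl] at this
    simpa [Fin.sum_univ_three, e2, mul_comm] using this
  have e4 : l 2 = 0 := by
    rcases mul_eq_zero.mp e3 with h | h
    · exact absurd h hc
    · exact h
  rw [e1, hl, Fin.sum_univ_three, e4]
  simp only [map_add, map_mul, aeval_C, aeval_X, map_zero, zero_mul, add_zero]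
  exact dvd_add (h0.mul_left _) (h1.mul_left _)

end

end Pool.Agent.H51Seshadri
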