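import Pool.Agent.H51Seshadri.Defs

namespace Pool.Agent.H51Seshadri
open Ex

/-- Starting values: the sixteen binary forms. -/
def e0Tab : List (List ℕ) :=
  [[7], [1, 10], [10], [8, 5], [4], [9, 10], [7, 8], [2, 2, 5], [1, 6, 1], [6, 9], [8], [10, 6], [1, 4], [6, 9, 9], [7, 1], [5, 4]]

/-- Starting values: the parametrisation. -/
def g0Tab : List (List ℕ) :=
  [[10, 2, 4, 0, 6], [6, 2, 7, 8, 7], [7, 9, 3, 5, 10]]

/-- The three linear forms of the cusps. -/
def lamTab : List (List ℕ) :=
  [[0, 1], [1, 0], [1, 1]]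

/-- Constants. -/
def c0Tab : List ℕ := [1, 4, 1, 9, 6, 6, 6, 2, 5, 2, 3, 5, 9, 4, 4]

/-- Lines at the cusps. -/
def clTab : List (List ℕ) :=
  [[5, 14, 7], [9, 13, 6], [11, 8, 4]]

/-- Certificate for the starting curve. -/
def u0Tab : List (List (List ℕ)) :=
  [[[4, 8], [1, 7], [6, 8]], [[6, 10], [2, 5], [4, 7]]]

/-- Certificates at the sixteen points. -/
def u4Tab : List (List (List ℕ)) :=
  [[[4, 7, 4, 8, 8, 0, 6, 5, 5], [10, 8, 0, 4, 6, 7, 2, 0], [0, 9, 9, 7, 0, 4, 6, 9, 8, 6]],
   [[4, 7, 4, 8, 8, 0, 6, 5, 5], [10, 8, 0, 4, 6, 7, 2, 0], [0, 9, 9, 7, 0, 4, 6, 9, 8, 6]],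
   [[8, 8, 10, 7, 4, 8, 10, 3, 5, 7], [10, 10, 4, 7, 6, 4, 6, 10, 7], [6, 3, 6, 4, 4, 9, 8, 8]],
   [[8, 8, 10, 7, 4, 8, 10, 3, 5, 7], [10, 10, 4, 7, 6, 4, 6, 10, 7], [6, 3, 6, 4, 4, 9, 8, 8]],
   [[2, 8, 7, 8, 9, 8, 8, 9], [7, 1, 10, 1, 3, 4, 7, 8, 4, 3], [1, 8, 8, 2, 9, 4, 4, 2, 9]],
   [[2, 8, 7, 8, 9, 8, 8, 9], [7, 1, 10, 1, 3, 4, 7, 8, 4, 3], [1, 8, 8, 2, 9, 4, 4, 2, 9]],
   [[3, 9], [2], [8, 4, 0]],
   [[3, 9], [2], [8, 4, 0]],
   [[0, 9, 3], [9, 1], [0]],
   [[0, 9, 3], [9, 1], [0]],
   [[7, 10], [2, 9], [1, 7]],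
   [[7, 10], [2, 9], [1, 7]],
   [[9], [3, 3, 6], [9, 0]],
   [[9], [3, 3, 6], [9, 0]],
   [[10, 7], [8, 3], [2, 6]],
   [[10, 7], [8, 3], [2, 6]]]

/-- Exponents. -/
def a4Tab : List ℕ := [12, 12, 4, 4, 4, 4, 0, 0, 0, 0, 0, 0, 0, 0, 0, 0]

/-- Exponents. -/
def b4Tab : List ℕ := [15, 15, 23, 23, 23, 23, 4, 4, 4, 4, 5, 5, 4, 4, 5, 5]

/-- Power 1 of the product of all lines. -/
def l1N : ℕ := 0x10207040705010000000000000000506090906020000000000000070904090700000000000040909040000000000706070000000020500000010000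

/-- Power 1 of the product of all lines. -/
def L1E : Ex := tot (decTot 16 0 l1N) v0 v1 v2

/-- Power 2 of the product of all lines. -/
def l2N : ℕ := 0x1040703020604090401060a0100000000000000000000000000000000a0a0202060808070a070a0400000000000000000000000000000060704070809040a040207000000000000000000000000000010a0a0107000107020300000000000000000000000000407040005070806020000000000000000000000009080907000908060000000000000000000000408080104080400000000000000000000606070a0709000000000000000000202040a04000000000000000030207010000000000000070a0600000000000040a00000000001000000000000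

/-- Power 2 of the product of all lines. -/
def L2E : Ex := tot (decTot 31 0 l2N) v0 v1 v2

/-- Power 3 of the product of all lines. -/
def l3N : ℕ := 0x1060005030402060000000201000a060804010000000000000000000000000000000000000000000000004010609030102020708060704080401010600000000000000000000000000000000000000000000008010103020705040304070109070106000000000000000000000000000000000000000000000060407090303020a010a030209030905000000000000000000000000000000000000000000a0809020003090005020003020303000000000000000000000000000000000000000000401030208010908030307010400000000000000000000000000000000000000107070a0509010109020502020000000000000000000000000000000000002060401000109000a0402060000000000000000000000000000000000008030a0908050103070000000000000000000000000000000000007040203020a04080000000000000000000000000000000000205030003070600000000000000000000000000000060207030201070200000000000000000000000000201020909040100000000000000000000000040303070800000000000000000000000030901040a000000000000000000005060106000000000000000000001080000000000000000604000000000000001000000000000000000000000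

/-- Power 3 of the product of all lines. -/
def L3E : Ex := tot (decTot 46 0 l3N) v0 v1 v2

/-- Power. -/
def pw (e : Ex) : ℕ → Ex
  | 0 => c 1
  | n + 1 => mul (pw e n) e

/-- Product of the first lines. -/
def lineProd : ℕ → Ex
  | 0 => c 1
  | n + 1 => mul (lineProd n) (lineE n)

/-- Leading form at a point. -/
def leadE (s t : ℕ) : Ex := bin (digs (mm t s + 1) (nth 0 (nth [] tTab t) s)) v0 v1

/-- Product over the points of a line. -/
def prodD (k : ℕ) (f : ℕ → Ex) : Ex :=
  mul (mul (f (nth 0 (Dl k) 0)) (f (nth 0 (Dl k) 1))) (mul (f (nth 0 (Dl k) 2)) (f (nth 0 (Dl k) 3)))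

/-- The right side of the product identity for the line `k`. -/
def prodE (k : ℕ) : Ex :=
  mul (mul (c (nth 0 ckTab k)) (mul (lineE k) (mul (lineE (nx (nx k))) (lineE (nx (nx k))))))
    (prodD k BE)

/-- The product identity for line `k`. -/
def chk1 (k : ℕ) : Bool :=
  eqv 80 (add (add (mul (c (lc k 0)) (prodE 2)) (mul (c (lc k 1)) (prodE 1)))
    (mul (c (lc k 2)) (prodE 0))) (prodE k)

/-- Check of a certificate at a point. -/
def chk4 (s : ℕ) : Bool :=
  eqv 80 (mul (pw v0 (nth 0 a4Tab s)) (pw v1 (nth 0 b4Tab s)))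
    (add (add (mul (bin (nth [] (nth [] u4Tab s) 0) v0 v1) (prodD 2 (leadE s)))
      (mul (bin (nth [] (nth [] u4Tab s) 1) v0 v1) (prodD 1 (leadE s))))
      (mul (bin (nth [] (nth [] u4Tab s) 2) v0 v1) (prodD 0 (leadE s))))

/-- Components of the starting curve. -/
def g0E (i : ℕ) : Ex := bin (nth [] g0Tab i) v0 v1

/-- Starting binary forms. -/
def e0E (s : ℕ) : Ex := bin (nth [] e0Tab s) v0 v1

/-- Linear forms of the cusps. -/
def lamE (s : ℕ) : Ex := bin (nth [] lamTab s) v0 v1

/-- Lines at the cusps. -/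
def cl (i j : ℕ) : ℕ := nth 0 (nth [] clTab i) j

/-- Exponent of the linear form of the cusp `i` in the line `k`. -/
def ex (a b k i j : ℕ) : ℕ :=
  (if k = cl i (j % 3) then a else 0) + (if k = cl i ((j + 1) % 3) then b else 0)

/-- Check of the starting curve. -/
def chk0 (k : ℕ) : Bool :=
  eqv 80 (add (add (mul (c (lc k 0)) (g0E 0)) (mul (c (lc k 1)) (g0E 1)))
    (mul (c (lc k 2)) (g0E 2)))
    (mul (c (nth 0 c0Tab k)) (mul (prodD k e0E) (mul (mul (pw (lamE 0) (ex 1 2 k 0 0))
      (pw (lamE 1) (ex 1 2 k 1 0))) (pw (lamE 2) (ex 1 2 k 2 0)))))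

/-- Check that the starting curve is primitive. -/
def chk00 (j : ℕ) : Bool :=
  eqv 80 (pw (vE j) 5)
    (add (add (mul (bin (nth [] (nth [] u0Tab j) 0) v0 v1) (g0E 0))
      (mul (bin (nth [] (nth [] u0Tab j) 1) v0 v1) (g0E 1)))
      (mul (bin (nth [] (nth [] u0Tab j) 2) v0 v1) (g0E 2)))

end Pool.Agent.H51Seshadri
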