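import Pool.Agent.H51Seshadri.Data

namespace Pool.Agent.H51Seshadri
open Ex

/-- Coefficients of the lines. -/
def lc (k i : ℕ) : ℕ := nth 0 (nth [] lineTab k) i

/-- Linear form of line `k`. -/
def lineE (k : ℕ) : Ex :=
  add (add (mul (c (lc k 0)) v0) (mul (c (lc k 1)) v1)) (mul (c (lc k 2)) v2)

/-- Variable. -/
def vE : ℕ → Ex
  | 0 => v0
  | 1 => v1
  | _ => v2

/-- Points on line `k`. -/
def Dl (k : ℕ) : List ℕ := nth [] incTab k

/-- Next line. -/
def nx (k : ℕ) : ℕ := nth 0 nxTab k

/-- Degree. -/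
def dg (t : ℕ) : ℕ := nth 0 dgTab t

/-- Multiplicity of the form `t` at the point `s`. -/
def mm (t s : ℕ) : ℕ := nth 0 (nth [] mmTab t) s

/-- The forms. -/
def BL (t : ℕ) : List (List ℕ) := decTot (dg t + 1) 0 (nth 0 bTab t)

/-- The forms as expressions. -/
def BE (t : ℕ) : Ex := tot (BL t) v0 v1 v2

/-- Lines and coordinates adapted to a point. -/
def k1 (s : ℕ) : ℕ := nth 0 k1Tab s
/-- Lines and coordinates adapted to a point. -/
def k2 (s : ℕ) : ℕ := nth 0 k2Tab s
/-- Lines and coordinates adapted to a point. -/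
def mi (s : ℕ) : ℕ := nth 0 miTab s
/-- Coordinates adapted to a node. -/
def ni (k : ℕ) : ℕ := nth 0 niTab k

/-- Expansion of the form `t` at the point `s`. -/
def TL (t s : ℕ) : List (List ℕ) :=
  decTot (dg t - mm t s + 1) (mm t s) (nth 0 (nth [] tTab t) s)

/-- Expansion of the form `t` at the node of the lines `k` and `nx k`. -/
def NL (t k : ℕ) : List (List ℕ) := decRows (dg t + 1) (nth 0 (nth [] nTab t) k)

/-- Check of an expansion. -/
def chkT (t s : ℕ) : Bool :=
  eqv 80 (BE t) (tot (TL t s) (lineE (k1 s)) (lineE (k2 s)) (vE (mi s)))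

/-- Check of an expansion. -/
def chkN (t k : ℕ) : Bool :=
  eqv 80 (BE t) (rows (NL t k) (lineE k) (lineE (nx k)) (vE (ni k)))

/-- All numbers below `n`. -/
def allBelow : ℕ → (ℕ → Bool) → Bool
  | 0, _ => true
  | n + 1, f => f n && allBelow n f

lemma allBelow_spec {n : ℕ} {f : ℕ → Bool} (h : allBelow n f = true) {i : ℕ} (hi : i < n) :
    f i = true := by
  induction n with
  | zero => omega
  | succ n ih =>
    rw [allBelow, Bool.and_eq_true] at h
    rcases Nat.lt_succ_iff_lt_or_eq.mp hi with h' | rfl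
    · exact ih h.2 h'
    · exact h.1

end Pool.Agent.H51Seshadri
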