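import Mathlib

/-!
Homogeneous polynomials in two and three variables: scaling, roots of binary forms,
dehomogenisation.
-/

namespace Pool.Agent.H51Seshadri
open MvPolynomial

section scale
variable {σ R A : Type*} [Fintype σ] [CommSemiring R] [CommSemiring A] [Algebra R A]

lemma sum_eq_of_hom {p : MvPolynomial σ R} {m : ℕ} (hp : p.IsHomogeneous m) {s : σ →₀ ℕ}
    (hs : s ∈ p.support) : ∑ i, s i = m := by
  have := hp (MvPolynomial.mem_support_iff.mp hs)
  rw [← this, Finsupp.weight_apply, Finsupp.sum_fintype _ _ (by simp)]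
  simp

lemma aeval_scale {p : MvPolynomial σ R} {m : ℕ} (hp : p.IsHomogeneous m) (c : A) (f : σ → A) :
    aeval (fun i => c * f i) p = c ^ m * aeval f p := by
  rw [aeval_def, aeval_def, eval₂_eq', eval₂_eq', Finset.mul_sum]
  refine Finset.sum_congr rfl fun s hs => ?_
  simp only [mul_pow, Finset.prod_mul_distrib]
  rw [Finset.prod_pow_eq_pow_sum, sum_eq_of_hom hp hs]
  ring

end scale

section binary
variable {F : Type*} [Field F]

/-- A root of a binary form gives a linear factor. -/
lemma root_dvd {p : MvPolynomial (Fin 2) F} {m : ℕ} (hp : p.IsHomogeneous m) {v : Fin 2 → F}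
    (hv : v ≠ 0) (h : MvPolynomial.eval v p = 0) :
    (C (v 1) * X 0 - C (v 0) * X 1 : MvPolynomial (Fin 2) F) ∣ p := by
  set l : MvPolynomial (Fin 2) F := C (v 1) * X 0 - C (v 0) * X 1 with hl
  rw [← Ideal.mem_span_singleton, ← Ideal.Quotient.eq_zero_iff_mem]
  set I := Ideal.span {l}
  have hmk : Ideal.Quotient.mk I p = aeval (fun i => Ideal.Quotient.mk I (X i)) p := by
    have : (Ideal.Quotient.mkₐ F I) = aeval (fun i => Ideal.Quotient.mk I (X i)) := by
      ext i; simp
    exact DFunLike.congr_fun this p
  have hrel : Ideal.Quotient.mk I (C (v 1)) * Ideal.Quotient.mk I (X 0) =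
      Ideal.Quotient.mk I (C (v 0)) * Ideal.Quotient.mk I (X 1) := by
    rw [← map_mul, ← map_mul, Ideal.Quotient.eq]
    exact Ideal.mem_span_singleton_self l
  have hc : ∃ c : MvPolynomial (Fin 2) F ⧸ I, ∀ i, Ideal.Quotient.mk I (X i) =
      c * algebraMap F _ (v i) := by
    have alg : ∀ a : F, algebraMap F (MvPolynomial (Fin 2) F ⧸ I) a =
        Ideal.Quotient.mk I (C a) := fun a => rfl
    have inv : ∀ a : F, a ≠ 0 → Ideal.Quotient.mk I (C a⁻¹) * Ideal.Quotient.mk I (C a) = 1 := by
      intro a ha
      rw [← map_mul, ← C_mul, inv_mul_cancel₀ ha, C_1, map_one]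
    by_cases h1 : v 1 = 0
    · have h0 : v 0 ≠ 0 := by
        intro h0
        apply hv
        funext i
        fin_cases i
        · exact h0
        · exact h1
      refine ⟨Ideal.Quotient.mk I (X 0) * Ideal.Quotient.mk I (C (v 0)⁻¹), ?_⟩
      intro i
      fin_cases i
      · change Ideal.Quotient.mk I (X 0) = _ * algebraMap F _ (v 0)
        rw [alg, mul_assoc, inv _ h0, mul_one]
      · change Ideal.Quotient.mk I (X 1) = _ * algebraMap F _ (v 1)
        rw [h1, map_zero, mul_zero]
        rw [h1, C_0, map_zero, zero_mul] at hrel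
        calc Ideal.Quotient.mk I (X 1) = Ideal.Quotient.mk I (C (v 0)⁻¹) *
              Ideal.Quotient.mk I (C (v 0)) * Ideal.Quotient.mk I (X 1) := by
                rw [inv _ h0, one_mul]
          _ = 0 := by rw [mul_assoc, ← hrel, mul_zero]
    · refine ⟨Ideal.Quotient.mk I (X 1) * Ideal.Quotient.mk I (C (v 1)⁻¹), ?_⟩
      intro i
      fin_cases i
      · change Ideal.Quotient.mk I (X 0) = _ * algebraMap F _ (v 0)
        rw [alg]
        calc Ideal.Quotient.mk I (X 0) = Ideal.Quotient.mk I (C (v 1)⁻¹) *
              Ideal.Quotient.mk I (C (v 1)) * Ideal.Quotient.mk I (X 0) := by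
                rw [inv _ h1, one_mul]
          _ = _ := by rw [mul_assoc, hrel]; ring
      · change Ideal.Quotient.mk I (X 1) = _ * algebraMap F _ (v 1)
        rw [alg, mul_assoc, inv _ h1, mul_one]
  obtain ⟨c, hc⟩ := hc
  rw [hmk, funext hc, aeval_scale hp]
  have : aeval (fun i => algebraMap F (MvPolynomial (Fin 2) F ⧸ I) (v i)) p =
      algebraMap F _ (MvPolynomial.eval v p) := by
    have h2 := MvPolynomial.aeval_algebraMap_apply (B := MvPolynomial (Fin 2) F ⧸ I) v p
    exact h2
  rw [this, h, map_zero, mul_zero]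

/-- The linear factor is not a unit. -/
lemma lin_not_unit {v : Fin 2 → F} : ¬ IsUnit (C (v 1) * X 0 - C (v 0) * X 1 :
    MvPolynomial (Fin 2) F) := by
  intro h
  have := h.map (MvPolynomial.eval (0 : Fin 2 → F))
  simp at this

/-- Dehomogenisation of binary forms. -/
noncomputable def dehom : MvPolynomial (Fin 2) F →ₐ[F] Polynomial F :=
  aeval ![Polynomial.X, 1]

lemma dehom_coeff {p : MvPolynomial (Fin 2) F} {m : ℕ} (hp : p.IsHomogeneous m) (i : ℕ) :
    (dehom p).coeff i = if i ≤ m then p.coeff (Finsupp.single 0 i + Finsupp.single 1 (m - i))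
      else 0 := by
  classical
  have h1 : dehom p = ∑ s ∈ p.support, Polynomial.monomial (s 0) (p.coeff s) := by
    rw [dehom, aeval_def, eval₂_eq']
    refine Finset.sum_congr rfl fun s _ => ?_
    simp [Fin.prod_univ_two, Polynomial.C_mul_X_pow_eq_monomial]
  rw [h1, Polynomial.finsetSum_coeff]
  have hs : ∀ s ∈ p.support, s 0 = i → s = Finsupp.single 0 i + Finsupp.single 1 (m - i) := by
    intro s hs h0
    have := sum_eq_of_hom hp hs
    rw [Fin.sum_univ_two] at this
    ext j
    fin_cases j
    · simp [h0]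
    · simp
      omega
  split_ifs with him
  · by_cases hsup : Finsupp.single 0 i + Finsupp.single 1 (m - i) ∈ p.support
    · rw [Finset.sum_eq_single _ _ (fun h => absurd hsup h)]
      · rw [Polynomial.coeff_monomial, if_pos (by simp)]
      · intro s hs' hne
        rw [Polynomial.coeff_monomial, if_neg]
        intro h0
        exact hne (hs s hs' h0)
    · rw [Finset.sum_eq_zero, notMem_support_iff.mp hsup]
      intro s hs'
      rw [Polynomial.coeff_monomial, if_neg]
      intro h0
      rw [hs s hs' h0] at hs'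
      exact hsup hs'
  · apply Finset.sum_eq_zero
    intro s hs'
    rw [Polynomial.coeff_monomial, if_neg]
    intro h0
    have := sum_eq_of_hom hp hs'
    rw [Fin.sum_univ_two] at this
    omega

lemma dehom_natDegree_le {p : MvPolynomial (Fin 2) F} {m : ℕ} (hp : p.IsHomogeneous m) :
    (dehom p).natDegree ≤ m := by
  rw [Polynomial.natDegree_le_iff_coeff_eq_zero]
  intro i hi
  rw [dehom_coeff hp, if_neg (by omega)]

lemma dehom_ne_zero {p : MvPolynomial (Fin 2) F} {m : ℕ} (hp : p.IsHomogeneous m) (h0 : p ≠ 0) :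
    dehom p ≠ 0 := by
  intro h
  apply h0
  ext s
  rw [coeff_zero]
  by_contra hne
  have hs := MvPolynomial.mem_support_iff.mpr hne
  have h1 := sum_eq_of_hom hp hs
  rw [Fin.sum_univ_two] at h1
  have h2 := dehom_coeff hp (s 0)
  rw [h, Polynomial.coeff_zero, if_pos (by omega)] at h2
  apply hne
  convert h2.symm using 2
  ext j
  fin_cases j
  · simp
  · simp
    omega

lemma dehom_eval (p : MvPolynomial (Fin 2) F) (t : F) :
    (dehom p).eval t = MvPolynomial.eval ![t, 1] p := by
  have : ((Polynomial.aeval t).comp dehom : MvPolynomial (Fin 2) F →ₐ[F] F) =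
      MvPolynomial.aeval ![t, 1] := by
    ext i
    fin_cases i <;> simp [dehom]
  have := DFunLike.congr_fun this p
  simpa [MvPolynomial.coe_aeval_eq_eval] using this

/-- Value at infinity. -/
lemma dehom_coeff_top {p : MvPolynomial (Fin 2) F} {m : ℕ} (hp : p.IsHomogeneous m) :
    (dehom p).coeff m = MvPolynomial.eval ![1, 0] p := by
  classical
  rw [dehom_coeff hp, if_pos le_rfl, Nat.sub_self, Finsupp.single_zero, add_zero, eval_eq']
  by_cases hs : Finsupp.single 0 m ∈ p.support
  · rw [Finset.sum_eq_single (Finsupp.single 0 m) _ (fun h => absurd hs h)]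
    · simp [Fin.prod_univ_two]
    · intro s hs' hne
      have h1 := sum_eq_of_hom hp hs'
      rw [Fin.sum_univ_two] at h1
      have : s 1 ≠ 0 := by
        intro h0
        apply hne
        ext j
        fin_cases j
        · simp; omega
        · simp [h0]
      simp [Fin.prod_univ_two, this]
  · rw [notMem_support_iff.mp hs]
    symm
    apply Finset.sum_eq_zero
    intro s hs'
    have h1 := sum_eq_of_hom hp hs'
    rw [Fin.sum_univ_two] at h1
    have : s 1 ≠ 0 := by
      intro h0
      apply hs
      have : s = Finsupp.single 0 m := by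
        ext j
        fin_cases j
        · simp; omega
        · simp [h0]
      rwa [← this]
    simp [Fin.prod_univ_two, this]

/-- Relatively prime binary forms of the same degree have no common zero. -/
lemma no_common_zero {p q : MvPolynomial (Fin 2) F} {m m' : ℕ} (hp : p.IsHomogeneous m)
    (hq : q.IsHomogeneous m') (h : IsRelPrime p q) {v : Fin 2 → F} (hv : v ≠ 0)
    (h1 : MvPolynomial.eval v p = 0) (h2 : MvPolynomial.eval v q = 0) : False :=
  lin_not_unit (h (root_dvd hp hv h1) (root_dvd hq hv h2))

lemma dehom_coprime [IsAlgClosed F] {p q : MvPolynomial (Fin 2) F} {m m' : ℕ} (hp : p.IsHomogeneous m)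
    (hq : q.IsHomogeneous m') (h : IsRelPrime p q) : IsCoprime (dehom p) (dehom q) := by
  rw [Polynomial.isCoprime_iff_aeval_ne_zero_of_isAlgClosed F F]
  intro t
  by_contra hcon
  push Not at hcon
  obtain ⟨h1, h2⟩ := hcon
  rw [Polynomial.coe_aeval_eq_eval] at h1 h2
  rw [dehom_eval] at h1 h2
  refine no_common_zero hp hq h (v := ![t, 1]) ?_ h1 h2
  intro h0
  have := congrFun h0 1
  simp at this

lemma dehom_max {p q : MvPolynomial (Fin 2) F} {m : ℕ} (hp : p.IsHomogeneous m)
    (hq : q.IsHomogeneous m) (h : IsRelPrime p q) :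
    max (dehom p).natDegree (dehom q).natDegree = m := by
  apply le_antisymm
  · exact max_le (dehom_natDegree_le hp) (dehom_natDegree_le hq)
  · by_contra hcon
    rw [not_le, max_lt_iff] at hcon
    have h1 := Polynomial.coeff_eq_zero_of_natDegree_lt hcon.1
    have h2 := Polynomial.coeff_eq_zero_of_natDegree_lt hcon.2
    rw [dehom_coeff_top hp] at h1
    rw [dehom_coeff_top hq] at h2
    refine no_common_zero hp hq h (v := ![1, 0]) ?_ h1 h2
    intro h0
    have := congrFun h0 0
    simp at this

end binary

end Pool.Agent.H51Seshadri
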