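import Pool.Agent.H51Seshadri.FF1

/-!
Dehomogenisation of ternary forms preserves irreducibility.
-/

namespace Pool.Agent.H51Seshadri
open MvPolynomial

section
variable {F : Type*} [Field F]

/-- Dehomogenisation of ternary forms with respect to the second variable. -/
noncomputable def theta : MvPolynomial (Fin 3) F →ₐ[F] Polynomial (Polynomial F) :=
  aeval ![Polynomial.C Polynomial.X, 1, Polynomial.X]

/-- The exponent `(i, m - i - l, l)`. -/
noncomputable def expo (m i l : ℕ) : Fin 3 →₀ ℕ :=
  Finsupp.single 0 i + Finsupp.single 1 (m - i - l) + Finsupp.single 2 l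

lemma eq_expo {s : Fin 3 →₀ ℕ} {m : ℕ} (h : ∑ i, s i = m) : s = expo m (s 0) (s 2) := by
  rw [Fin.sum_univ_three] at h
  ext j
  fin_cases j
  · simp [expo]
  · simp [expo]; omega
  · simp [expo]

lemma expo_zero (m i l : ℕ) : expo m i l 0 = i := by simp [expo]

lemma expo_two (m i l : ℕ) : expo m i l 2 = l := by simp [expo]

lemma theta_coeff {G : MvPolynomial (Fin 3) F} {m : ℕ} (hG : G.IsHomogeneous m) (i l : ℕ) :
    ((theta G).coeff l).coeff i = if i + l ≤ m then G.coeff (expo m i l) else 0 := by
  classical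
  have h1 : theta G = ∑ s ∈ G.support,
      Polynomial.monomial (s 2) (Polynomial.monomial (s 0) (G.coeff s)) := by
    rw [theta, aeval_def, eval₂_eq']
    refine Finset.sum_congr rfl fun s _ => ?_
    simp only [Fin.prod_univ_three, Matrix.cons_val_zero, Matrix.cons_val_one,
      Matrix.cons_val_two, Matrix.tail_cons, Matrix.head_cons, one_pow, mul_one]
    rw [← Polynomial.C_mul_X_pow_eq_monomial, ← Polynomial.C_mul_X_pow_eq_monomial, map_mul,
      map_pow, mul_assoc]
    rfl
  rw [h1, Polynomial.finsetSum_coeff, Polynomial.finsetSum_coeff]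
  have hs : ∀ s ∈ G.support, s 0 = i → s 2 = l → s = expo m i l := by
    intro s hs h0 h2
    rw [← h0, ← h2]
    exact eq_expo (sum_eq_of_hom hG hs)
  have ht : ∀ s ∈ G.support, s ≠ expo m i l →
      ((Polynomial.monomial (s 2) (Polynomial.monomial (s 0) (G.coeff s))).coeff l).coeff i = 0 := by
    intro s hs' hne
    rw [Polynomial.coeff_monomial]
    split_ifs with h2
    · rw [Polynomial.coeff_monomial, if_neg]
      intro h0
      exact hne (hs s hs' h0 h2)
    · simp
  split_ifs with him
  · by_cases hsup : expo m i l ∈ G.support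
    · rw [Finset.sum_eq_single _ ht (fun h => absurd hsup h)]
      rw [Polynomial.coeff_monomial, if_pos (expo_two _ _ _), Polynomial.coeff_monomial,
        if_pos (expo_zero _ _ _)]
    · rw [Finset.sum_eq_zero, notMem_support_iff.mp hsup]
      intro s hs'
      apply ht s hs'
      rintro rfl
      exact hsup hs'
  · apply Finset.sum_eq_zero
    intro s hs'
    apply ht s hs'
    intro h0
    have h1 := sum_eq_of_hom hG hs'
    rw [h0, Fin.sum_univ_three, expo_zero, expo_two] at h1
    omega

lemma theta_inj {G H : MvPolynomial (Fin 3) F} {m : ℕ} (hG : G.IsHomogeneous m)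
    (hH : H.IsHomogeneous m) (h : theta G = theta H) : G = H := by
  have key : ∀ s : Fin 3 →₀ ℕ, ∑ i, s i = m → G.coeff s = H.coeff s := by
    intro s hs
    have h1 := theta_coeff hG (s 0) (s 2)
    have h2 := theta_coeff hH (s 0) (s 2)
    have hle : s 0 + s 2 ≤ m := by rw [Fin.sum_univ_three] at hs; omega
    rw [if_pos hle, ← eq_expo hs] at h1 h2
    rw [← h1, ← h2, h]
  ext s
  by_cases hs : ∑ i, s i = m
  · exact key s hs
  · rw [notMem_support_iff.mp (fun h0 => hs (sum_eq_of_hom hG h0)),
      notMem_support_iff.mp (fun h0 => hs (sum_eq_of_hom hH h0))]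

lemma theta_surj (A : Polynomial (Polynomial F)) : ∃ G, theta G = A := by
  have hC : ∀ a : Polynomial F, theta (Polynomial.aeval (X 0) a) = Polynomial.C a := by
    intro a
    rw [← Polynomial.aeval_algHom_apply]
    have : theta (X 0 : MvPolynomial (Fin 3) F) = Polynomial.C Polynomial.X := by simp [theta]
    rw [this]
    have h2 : (Polynomial.aeval (Polynomial.C Polynomial.X : Polynomial (Polynomial F)) :
        Polynomial F →ₐ[F] Polynomial (Polynomial F)) =
        (IsScalarTower.toAlgHom F (Polynomial F) (Polynomial (Polynomial F))) := by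
      ext
      simp
    rw [h2]
    rfl
  induction A using Polynomial.induction_on' with
  | add p q hp hq =>
    obtain ⟨G, hG⟩ := hp
    obtain ⟨H, hH⟩ := hq
    exact ⟨G + H, by rw [map_add, hG, hH]⟩
  | monomial n a =>
    refine ⟨Polynomial.aeval (X 0) a * X 2 ^ n, ?_⟩
    rw [map_mul, hC, map_pow]
    have : theta (X 2 : MvPolynomial (Fin 3) F) = Polynomial.X := by simp [theta]
    rw [this, Polynomial.C_mul_X_pow_eq_monomial]

lemma theta_X1 : theta (X 1 : MvPolynomial (Fin 3) F) = 1 := by simp [theta]

lemma theta_lift (A : Polynomial (Polynomial F)) : ∃ (m : ℕ) (G : MvPolynomial (Fin 3) F),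
    G.IsHomogeneous m ∧ theta G = A := by
  obtain ⟨G, hG⟩ := theta_surj A
  refine ⟨G.totalDegree, ∑ i ∈ Finset.range (G.totalDegree + 1),
    X 1 ^ (G.totalDegree - i) * homogeneousComponent i G, ?_, ?_⟩
  · apply IsHomogeneous.sum
    intro i hi
    rw [Finset.mem_range] at hi
    have h1 := (isHomogeneous_X_pow (R := F) (1 : Fin 3) (G.totalDegree - i)).mul
      (homogeneousComponent_isHomogeneous i G)
    rwa [Nat.sub_add_cancel (by omega)] at h1
  · rw [map_sum]
    simp only [map_mul, map_pow, theta_X1, one_pow, one_mul]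
    rw [← map_sum, sum_homogeneousComponent, hG]

lemma theta_irreducible {G : MvPolynomial (Fin 3) F} {m : ℕ} (hG : G.IsHomogeneous m)
    (hirr : Irreducible G) (h1 : ¬ G ∣ X 1) : Irreducible (theta G) := by
  have hprime : Prime G := hirr.prime
  have hX1 : (X 1 : MvPolynomial (Fin 3) F).IsHomogeneous 1 := isHomogeneous_X _ _
  have hX1p : ∀ k, (X 1 ^ k : MvPolynomial (Fin 3) F).IsHomogeneous k :=
    fun k => isHomogeneous_X_pow _ _
  have key : ∀ A B : Polynomial (Polynomial F), theta G = A * B →
      theta G ∣ A ∨ theta G ∣ B := by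
    intro A B hAB
    obtain ⟨α, A', hA', hA⟩ := theta_lift A
    obtain ⟨β, B', hB', hB⟩ := theta_lift B
    have e1 : X 1 ^ m * (A' * B') = X 1 ^ (α + β) * G := by
      apply theta_inj ((hX1p m).mul (hA'.mul hB'))
      · have := (hX1p (α + β)).mul hG
        rwa [add_comm (α + β) m] at this
      · simp only [map_mul, map_pow, theta_X1, one_pow, one_mul, hA, hB, hAB]
    have e2 : G ∣ X 1 ^ m * (A' * B') := e1 ▸ dvd_mul_left _ _
    rcases hprime.dvd_or_dvd e2 with h | h
    · exact absurd (hprime.dvd_of_dvd_pow h) h1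
    · rcases hprime.dvd_or_dvd h with h | h
      · left; rw [← hA]; exact map_dvd theta h
      · right; rw [← hB]; exact map_dvd theta h
  have hne : theta G ≠ 0 := by
    intro h0
    apply hprime.ne_zero
    exact theta_inj hG (isHomogeneous_zero _ _ m) (by rw [h0, map_zero])
  constructor
  · intro hu
    obtain ⟨a, ha, ha'⟩ := Polynomial.isUnit_iff.mp hu
    obtain ⟨c, hc, hc'⟩ := Polynomial.isUnit_iff.mp ha
    have : G = X 1 ^ m * C c := by
      apply theta_inj hG
      · have := (hX1p m).mul (isHomogeneous_C (Fin 3) c)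
        rwa [add_zero] at this
      · simp only [map_mul, map_pow, theta_X1, one_pow, one_mul]
        rw [← ha', ← hc', ← MvPolynomial.algebraMap_eq, AlgHom.commutes]
        rfl
    have hd : G ∣ X 1 ^ m := by
      refine ⟨C c⁻¹, ?_⟩
      rw [this, mul_assoc, ← C_mul, mul_inv_cancel₀ hc.ne_zero, C_1, mul_one]
    exact h1 (hprime.dvd_of_dvd_pow hd)
  · intro A B hAB
    have hA0 : A ≠ 0 := by rintro rfl; exact hne (by rw [hAB, zero_mul])
    have hB0 : B ≠ 0 := by rintro rfl; exact hne (by rw [hAB, mul_zero])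
    rcases key A B hAB with ⟨c, hc⟩ | ⟨c, hc⟩
    · right
      rw [hAB] at hc
      apply IsUnit.of_mul_eq_one c
      apply mul_left_cancel₀ hA0
      rw [mul_one, ← mul_assoc]
      exact hc.symm
    · left
      rw [hAB] at hc
      apply IsUnit.of_mul_eq_one c
      apply mul_left_cancel₀ hB0
      rw [mul_one]
      calc B * (A * c) = A * B * c := by ring
        _ = B := hc.symm

lemma theta_natDegree {G : MvPolynomial (Fin 3) F} {m : ℕ} (hG : G.IsHomogeneous m)
    (h0 : G ≠ 0) : (theta G).natDegree = G.degreeOf 2 := by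
  classical
  apply le_antisymm
  · rw [Polynomial.natDegree_le_iff_coeff_eq_zero]
    intro l hl
    ext i
    rw [theta_coeff hG, Polynomial.coeff_zero]
    split_ifs with h
    · by_contra hne
      have := monomial_le_degreeOf 2 (MvPolynomial.mem_support_iff.mpr hne)
      rw [expo_two] at this
      omega
    · rfl
  · have hsup : G.support.Nonempty := by
      rw [Finset.nonempty_iff_ne_empty]
      intro h
      exact h0 (MvPolynomial.support_eq_empty.mp h)
    obtain ⟨s, hs, hs'⟩ := Finset.exists_mem_eq_sup _ hsup (fun s => s 2)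
    rw [degreeOf_eq_sup, hs']
    apply Polynomial.le_natDegree_of_ne_zero
    intro hz
    have h1 := theta_coeff hG (s 0) (s 2)
    have h2 := sum_eq_of_hom hG hs
    have hle : s 0 + s 2 ≤ m := by rw [Fin.sum_univ_three] at h2; omega
    rw [hz, Polynomial.coeff_zero, if_pos hle, ← eq_expo h2] at h1
    exact (MvPolynomial.mem_support_iff.mp hs) h1.symm

end

end Pool.Agent.H51Seshadri
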