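import Pool.Agent.H51Seshadri.Facts0
import Pool.Agent.H51Seshadri.Chk1
import Pool.Agent.H51Seshadri.Chk4
import Pool.Agent.H51Seshadri.Chk2a
import Pool.Agent.H51Seshadri.Chk2b

/-!
The finite checks, read as identities in commutative rings of characteristic 11.
-/

namespace Pool.Agent.H51Seshadri
open Ex

section Defs
variable {A : Type*} [CommRing A]

/-- Value of the linear form of line `k`. -/
def ell (k : ℕ) (g : Fin 3 → A) : A :=
  (lc k 0 : A) * g 0 + (lc k 1 : A) * g 1 + (lc k 2 : A) * g 2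

/-- Value of the form `t`. -/
def Bv (t : ℕ) (g : Fin 3 → A) : A := evTot (g 0) (g 1) (g 2) (BL t)

/-- Coordinates, indexed by naturals. -/
def gi (g : Fin 3 → A) : ℕ → A
  | 0 => g 0
  | 1 => g 1
  | _ => g 2

/-- The points on a line. -/
def dd (k j : ℕ) : ℕ := nth 0 (Dl k) j

/-- The product for the line `k`. -/
def rhs (k : ℕ) (g : Fin 3 → A) : A :=
  (nth 0 ckTab k : A) * (ell k g * (ell (nx (nx k)) g * ell (nx (nx k)) g)) *
    ∏ j : Fin 4, Bv (dd k j) g

/-- The partial Frobenius map. -/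
def Phi (g : Fin 3 → A) : Fin 3 → A := ![rhs 2 g, rhs 1 g, rhs 0 g]

end Defs

section Facts
variable {A : Type*} [CommRing A]

lemma lineE_eval (k : ℕ) (g : Fin 3 → A) : (lineE k).eval (g 0) (g 1) (g 2) = ell k g := rfl

lemma BE_eval (t : ℕ) (g : Fin 3 → A) : (BE t).eval (g 0) (g 1) (g 2) = Bv t g := rfl

lemma vE_eval (i : ℕ) (g : Fin 3 → A) : (vE i).eval (g 0) (g 1) (g 2) = gi g i := by
  match i with
  | 0 => rfl
  | 1 => rfl
  | n + 2 => rfl

lemma prodD_eval (k : ℕ) (f : ℕ → Ex) (x y z : A) :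
    (prodD k f).eval x y z = ∏ j : Fin 4, (f (dd k j)).eval x y z := by
  simp [prodD, Ex.eval, Fin.prod_univ_four, dd, mul_assoc]

lemma prodE_eval (k : ℕ) (g : Fin 3 → A) : (prodE k).eval (g 0) (g 1) (g 2) = rhs k g := by
  simp only [prodE, Ex.eval, prodD_eval, lineE_eval, BE_eval, rhs]

lemma pw_eval (e : Ex) (n : ℕ) (x y z : A) : (pw e n).eval x y z = (e.eval x y z) ^ n := by
  induction n with
  | zero => simp [pw, Ex.eval]
  | succ n ih => simp [pw, Ex.eval, ih, pow_succ]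

lemma lineProd_eval (n : ℕ) (g : Fin 3 → A) :
    (lineProd n).eval (g 0) (g 1) (g 2) = ∏ k ∈ Finset.range n, ell k g := by
  induction n with
  | zero => simp [lineProd, Ex.eval]
  | succ n ih => simp [lineProd, Ex.eval, ih, Finset.prod_range_succ, lineE_eval]

lemma chk1_all : ∀ k < 15, chk1 k = true := by
  intro k hk
  interval_cases k
  exacts [b1_0, b1_1, b1_2, b1_3, b1_4, b1_5, b1_6, b1_7, b1_8, b1_9, b1_10, b1_11, b1_12, b1_13,
    b1_14]

lemma chk4_all : ∀ k < 16, chk4 k = true := by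
  intro k hk
  interval_cases k
  exacts [b4_0, b4_1, b4_2, b4_3, b4_4, b4_5, b4_6, b4_7, b4_8, b4_9, b4_10, b4_11, b4_12, b4_13,
    b4_14, b4_15]

lemma chk0_all : ∀ k < 15, chk0 k = true := by
  intro k hk
  interval_cases k
  exacts [b0_0, b0_1, b0_2, b0_3, b0_4, b0_5, b0_6, b0_7, b0_8, b0_9, b0_10, b0_11, b0_12, b0_13,
    b0_14]

variable [CharP A 11]

/-- The product identities. -/
theorem fact1 {k : ℕ} (hk : k < 15) (g : Fin 3 → A) : ell k (Phi g) = rhs k g := by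
  have h := eqv_sound (chk1_all k hk) (g 0) (g 1) (g 2)
  simp only [Ex.eval, prodE_eval] at h
  rw [← h]
  simp [ell, Phi]

theorem factT {t s : ℕ} (ht : t < 16) (hs : s < 16) (g : Fin 3 → A) :
    Bv t g = evTot (ell (k1 s) g) (ell (k2 s) g) (gi g (mi s)) (TL t s) := by
  have h := eqv_sound (chkT_all ht hs) (g 0) (g 1) (g 2)
  simp only [Ex.eval, lineE_eval, vE_eval, BE_eval] at h
  exact h

theorem factN {t k : ℕ} (ht : t < 16) (hk : k < 15) (g : Fin 3 → A) :
    Bv t g = evRows (ell k g) (ell (nx k) g) (gi g (ni k)) (NL t k) := by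
  have h := eqv_sound (chkN_all ht hk) (g 0) (g 1) (g 2)
  simp only [Ex.eval, lineE_eval, vE_eval, BE_eval] at h
  exact h

/-- Leading form of the form `t` at the point `s`. -/
def leadL (s t : ℕ) : List ℕ := digs (mm t s + 1) (nth 0 (nth [] tTab t) s)

theorem fact4 {s : ℕ} (hs : s < 16) (w1 w2 : A) : ∃ u0 u1 u2 : A, ∃ a b : ℕ,
    w1 ^ a * w2 ^ b = u0 * ∏ j : Fin 4, evBin w1 w2 (leadL s (dd 2 j)) +
      u1 * ∏ j : Fin 4, evBin w1 w2 (leadL s (dd 1 j)) +
      u2 * ∏ j : Fin 4, evBin w1 w2 (leadL s (dd 0 j)) := by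
  have h := eqv_sound (chk4_all s hs) w1 w2 0
  simp only [Ex.eval, pw_eval, prodD_eval] at h
  exact ⟨_, _, _, _, _, h⟩

lemma L1_eval (g : Fin 3 → A) :
    L1E.eval (g 0) (g 1) (g 2) = ∏ k ∈ Finset.range 15, ell k g := by
  rw [← lineProd_eval]
  exact (eqv_sound bL1 (g 0) (g 1) (g 2)).symm

lemma L2_eval (g : Fin 3 → A) :
    L2E.eval (g 0) (g 1) (g 2) = (∏ k ∈ Finset.range 15, ell k g) ^ 2 := by
  have := (eqv_sound bL2 (g 0) (g 1) (g 2)).symm
  rw [this]
  simp only [Ex.eval, L1_eval, sq]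

lemma L3_eval (g : Fin 3 → A) :
    L3E.eval (g 0) (g 1) (g 2) = (∏ k ∈ Finset.range 15, ell k g) ^ 3 := by
  have := (eqv_sound bL3 (g 0) (g 1) (g 2)).symm
  rw [this]
  simp only [Ex.eval, L1_eval, L2_eval]
  ring

/-- The certificate statement for a pair. -/
def PairP (x y : ℕ) (g : Fin 3 → A) : Prop :=
  ∃ (n : ℕ) (u v : A), (∏ k ∈ Finset.range 15, ell k g) ^ n = u * Bv x g + v * Bv y g

lemma pair2 {x y : ℕ} {U V : Ex} (h : eqv 40 L2E (add (mul U (BE x)) (mul V (BE y))) = true)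
    (g : Fin 3 → A) : PairP x y g := by
  have h := eqv_sound h (g 0) (g 1) (g 2)
  simp only [L2_eval, Ex.eval, BE_eval] at h
  exact ⟨2, _, _, h⟩

lemma pair3 {x y : ℕ} {U V : Ex} (h : eqv 40 L3E (add (mul U (BE x)) (mul V (BE y))) = true)
    (g : Fin 3 → A) : PairP x y g := by
  have h := eqv_sound h (g 0) (g 1) (g 2)
  simp only [L3_eval, Ex.eval, BE_eval] at h
  exact ⟨3, _, _, h⟩

theorem fact2 (g : Fin 3 → A) (a b c : Fin 4) :
    PairP (dd 2 a) (dd 1 b) g ∨ PairP (dd 1 b) (dd 0 c) g ∨ PairP (dd 2 a) (dd 0 c) g := by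
  have p1 : ∀ a b : Fin 4, (a.val < 2 ∧ b.val < 2) ∨ (2 ≤ a.val ∧ 2 ≤ b.val) →
      PairP (dd 2 a) (dd 1 b) g := by
    intro a b h
    fin_cases a <;> fin_cases b <;> simp at h
    exacts [pair2 b2_0_2 g, pair2 b2_0_3 g, pair2 b2_1_2 g, pair2 b2_1_3 g,
      pair3 b2_6_8 g, pair3 b2_6_9 g, pair3 b2_7_8 g, pair3 b2_7_9 g]
  have p2 : ∀ a b : Fin 4, (a.val < 2 ∧ b.val < 2) ∨ (2 ≤ a.val ∧ 2 ≤ b.val) →
      PairP (dd 1 a) (dd 0 b) g := by
    intro a b h
    fin_cases a <;> fin_cases b <;> simp at h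
    exacts [pair2 b2_2_4 g, pair2 b2_2_5 g, pair2 b2_3_4 g, pair2 b2_3_5 g,
      pair3 b2_8_12 g, pair3 b2_8_13 g, pair3 b2_9_12 g, pair3 b2_9_13 g]
  have p3 : ∀ a b : Fin 4, (a.val < 2 ∧ b.val < 2) ∨ (2 ≤ a.val ∧ 2 ≤ b.val) →
      PairP (dd 2 a) (dd 0 b) g := by
    intro a b h
    fin_cases a <;> fin_cases b <;> simp at h
    exacts [pair2 b2_0_4 g, pair2 b2_0_5 g, pair2 b2_1_4 g, pair2 b2_1_5 g,
      pair3 b2_6_12 g, pair3 b2_6_13 g, pair3 b2_7_12 g, pair3 b2_7_13 g]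
  rcases lt_or_ge a.val 2 with ha | ha <;> rcases lt_or_ge b.val 2 with hb | hb <;>
    rcases lt_or_ge c.val 2 with hc | hc
  · exact Or.inl (p1 a b (Or.inl ⟨ha, hb⟩))
  · exact Or.inl (p1 a b (Or.inl ⟨ha, hb⟩))
  · exact Or.inr (Or.inr (p3 a c (Or.inl ⟨ha, hc⟩)))
  · exact Or.inr (Or.inl (p2 b c (Or.inr ⟨hb, hc⟩)))
  · exact Or.inr (Or.inl (p2 b c (Or.inl ⟨hb, hc⟩)))
  · exact Or.inr (Or.inr (p3 a c (Or.inr ⟨ha, hc⟩)))
  · exact Or.inl (p1 a b (Or.inr ⟨ha, hb⟩))
  · exact Or.inl (p1 a b (Or.inr ⟨ha, hb⟩))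

/-! Expansion at a point. -/

omit [CharP A 11] in
lemma evBin_scale (e a b : A) (l : List ℕ) :
    evBin (e * a) (e * b) l = e ^ (l.length - 1) * evBin a b l := by
  induction l with
  | nil => simp [evBin]
  | cons c l ih =>
    simp only [evBin, ih, List.length_cons, Nat.add_sub_cancel]
    cases l with
    | nil => simp [evBin]
    | cons c' l' =>
      simp only [List.length_cons, Nat.add_sub_cancel]
      ring

lemma digs_length (n N : ℕ) : (digs n N).length = n := by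
  induction n generalizing N with
  | zero => rfl
  | succ n ih => rw [digs, force_eq]; simp [ih]

omit [CharP A 11] in
lemma evTot_dvd (e a b Z : A) (n t N : ℕ) :
    e ^ t ∣ evTot (e * a) (e * b) Z (decTot n t N) := by
  induction n generalizing t N with
  | zero => simp [decTot, evTot]
  | succ n ih =>
    rw [decTot, force_eq, evTot, evBin_scale, digs_length, Nat.add_sub_cancel]
    apply dvd_add
    · exact Dvd.intro _ (by rw [mul_assoc])
    · exact (pow_dvd_pow e (Nat.le_succ t)).trans (ih (t + 1) _)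

omit [CharP A 11] in
lemma evTot_lead (e a b Z : A) (n t N : ℕ) : ∃ r : A,
    evTot (e * a) (e * b) Z (decTot (n + 1) t N) =
      e ^ t * (evBin a b (digs (t + 1) N) * Z ^ n + e * r) := by
  rw [decTot, force_eq, evTot, evBin_scale, digs_length, Nat.add_sub_cancel]
  obtain ⟨r, hr⟩ := evTot_dvd e a b Z n (t + 1) (N.div (Nat.pow 16 (t + 1)))
  refine ⟨r, ?_⟩
  have hl : ∀ n t N, (decTot n t N).length = n := by
    intro n
    induction n with
    | zero => intro t N; rfl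
    | succ n ih => intro t N; rw [decTot, force_eq]; simp [ih]
  rw [hr, hl]
  ring

theorem factT' {t s : ℕ} (ht : t < 16) (hs : s < 16) (g : Fin 3 → A) {e w1 w2 : A}
    (h1 : ell (k1 s) g = e * w1) (h2 : ell (k2 s) g = e * w2) : ∃ r : A, ∃ n : ℕ,
    Bv t g = e ^ mm t s * (evBin w1 w2 (leadL s t) * gi g (mi s) ^ n + e * r) := by
  rw [factT ht hs, h1, h2, TL]
  obtain ⟨r, hr⟩ := evTot_lead e w1 w2 (gi g (mi s)) (dg t - mm t s) (mm t s)
    (nth 0 (nth [] tTab t) s)
  exact ⟨r, _, hr⟩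

/-! Expansion at a node. -/

/-- Shape of the expansion at a node, on the curve. -/
def shapeA (L : List (List ℕ)) : Bool :=
  match L with
  | (a0 :: a1 :: b :: _) :: (al :: _) :: _ =>
      Nat.beq a0 0 && Nat.beq a1 0 && !(Nat.beq (b % 11) 0) && !(Nat.beq (al % 11) 0)
  | _ => false

/-- Shape of the expansion at a node, off the curve. -/
def shapeB (L : List (List ℕ)) : Bool :=
  match L with
  | (a0 :: _) :: _ => !(Nat.beq (a0 % 11) 0)
  | _ => false

/-- Whether the point `t` is on the line `k`. -/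
def onL (t k : ℕ) : Bool := (Dl k).contains t

/-- Check of the shapes. -/
def chkS (t k : ℕ) : Bool := if onL t (nx k) then shapeA (NL t k) else shapeB (NL t k)

lemma chkS_all : allBelow 16 (fun t => allBelow 15 (fun k => chkS t k)) = true := by
  decide +kernel

omit [CharP A 11] in
lemma beq_false {a : ℕ} (h : (!(Nat.beq a 0)) = true) : a ≠ 0 := by
  intro h0
  subst h0
  exact absurd h (by decide)

theorem factN1 {t k : ℕ} (ht : t < 16) (hk : k < 15) (h : onL t (nx k) = true) (g : Fin 3 → A) :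
    ∃ (α β m n : ℕ) (r1 r2 r3 : A), α % 11 ≠ 0 ∧ β % 11 ≠ 0 ∧
      Bv t g = ell k g * ((α : A) * gi g (ni k) ^ m + ell (nx k) g * r1 + ell k g * r2) +
        ell (nx k) g ^ 2 * ((β : A) * gi g (ni k) ^ n + ell (nx k) g * r3) := by
  have hs : chkS t k = true := allBelow_spec (allBelow_spec chkS_all ht) hk
  rw [chkS, if_pos h] at hs
  rw [factN ht hk]
  unfold shapeA at hs
  split at hs
  · rename_i a0 a1 b r al r' L' hL
    simp only [Bool.and_eq_true] at hs
    obtain ⟨⟨⟨h0, h1⟩, hb⟩, hal⟩ := hs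
    have h0 := Nat.eq_of_beq_eq_true h0
    have h1 := Nat.eq_of_beq_eq_true h1
    rw [hL, h0, h1]
    refine ⟨al, b, r'.length, r.length, evBin (ell (nx k) g) (gi g (ni k)) r',
      evRows (ell k g) (ell (nx k) g) (gi g (ni k)) L',
      evBin (ell (nx k) g) (gi g (ni k)) r, beq_false hal, beq_false hb, ?_⟩
    simp only [evRows, evBin, List.length_cons]
    push_cast
    ring
  · exact absurd hs (by simp)

theorem factN2 {t k : ℕ} (ht : t < 16) (hk : k < 15) (h : onL t (nx k) = false) (g : Fin 3 → A) :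
    ∃ (α m : ℕ) (r1 r2 : A), α % 11 ≠ 0 ∧
      Bv t g = (α : A) * gi g (ni k) ^ m + ell (nx k) g * r1 + ell k g * r2 := by
  have hs : chkS t k = true := allBelow_spec (allBelow_spec chkS_all ht) hk
  rw [chkS, if_neg (by rw [h]; simp)] at hs
  rw [factN ht hk]
  unfold shapeB at hs
  split at hs
  · rename_i a0 r L' hL
    rw [hL]
    refine ⟨a0, r.length, evBin (ell (nx k) g) (gi g (ni k)) r,
      evRows (ell k g) (ell (nx k) g) (gi g (ni k)) L', beq_false hs, ?_⟩
    simp only [evRows, evBin]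
  · exact absurd hs (by simp)

end Facts

/-! The starting curve. -/

section Start
variable {A : Type*} [CommRing A] [CharP A 11]

/-- The starting parametrisation. -/
def g0 (u v : A) : Fin 3 → A :=
  ![evBin u v (nth [] g0Tab 0), evBin u v (nth [] g0Tab 1), evBin u v (nth [] g0Tab 2)]

/-- Starting binary forms. -/
def e0 (u v : A) (s : ℕ) : A := evBin u v (nth [] e0Tab s)

/-- Linear forms at the cusps. -/
def lamv (u v : A) (i : ℕ) : A := evBin u v (nth [] lamTab i)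

theorem fact0 {k : ℕ} (hk : k < 15) (u v : A) :
    ell k (g0 u v) = (nth 0 c0Tab k : A) * ((∏ j : Fin 4, e0 u v (dd k j)) *
      ∏ i : Fin 3, lamv u v i ^ ex 1 2 k i 0) := by
  have h := eqv_sound (chk0_all k hk) u v 0
  simp only [Ex.eval, pw_eval, prodD_eval, g0E, e0E, lamE] at h
  simp only [ell, g0, Matrix.cons_val_zero, Matrix.cons_val_one, Matrix.cons_val_two,
    Matrix.tail_cons, Matrix.head_cons, h, Fin.prod_univ_three, e0, lamv]
  rfl

theorem fact00 (u v : A) : (∃ r0 r1 r2 : A, u ^ 5 = r0 * g0 u v 0 + r1 * g0 u v 1 + r2 * g0 u v 2) ∧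
    (∃ r0 r1 r2 : A, v ^ 5 = r0 * g0 u v 0 + r1 * g0 u v 1 + r2 * g0 u v 2) := by
  have h := eqv_sound b00_0 u v 0
  have h' := eqv_sound b00_1 u v 0
  simp only [Ex.eval, pw_eval, g0E] at h h'
  exact ⟨⟨_, _, _, h⟩, ⟨_, _, _, h'⟩⟩

end Start

end Pool.Agent.H51Seshadri
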