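import Pool.Agent.H51Seshadri.Data2
import Pool.Agent.H51Seshadri.ChkTa
import Pool.Agent.H51Seshadri.ChkTb
import Pool.Agent.H51Seshadri.ChkNa
import Pool.Agent.H51Seshadri.ChkNb

/-!
The finite checks of expansions, collected.
-/

namespace Pool.Agent.H51Seshadri
open Ex

lemma chkT_all {t s : ℕ} (ht : t < 16) (hs : s < 16) : chkT t s = true := by
  have key : ∀ t < 16, ∀ a ∈ [0, 4, 8, 12],
      allBelow 4 (fun i => force (a + i) (chkT t)) = true := by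
    intro t ht a ha
    simp only [List.mem_cons, List.not_mem_nil, or_false] at ha
    rcases ha with rfl | rfl | rfl | rfl
    · interval_cases t
      exacts [bT_0_0, bT_1_0, bT_2_0, bT_3_0, bT_4_0, bT_5_0, bT_6_0, bT_7_0, bT_8_0, bT_9_0, bT_10_0, bT_11_0, bT_12_0, bT_13_0, bT_14_0, bT_15_0]
    · interval_cases t
      exacts [bT_0_4, bT_1_4, bT_2_4, bT_3_4, bT_4_4, bT_5_4, bT_6_4, bT_7_4, bT_8_4, bT_9_4, bT_10_4, bT_11_4, bT_12_4, bT_13_4, bT_14_4, bT_15_4]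
    · interval_cases t
      exacts [bT_0_8, bT_1_8, bT_2_8, bT_3_8, bT_4_8, bT_5_8, bT_6_8, bT_7_8, bT_8_8, bT_9_8, bT_10_8, bT_11_8, bT_12_8, bT_13_8, bT_14_8, bT_15_8]
    · interval_cases t
      exacts [bT_0_12, bT_1_12, bT_2_12, bT_3_12, bT_4_12, bT_5_12, bT_6_12, bT_7_12, bT_8_12, bT_9_12, bT_10_12, bT_11_12, bT_12_12, bT_13_12, bT_14_12, bT_15_12]
  obtain ⟨a, ha, i, hi, rfl⟩ : ∃ a ∈ [0, 4, 8, 12], ∃ i < 4, s = a + i := by
    refine ⟨4 * (s / 4), ?_, s % 4, Nat.mod_lt _ (by norm_num), by omega⟩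
    have : s / 4 < 4 := by omega
    interval_cases s / 4 <;> simp
  have := allBelow_spec (key t ht a ha) hi
  rwa [force_eq] at this

lemma chkN_all {t s : ℕ} (ht : t < 16) (hs : s < 15) : chkN t s = true := by
  have key : ∀ t < 16, ∀ a ∈ [0, 4, 8, 12],
      allBelow (if a = 12 then 3 else 4) (fun i => force (a + i) (chkN t)) = true := by
    intro t ht a ha
    simp only [List.mem_cons, List.not_mem_nil, or_false] at ha
    rcases ha with rfl | rfl | rfl | rfl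
    · interval_cases t
      exacts [bN_0_0, bN_1_0, bN_2_0, bN_3_0, bN_4_0, bN_5_0, bN_6_0, bN_7_0, bN_8_0, bN_9_0, bN_10_0, bN_11_0, bN_12_0, bN_13_0, bN_14_0, bN_15_0]
    · interval_cases t
      exacts [bN_0_4, bN_1_4, bN_2_4, bN_3_4, bN_4_4, bN_5_4, bN_6_4, bN_7_4, bN_8_4, bN_9_4, bN_10_4, bN_11_4, bN_12_4, bN_13_4, bN_14_4, bN_15_4]
    · interval_cases t
      exacts [bN_0_8, bN_1_8, bN_2_8, bN_3_8, bN_4_8, bN_5_8, bN_6_8, bN_7_8, bN_8_8, bN_9_8, bN_10_8, bN_11_8, bN_12_8, bN_13_8, bN_14_8, bN_15_8]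
    · interval_cases t
      exacts [bN_0_12, bN_1_12, bN_2_12, bN_3_12, bN_4_12, bN_5_12, bN_6_12, bN_7_12, bN_8_12, bN_9_12, bN_10_12, bN_11_12, bN_12_12, bN_13_12, bN_14_12, bN_15_12]
  obtain ⟨a, ha, i, hi, rfl⟩ : ∃ a ∈ [0, 4, 8, 12], ∃ i < (if a = 12 then 3 else 4), s = a + i := by
    refine ⟨4 * (s / 4), ?_, s % 4, ?_, by omega⟩
    · have : s / 4 < 4 := by omega
      interval_cases s / 4 <;> simp
    · split_ifs <;> omega
  have := allBelow_spec (key t ht a ha) hi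
  rwa [force_eq] at this

end Pool.Agent.H51Seshadri
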