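import Pool.Agent.H51Seshadri.Comb

/-!
The invariants of the sequence of rational curves, and their first consequences.
-/

namespace Pool.Agent.H51Seshadri
open MvPolynomial

section
variable (F : Type*) [Field F]

/-- The linear forms of the three cusps. -/
noncomputable def lam (i : ℕ) : MvPolynomial (Fin 2) F := lamv (X 0) (X 1) i

lemma lam_zero : lam F 0 = X 0 := by
  simp [lam, lamv, nth, lamTab, evBin]

lemma lam_one : lam F 1 = X 1 := by
  simp [lam, lamv, nth, lamTab, evBin]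

lemma lam_two : lam F 2 = X 1 + X 0 := by
  simp [lam, lamv, nth, lamTab, evBin]

variable {F}

lemma lam_hom {i : ℕ} (hi : i < 3) : (lam F i).IsHomogeneous 1 := by
  interval_cases i
  · rw [lam_zero]; exact isHomogeneous_X _ _
  · rw [lam_one]; exact isHomogeneous_X _ _
  · rw [lam_two]; exact (isHomogeneous_X _ _).add (isHomogeneous_X _ _)

lemma lam_prime {i : ℕ} (hi : i < 3) : Prime (lam F i) := by
  interval_cases i
  · rw [lam_zero]; exact X_prime
  · rw [lam_one]; exact X_prime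
  · rw [lam_two]
    have h0 : coeff (Finsupp.single 0 1) (X 1 + X 0 : MvPolynomial (Fin 2) F) = 1 := by
      rw [coeff_add, coeff_X, coeff_X, if_neg, if_pos rfl, zero_add]
      intro h
      have := Finsupp.single_left_injective (one_ne_zero) h
      exact absurd this (by decide)
    have hne : (X 1 + X 0 : MvPolynomial (Fin 2) F) ≠ 0 := by
      intro h; rw [h] at h0; simp at h0
    have hd : (X 1 + X 0 : MvPolynomial (Fin 2) F).totalDegree = 1 :=
      ((isHomogeneous_X F (1 : Fin 2)).add (isHomogeneous_X F (0 : Fin 2))).totalDegree hne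
    refine (irreducible_of_totalDegree_eq_one hd ?_).prime
    intro x hx
    have := hx (Finsupp.single 0 1)
    rw [h0] at this
    exact isUnit_of_dvd_one this

lemma X01 {p : MvPolynomial (Fin 2) F} (hp : Prime p) (h0 : p ∣ X 0) (h1 : p ∣ X 1) : False := by
  have i0 : Irreducible (X 0 : MvPolynomial (Fin 2) F) := (X_prime (i := (0 : Fin 2))).irreducible
  have ha : Associated p (X 0) := hp.irreducible.associated_of_dvd i0 h0
  have := ha.symm.dvd.trans h1
  rw [X_dvd_X] at this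
  exact absurd this (by decide)

lemma lam_disj {i i' : ℕ} (hi : i < 3) (hi' : i' < 3) (hne : i ≠ i') {p : MvPolynomial (Fin 2) F}
    (hp : Prime p) (h : p ∣ lam F i) (h' : p ∣ lam F i') : False := by
  have key : ∀ i < 3, ∀ i' < 3, i < i' → p ∣ lam F i → p ∣ lam F i' → False := by
    intro i hi i' hi' hlt h h'
    interval_cases i' 
    · omega
    · obtain rfl : i = 0 := by omega
      rw [lam_zero] at h; rw [lam_one] at h'
      exact X01 hp h h'
    · interval_cases i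
      · rw [lam_zero] at h; rw [lam_two] at h'
        exact X01 hp h ((dvd_add_left h).mp h')
      · rw [lam_one] at h; rw [lam_two] at h'
        exact X01 hp ((dvd_add_right h).mp h') h
  rcases lt_or_gt_of_ne hne with hlt | hgt
  · exact key i hi i' hi' hlt h h'
  · exact key i' hi' i hi hgt h' h

lemma relPrime_of {a b : MvPolynomial (Fin 2) F} (ha : a ≠ 0)
    (h : ∀ p, Prime p → p ∣ a → p ∣ b → False) : IsRelPrime a b :=
  (UniqueFactorizationMonoid.isRelPrime_iff_no_prime_factors ha).mpr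
    fun p h1 h2 hp => h p hp h1 h2

end

attribute [irreducible] lam

section
variable (F : Type*) [Field F] [CharP F 11]

/-- The invariants. -/
structure Good (n : ℕ) (g : Fin 3 → MvPolynomial (Fin 2) F) (e : ℕ → MvPolynomial (Fin 2) F)
    (d : ℕ) (μ : ℕ → ℕ) (j a b : ℕ) : Prop where
  hj : j < 3
  hg : ∀ i, (g i).IsHomogeneous d
  he : ∀ s < 16, (e s).IsHomogeneous (μ s)
  e0 : ∀ s < 16, e s ≠ 0
  ha : 0 < a
  hb : 0 < b
  I1 : ∀ k < 15, ∃ c : F, c ≠ 0 ∧ ell k g = C c * ((∏ j : Fin 4, e (dd k j)) *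
    ∏ i : Fin 3, lam F i ^ ex a b k i j)
  I2 : ∀ p, Prime p → ¬ ∀ i, p ∣ g i
  quad : (a : ℤ) ^ 2 + 3 * a * b + b ^ 2 = 11 ^ n
  md : ¬ (11 : ℤ) ∣ (a : ℤ) - 2 * b
  m1 : 4 * (d : ℤ) - ∑ s : Fin 16, (μ s : ℤ) = 1
  m2 : 8 * (d : ℤ) - ∑ s : Fin 16, (wt s : ℤ) * (μ s : ℤ) = 11 ^ n

variable {F}
variable {n : ℕ} {g : Fin 3 → MvPolynomial (Fin 2) F} {e : ℕ → MvPolynomial (Fin 2) F}
    {d : ℕ} {μ : ℕ → ℕ} {j a b : ℕ}

omit [CharP F 11] in
lemma not_dvd_C {c : F} (hc : c ≠ 0) {p : MvPolynomial (Fin 2) F} (hp : Prime p) :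
    ¬ p ∣ C c := by
  intro h
  exact hp.not_isUnit (isUnit_of_dvd_unit h ((IsUnit.mk0 c hc).map C))

set_option linter.unusedSectionVars false
set_option linter.unusedVariables false
namespace Good

lemma e_dvd (h : Good F n g e d μ j a b) {s k : ℕ} (hk : k < 15) (hs : s < 16)
    (ho : onL s k = true) : e s ∣ ell k g := by
  obtain ⟨c, -, hc⟩ := h.I1 k hk
  obtain ⟨j', hj'⟩ := c9 k hk s hs ho
  rw [hc]
  apply Dvd.dvd.mul_left
  apply Dvd.dvd.mul_right
  rw [← hj']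
  exact Finset.dvd_prod_of_mem (fun j : Fin 4 => e (dd k j)) (Finset.mem_univ j')

lemma lam_dvd (h : Good F n g e d μ j a b) {i k : ℕ} (hk : k < 15) (hi : i < 3) :
    lam F i ^ ex a b k i j ∣ ell k g := by
  obtain ⟨c, -, hc⟩ := h.I1 k hk
  rw [hc]
  apply Dvd.dvd.mul_left
  apply Dvd.dvd.mul_left
  have := Finset.dvd_prod_of_mem (fun i : Fin 3 => lam F i ^ ex a b k i j)
    (Finset.mem_univ (⟨i, hi⟩ : Fin 3))
  simpa using this

lemma dvd_ell (h : Good F n g e d μ j a b) {k : ℕ} (hk : k < 15) {p : MvPolynomial (Fin 2) F}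
    (hp : Prime p) (hd : p ∣ ell k g) : (∃ s < 16, onL s k = true ∧ p ∣ e s) ∨
      (∃ i < 3, ex a b k i j ≠ 0 ∧ p ∣ lam F i) := by
  obtain ⟨c, hc0, hc⟩ := h.I1 k hk
  rw [hc] at hd
  rcases hp.dvd_or_dvd hd with h1 | h1
  · exact absurd h1 (not_dvd_C hc0 hp)
  · rcases hp.dvd_or_dvd h1 with h2 | h2
    · obtain ⟨j', -, hj'⟩ := hp.exists_mem_finset_dvd h2
      obtain ⟨h3, h4⟩ := c8 k hk j'
      exact Or.inl ⟨dd k j', h3, h4, hj'⟩
    · obtain ⟨i, -, hi⟩ := hp.exists_mem_finset_dvd h2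
      refine Or.inr ⟨i, i.2, ?_, hp.dvd_of_dvd_pow hi⟩
      intro h0
      rw [h0, pow_zero] at hi
      exact hp.not_isUnit (isUnit_of_dvd_one hi)

lemma ex_ne_zero (h : Good F n g e d μ j a b) {k i : ℕ} (hne : ex a b k i j ≠ 0) :
    k = cl i j ∨ k = cl i ((j + 1) % 3) := by
  unfold ex at hne
  rw [Nat.mod_eq_of_lt h.hj] at hne
  by_contra hcon
  push Not at hcon
  rw [if_neg hcon.1, if_neg hcon.2] at hne
  exact hne rfl

lemma e_not (h : Good F n g e d μ j a b) {s k : ℕ} (hk : k < 15) (hs : s < 16)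
    (ho : onL s k = false) {p : MvPolynomial (Fin 2) F} (hp : Prime p) (hd : p ∣ e s) :
    ¬ p ∣ ell k g := by
  intro h3
  obtain ⟨a1, a2, a3, a4, -, -⟩ := c5 s hs
  exact h.I2 p hp (three (c1 s hs k hk ho) (hd.trans (h.e_dvd a1 hs a3))
    (hd.trans (h.e_dvd a2 hs a4)) h3)

lemma cl_ne (h : Good F n g e d μ j a b) {i : ℕ} (hi : i < 3) : cl i j ≠ cl i ((j + 1) % 3) := by
  intro h0
  have h1 := (c11 i hi j h.hj).1
  rcases c12 _ h1 i hi j h.hj with h | h | h | h
  · exact h.1 rfl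
  · exact h.2.1 h0
  · exact h.1 rfl
  · exact h.1 rfl

lemma ex_left (h : Good F n g e d μ j a b) {i : ℕ} (hi : i < 3) : ex a b (cl i j) i j = a := by
  unfold ex
  rw [Nat.mod_eq_of_lt h.hj, if_pos rfl, if_neg (h.cl_ne hi), add_zero]

lemma ex_right (h : Good F n g e d μ j a b) {i : ℕ} (hi : i < 3) :
    ex a b (cl i ((j + 1) % 3)) i j = b := by
  unfold ex
  rw [Nat.mod_eq_of_lt h.hj, if_pos rfl, if_neg (h.cl_ne hi).symm, zero_add]

lemma lam_dvd_left (h : Good F n g e d μ j a b) {i : ℕ} (hi : i < 3) :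
    lam F i ^ a ∣ ell (cl i j) g := by
  have := h.lam_dvd (c11 i hi j h.hj).1 hi
  rwa [h.ex_left hi] at this

lemma cl_lt (h : Good F n g e d μ j a b) {i : ℕ} (hi : i < 3) : cl i ((j + 1) % 3) < 15 :=
  (c11 i hi _ (Nat.mod_lt _ (by norm_num))).1

lemma lam_dvd_right (h : Good F n g e d μ j a b) {i : ℕ} (hi : i < 3) :
    lam F i ^ b ∣ ell (cl i ((j + 1) % 3)) g := by
  have := h.lam_dvd (h.cl_lt hi) hi
  rwa [h.ex_right hi] at this

lemma lam_not (h : Good F n g e d μ j a b) {i k : ℕ} (hk : k < 15) (hi : i < 3)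
    (h1 : k ≠ cl i j) (h2 : k ≠ cl i ((j + 1) % 3)) {p : MvPolynomial (Fin 2) F} (hp : Prime p)
    (hd : p ∣ lam F i) : ¬ p ∣ ell k g := by
  intro h3
  refine h.I2 p hp (three (c2 i hi j h.hj k hk h1 h2) ?_ ?_ h3)
  · exact (dvd_pow hd h.ha.ne').trans (h.lam_dvd_left hi)
  · exact (dvd_pow hd h.hb.ne').trans (h.lam_dvd_right hi)

lemma e_disj (h : Good F n g e d μ j a b) {s t : ℕ} (hs : s < 16) (ht : t < 16) (hne : s ≠ t)
    {p : MvPolynomial (Fin 2) F} (hp : Prime p) (h1 : p ∣ e s) (h2 : p ∣ e t) : False := by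
  obtain ⟨k, hk, hk1, hk2⟩ := c3 s hs t ht hne
  exact h.e_not hk hs hk2 hp h1 (h2.trans (h.e_dvd hk ht hk1))

lemma e_lam (h : Good F n g e d μ j a b) {s i : ℕ} (hs : s < 16) (hi : i < 3)
    {p : MvPolynomial (Fin 2) F} (hp : Prime p) (h1 : p ∣ e s) (h2 : p ∣ lam F i) : False := by
  obtain ⟨k, hk, hk1, hk2, hk3⟩ := c4 i hi j h.hj s hs
  exact h.lam_not hk hi hk2 hk3 hp h2 (h1.trans (h.e_dvd hk hs hk1))

/-- The order of vanishing at a cusp. -/
lemma ord_lam (h : Good F n g e d μ j a b) {i k : ℕ} (hk : k < 15) (hi : i < 3) :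
    ∃ x, ell k g = lam F i ^ ex a b k i j * x ∧ ¬ lam F i ∣ x := by
  classical
  obtain ⟨c, hc0, hc⟩ := h.I1 k hk
  rw [← Finset.mul_prod_erase Finset.univ _ (Finset.mem_univ (⟨i, hi⟩ : Fin 3))] at hc
  refine ⟨C c * ((∏ j : Fin 4, e (dd k j)) *
    ∏ i ∈ Finset.univ.erase (⟨i, hi⟩ : Fin 3), lam F i ^ ex a b k i j), ?_, ?_⟩
  · rw [hc]; ring
  · intro hd
    have hp := lam_prime (F := F) hi
    rcases hp.dvd_or_dvd hd with h1 | h1
    · exact not_dvd_C hc0 hp h1
    · rcases hp.dvd_or_dvd h1 with h2 | h2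
      · obtain ⟨j', -, hj'⟩ := hp.exists_mem_finset_dvd h2
        exact h.e_lam (c8 k hk j').1 hi hp hj' dvd_rfl
      · obtain ⟨i', hi', hd'⟩ := hp.exists_mem_finset_dvd h2
        have hne : i' ≠ ⟨i, hi⟩ := (Finset.mem_erase.mp hi').1
        refine lam_disj hi i'.2 ?_ hp dvd_rfl (hp.dvd_of_dvd_pow hd')
        intro h0
        exact hne (Fin.ext h0.symm)

/-- The cofactor of `e s` in a line through `s`. -/
lemma cofactor (h : Good F n g e d μ j a b) {s k : ℕ} (hk : k < 15) (hs : s < 16)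
    (ho : onL s k = true) {p : MvPolynomial (Fin 2) F} (hp : Prime p) (hd : p ∣ e s) :
    ∃ w, ell k g = e s * w ∧ ¬ p ∣ w := by
  classical
  obtain ⟨c, hc0, hc⟩ := h.I1 k hk
  obtain ⟨j', hj'⟩ := c9 k hk s hs ho
  rw [← Finset.mul_prod_erase Finset.univ _ (Finset.mem_univ j')] at hc
  refine ⟨C c * ((∏ j ∈ Finset.univ.erase j', e (dd k j)) *
    ∏ i : Fin 3, lam F i ^ ex a b k i j), ?_, ?_⟩
  · rw [hc, hj']; ring
  · intro hd'
    rcases hp.dvd_or_dvd hd' with h1 | h1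
    · exact not_dvd_C hc0 hp h1
    · rcases hp.dvd_or_dvd h1 with h2 | h2
      · obtain ⟨j2, hj2, hj2'⟩ := hp.exists_mem_finset_dvd h2
        have hne : j2 ≠ j' := (Finset.mem_erase.mp hj2).1
        refine h.e_disj hs (c8 k hk j2).1 ?_ hp hd hj2'
        intro h0
        exact hne (c10 k hk j2 j' (by rw [← h0, hj']))
      · obtain ⟨i, -, hi⟩ := hp.exists_mem_finset_dvd h2
        exact h.e_lam hs i.2 hp hd (hp.dvd_of_dvd_pow hi)

lemma ne (h : Good F n g e d μ j a b) : a < 2 * b ∨ 2 * b < a := by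
  rcases lt_trichotomy a (2 * b) with h1 | h1 | h1
  · exact Or.inl h1
  · exfalso
    apply h.md
    rw [h1]
    push_cast
    simp
  · exact Or.inr h1

end Good

end

end Pool.Agent.H51Seshadri
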