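import Mathlib

/-!
Verified arithmetic of ternary forms with coefficients modulo 11, by packing coefficients into
large natural numbers.
-/

namespace Pool.Agent.H51Seshadri

section Eval
variable {A : Type*} [CommSemiring A]

/-- The binary form whose coefficient of `X ^ j * Y ^ (n - 1 - j)` is the `j`th entry. -/
def evBin (X Y : A) : List ℕ → A
  | [] => 0
  | c :: l => (c : A) * Y ^ l.length + X * evBin X Y l

/-- Ternary form, listed by powers of the first variable. -/
def evRows (X Y Z : A) : List (List ℕ) → A
  | [] => 0
  | r :: L => evBin Y Z r + X * evRows X Y Z L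

/-- Ternary form, listed by the degree in the first two variables. -/
def evTot (X Y Z : A) : List (List ℕ) → A
  | [] => 0
  | r :: L => evBin X Y r * Z ^ L.length + evTot X Y Z L

end Eval

/-- Expressions. -/
inductive Ex : Type
  | v0 : Ex
  | v1 : Ex
  | v2 : Ex
  | c : ℕ → Ex
  | add : Ex → Ex → Ex
  | mul : Ex → Ex → Ex
  | bin : List ℕ → Ex → Ex → Ex
  | rows : List (List ℕ) → Ex → Ex → Ex → Ex
  | tot : List (List ℕ) → Ex → Ex → Ex → Ex

namespace Ex

/-- Evaluation in a commutative semiring. -/
def eval {A : Type*} [CommSemiring A] (x y z : A) : Ex → A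
  | v0 => x
  | v1 => y
  | v2 => z
  | c n => (n : A)
  | add a b => eval x y z a + eval x y z b
  | mul a b => eval x y z a * eval x y z b
  | bin l a b => evBin (eval x y z a) (eval x y z b) l
  | rows L a b d => evRows (eval x y z a) (eval x y z b) (eval x y z d) L
  | tot L a b d => evTot (eval x y z a) (eval x y z b) (eval x y z d) L

end Ex

lemma map_evBin {A B : Type*} [CommSemiring A] [CommSemiring B] (f : A →+* B) (X Y : A)
    (l : List ℕ) : f (evBin X Y l) = evBin (f X) (f Y) l := by
  induction l with
  | nil => simp [evBin]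
  | cons c l ih => simp [evBin, ih]

lemma map_evRows {A B : Type*} [CommSemiring A] [CommSemiring B] (f : A →+* B) (X Y Z : A)
    (l : List (List ℕ)) : f (evRows X Y Z l) = evRows (f X) (f Y) (f Z) l := by
  induction l with
  | nil => simp [evRows]
  | cons c l ih => simp [evRows, ih, map_evBin]

lemma map_evTot {A B : Type*} [CommSemiring A] [CommSemiring B] (f : A →+* B) (X Y Z : A)
    (l : List (List ℕ)) : f (evTot X Y Z l) = evTot (f X) (f Y) (f Z) l := by
  induction l with
  | nil => simp [evTot]
  | cons c l ih => simp [evTot, ih, map_evBin]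

lemma Ex.map_eval {A B : Type*} [CommSemiring A] [CommSemiring B] (f : A →+* B) (x y z : A)
    (e : Ex) : f (e.eval x y z) = e.eval (f x) (f y) (f z) := by
  induction e with
  | v0 => rfl
  | v1 => rfl
  | v2 => rfl
  | c n => simp [Ex.eval]
  | add a b iha ihb => simp [Ex.eval, iha, ihb]
  | mul a b iha ihb => simp [Ex.eval, iha, ihb]
  | bin l a b iha ihb => simp [Ex.eval, map_evBin, iha, ihb]
  | rows l a b d iha ihb ihd => simp [Ex.eval, map_evRows, iha, ihb, ihd]
  | tot l a b d iha ihb ihd => simp [Ex.eval, map_evTot, iha, ihb, ihd]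

/-! Fast evaluation on natural numbers. -/

/-- Evaluate the argument first. -/
def force {α : Type} (n : ℕ) (f : ℕ → α) : α :=
  match n with
  | 0 => f 0
  | m + 1 => f (m + 1)

lemma force_eq {α : Type} (n : ℕ) (f : ℕ → α) : force n f = f n := by
  cases n <;> rfl

/-- `evBin` on naturals. -/
def evBinN (X Y : ℕ) : List ℕ → ℕ
  | [] => 0
  | c :: l => Nat.add (Nat.mul c (Nat.pow Y l.length)) (Nat.mul X (evBinN X Y l))

/-- `evRows` on naturals. -/
def evRowsN (X Y Z : ℕ) : List (List ℕ) → ℕ
  | [] => 0
  | r :: L => Nat.add (evBinN Y Z r) (Nat.mul X (evRowsN X Y Z L))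

/-- `evTot` on naturals. -/
def evTotN (X Y Z : ℕ) : List (List ℕ) → ℕ
  | [] => 0
  | r :: L => Nat.add (Nat.mul (evBinN X Y r) (Nat.pow Z L.length)) (evTotN X Y Z L)

lemma evBinN_eq (X Y : ℕ) (l : List ℕ) : evBinN X Y l = evBin X Y l := by
  induction l with
  | nil => rfl
  | cons c l ih => simp only [evBinN, evBin, ih]; rfl

lemma evRowsN_eq (X Y Z : ℕ) (l : List (List ℕ)) : evRowsN X Y Z l = evRows X Y Z l := by
  induction l with
  | nil => rfl
  | cons c l ih => simp only [evRowsN, evRows, ih, evBinN_eq]; rfl

lemma evTotN_eq (X Y Z : ℕ) (l : List (List ℕ)) : evTotN X Y Z l = evTot X Y Z l := by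
  induction l with
  | nil => rfl
  | cons c l ih => simp only [evTotN, evTot, ih, evBinN_eq]; rfl

/-- Evaluation on naturals. -/
def Ex.evalN (x y z : ℕ) : Ex → ℕ
  | v0 => x
  | v1 => y
  | v2 => z
  | c n => n
  | add a b => Nat.add (evalN x y z a) (evalN x y z b)
  | mul a b => Nat.mul (evalN x y z a) (evalN x y z b)
  | bin l a b => force (evalN x y z a) fun X => force (evalN x y z b) fun Y => evBinN X Y l
  | rows L a b d => force (evalN x y z a) fun X => force (evalN x y z b) fun Y =>
      force (evalN x y z d) fun Z => evRowsN X Y Z L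
  | tot L a b d => force (evalN x y z a) fun X => force (evalN x y z b) fun Y =>
      force (evalN x y z d) fun Z => evTotN X Y Z L

lemma Ex.evalN_eq (x y z : ℕ) (e : Ex) : e.evalN x y z = e.eval x y z := by
  induction e with
  | v0 => rfl
  | v1 => rfl
  | v2 => rfl
  | c n => simp [Ex.eval, Ex.evalN]
  | add a b iha ihb => simp only [Ex.eval, Ex.evalN, iha, ihb]; rfl
  | mul a b iha ihb => simp only [Ex.eval, Ex.evalN, iha, ihb]; rfl
  | bin l a b iha ihb => simp only [Ex.eval, Ex.evalN, iha, ihb, force_eq, evBinN_eq]
  | rows l a b d iha ihb ihd =>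
      simp only [Ex.eval, Ex.evalN, iha, ihb, ihd, force_eq, evRowsN_eq]
  | tot l a b d iha ihb ihd =>
      simp only [Ex.eval, Ex.evalN, iha, ihb, ihd, force_eq, evTotN_eq]

/-! Homogeneity. -/

/-- Row lengths decrease to one. -/
def rowsOK : List (List ℕ) → Bool
  | [] => true
  | r :: L => Nat.beq r.length (L.length + 1) && rowsOK L

/-- Row lengths increase by one from `t + 1`. -/
def totOK : ℕ → List (List ℕ) → Bool
  | _, [] => true
  | t, r :: L => Nat.beq r.length (t + 1) && totOK (t + 1) L

/-- Check that the degree is `d`, given the degree `m` of the arguments. -/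
def degOf (a b : Option ℕ) (f : ℕ → Option ℕ) : Option ℕ :=
  match a, b with
  | some m, some n => if Nat.beq m n then f m else none
  | _, _ => none

namespace Ex

/-- The degree of a homogeneous expression. -/
def hom : Ex → Option ℕ
  | v0 => some 1
  | v1 => some 1
  | v2 => some 1
  | c _ => some 0
  | add a b => degOf (hom a) (hom b) fun m => some m
  | mul a b => (match hom a, hom b with
      | some m, some n => some (m + n)
      | _, _ => none)
  | bin l a b => degOf (hom a) (hom b) fun m => some (m * (l.length - 1))
  | rows L a b d => degOf (hom a) (hom b) fun m => degOf (some m) (hom d) fun m =>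
      if rowsOK L then some (m * (L.length - 1)) else none
  | tot L a b d => degOf (hom a) (hom b) fun m => degOf (some m) (hom d) fun m =>
      match L with
      | [] => none
      | r :: L => if totOK (r.length - 1) (r :: L) then some (m * (r.length - 1 + L.length))
          else none

end Ex

lemma degOf_eq_some {a b : Option ℕ} {f : ℕ → Option ℕ} {d : ℕ} (h : degOf a b f = some d) :
    ∃ m, a = some m ∧ b = some m ∧ f m = some d := by
  unfold degOf at h
  split at h
  · rename_i m n
    split_ifs at h with hmn
    have := Nat.eq_of_beq_eq_true hmn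
    subst this
    exact ⟨m, rfl, rfl, h⟩
  · exact absurd h (by simp)

section Hom
open MvPolynomial

lemma evBin_hom {σ R : Type*} [CommSemiring R] {X Y : MvPolynomial σ R} {m : ℕ} (hX : X.IsHomogeneous m)
    (hY : Y.IsHomogeneous m) (l : List ℕ) : (evBin X Y l).IsHomogeneous (m * (l.length - 1)) := by
  induction l with
  | nil => simpa [evBin] using isHomogeneous_zero _ _ _
  | cons c l ih =>
    simp only [evBin, List.length_cons, Nat.add_sub_cancel]
    apply IsHomogeneous.add
    · have h1 : (Y ^ l.length).IsHomogeneous (m * l.length) := hY.pow l.length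
      have h2 : ((c : MvPolynomial σ R)).IsHomogeneous 0 := by
        have := isHomogeneous_C σ (c : R)
        simpa using this
      simpa using h2.mul h1
    · cases l with
      | nil => simpa [evBin] using isHomogeneous_zero _ _ _
      | cons c' l' =>
        have := hX.mul ih
        simp only [List.length_cons, Nat.add_sub_cancel] at this ⊢
        rwa [show m * (l'.length + 1) = m + m * l'.length by ring]

lemma evRows_hom {σ R : Type*} [CommSemiring R] {X Y Z : MvPolynomial σ R} {m : ℕ} (hX : X.IsHomogeneous m)
    (hY : Y.IsHomogeneous m) (hZ : Z.IsHomogeneous m) (L : List (List ℕ))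
    (hL : rowsOK L = true) : (evRows X Y Z L).IsHomogeneous (m * (L.length - 1)) := by
  induction L with
  | nil => simpa [evRows] using isHomogeneous_zero _ _ _
  | cons r L ih =>
    simp only [rowsOK, Bool.and_eq_true] at hL
    have hr := Nat.eq_of_beq_eq_true hL.1
    have ih := ih hL.2
    simp only [evRows, List.length_cons, Nat.add_sub_cancel]
    apply IsHomogeneous.add
    · have := evBin_hom hY hZ r
      rwa [hr, Nat.add_sub_cancel] at this
    · cases L with
      | nil => simpa [evRows] using isHomogeneous_zero _ _ _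
      | cons r' L' =>
        have := hX.mul ih
        simp only [List.length_cons, Nat.add_sub_cancel] at this ⊢
        rwa [show m * (L'.length + 1) = m + m * L'.length by ring]

lemma evTot_hom {σ R : Type*} [CommSemiring R] {X Y Z : MvPolynomial σ R} {m : ℕ} (hX : X.IsHomogeneous m)
    (hY : Y.IsHomogeneous m) (hZ : Z.IsHomogeneous m) (L : List (List ℕ)) (t : ℕ)
    (hL : totOK t L = true) : (evTot X Y Z L).IsHomogeneous (m * (t + (L.length - 1))) := by
  induction L generalizing t with
  | nil => simpa [evTot] using isHomogeneous_zero _ _ _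
  | cons r L ih =>
    simp only [totOK, Bool.and_eq_true] at hL
    have hr := Nat.eq_of_beq_eq_true hL.1
    have ih := ih (t + 1) hL.2
    simp only [evTot, List.length_cons, Nat.add_sub_cancel]
    apply IsHomogeneous.add
    · have h1 := evBin_hom hX hY r
      rw [hr, Nat.add_sub_cancel] at h1
      have h2 := h1.mul (hZ.pow L.length)
      rwa [← Nat.mul_add] at h2
    · cases L with
      | nil => simpa [evTot] using isHomogeneous_zero _ _ _
      | cons r' L' =>
        simp only [List.length_cons, Nat.add_sub_cancel] at ih ⊢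
        rwa [show m * (t + (L'.length + 1)) = m * (t + 1 + L'.length) by ring]

lemma Ex.hom_spec (e : Ex) : ∀ d, e.hom = some d →
    (e.eval (X 0) (X 1) (X 2) : MvPolynomial (Fin 3) ℕ).IsHomogeneous d := by
  induction e with
  | v0 => intro d h; simp only [Ex.hom, Option.some.injEq] at h; subst h; exact isHomogeneous_X _ _
  | v1 => intro d h; simp only [Ex.hom, Option.some.injEq] at h; subst h; exact isHomogeneous_X _ _
  | v2 => intro d h; simp only [Ex.hom, Option.some.injEq] at h; subst h; exact isHomogeneous_X _ _
  | c n =>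
    intro d h
    simp only [Ex.hom, Option.some.injEq] at h; subst h
    have := isHomogeneous_C (Fin 3) (n : ℕ)
    simpa [Ex.eval] using this
  | add a b iha ihb =>
    intro d h
    simp only [Ex.hom] at h
    obtain ⟨m, ha, hb, hm⟩ := degOf_eq_some h
    simp only [Option.some.injEq] at hm; subst hm
    exact (iha _ ha).add (ihb _ hb)
  | mul a b iha ihb =>
    intro d h
    simp only [Ex.hom] at h
    split at h
    · rename_i m n ha hb
      simp only [Option.some.injEq] at h; subst h
      exact (iha _ ha).mul (ihb _ hb)
    · exact absurd h (by simp)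
  | bin l a b iha ihb =>
    intro d h
    simp only [Ex.hom] at h
    obtain ⟨m, ha, hb, hm⟩ := degOf_eq_some h
    simp only [Option.some.injEq] at hm; subst hm
    exact evBin_hom (iha _ ha) (ihb _ hb) l
  | rows L a b d iha ihb ihd =>
    intro D h
    simp only [Ex.hom] at h
    obtain ⟨m, ha, hb, hm⟩ := degOf_eq_some h
    obtain ⟨n, hmn, hd, hn⟩ := degOf_eq_some hm
    simp only [Option.some.injEq] at hmn; subst hmn
    split_ifs at hn with hL
    simp only [Option.some.injEq] at hn; subst hn
    exact evRows_hom (iha _ ha) (ihb _ hb) (ihd _ hd) L hL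
  | tot L a b d iha ihb ihd =>
    intro D h
    simp only [Ex.hom] at h
    obtain ⟨m, ha, hb, hm⟩ := degOf_eq_some h
    obtain ⟨n, hmn, hd, hn⟩ := degOf_eq_some hm
    simp only [Option.some.injEq] at hmn; subst hmn
    split at hn
    · exact absurd hn (by simp)
    · rename_i r L'
      split_ifs at hn with hL
      simp only [Option.some.injEq] at hn; subst hn
      have := evTot_hom (iha _ ha) (ihb _ hb) (ihd _ hd) (r :: L') _ hL
      simpa [Ex.eval] using this

end Hom

/-! Digits. -/

/-- All base-`B` digits of the number (at most `n` of them) are divisible by 11. -/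
def allDiv (B : ℕ) : ℕ → ℕ → Bool
  | 0, N => Nat.beq N 0
  | n + 1, N => force N fun N => Nat.beq (Nat.mod (Nat.mod N B) 11) 0 && allDiv B n (Nat.div N B)

open Polynomial in
lemma allDiv_spec {B : ℕ} (hB : 0 < B) (n : ℕ) : ∀ (q : Polynomial ℕ),
    (∀ i, q.coeff i < B) → allDiv B n (q.eval B) = true → ∀ i, 11 ∣ q.coeff i := by
  induction n with
  | zero =>
    intro q _ h i
    have h0 : q.eval B = 0 := Nat.eq_of_beq_eq_true h
    have : q.coeff i * B ^ i = 0 := by
      rw [Polynomial.eval_eq_sum, Polynomial.sum_def] at h0
      by_cases hi : i ∈ q.support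
      · exact (Finset.sum_eq_zero_iff.mp h0) i hi
      · rw [Polynomial.notMem_support_iff.mp hi, zero_mul]
    have hBi : B ^ i ≠ 0 := (Nat.pow_pos hB).ne'
    rcases Nat.mul_eq_zero.mp this with h | h
    · rw [h]; exact dvd_zero _
    · exact absurd h hBi
  | succ n ih =>
    intro q hq h i
    rw [allDiv, force_eq, Bool.and_eq_true] at h
    obtain ⟨h1, h2⟩ := h
    have h1 := Nat.eq_of_beq_eq_true h1
    have e1 : q.eval B = B * (q.divX.eval B) + q.coeff 0 := by
      conv_lhs => rw [← Polynomial.divX_mul_X_add q]
      simp [mul_comm]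
    have e2 : q.eval B % B = q.coeff 0 := by
      rw [e1, Nat.mul_add_mod, Nat.mod_eq_of_lt (hq 0)]
    have e3 : q.eval B / B = q.divX.eval B := by
      rw [e1, Nat.mul_add_div hB, Nat.div_eq_of_lt (hq 0), add_zero]
    change (q.eval B % B) % 11 = 0 at h1
    change allDiv B n (q.eval B / B) = true at h2
    rw [e2] at h1
    rw [e3] at h2
    cases i with
    | zero => exact Nat.dvd_of_mod_eq_zero h1
    | succ i =>
      have := ih q.divX (fun j => by rw [Polynomial.coeff_divX]; exact hq _) h2 i
      rwa [Polynomial.coeff_divX] at this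

open MvPolynomial in
/-- Kronecker substitution criterion. -/
lemma kron {p : MvPolynomial (Fin 3) ℕ} {d B : ℕ} (hp : p.IsHomogeneous d)
    (h1 : MvPolynomial.eval ![1, 1, 1] p < B) (n : ℕ)
    (h2 : allDiv B n (MvPolynomial.eval ![B, B ^ (d + 1), 1] p) = true) (m : Fin 3 →₀ ℕ) :
    11 ∣ p.coeff m := by
  classical
  have hB : 0 < B := lt_of_le_of_lt (Nat.zero_le _) h1
  set q : Polynomial ℕ := ∑ m ∈ p.support,
    Polynomial.monomial (m 0 + (d + 1) * m 1) (p.coeff m) with hq
  have hq1 : q.eval 1 = MvPolynomial.eval ![1, 1, 1] p := by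
    rw [hq, Polynomial.eval_finsetSum, MvPolynomial.eval_eq']
    refine Finset.sum_congr rfl fun m _ => ?_
    simp [Fin.prod_univ_three]
  have hqB : q.eval B = MvPolynomial.eval ![B, B ^ (d + 1), 1] p := by
    rw [hq, Polynomial.eval_finsetSum, MvPolynomial.eval_eq']
    refine Finset.sum_congr rfl fun m _ => ?_
    simp [Fin.prod_univ_three, pow_add, pow_mul]
  have hqc : ∀ i, q.coeff i < B := by
    intro i
    refine lt_of_le_of_lt ?_ h1
    rw [← hq1, Polynomial.eval_eq_sum, Polynomial.sum_def]
    by_cases hi : i ∈ q.support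
    · have := Finset.single_le_sum (f := fun e => q.coeff e * 1 ^ e) (fun _ _ => Nat.zero_le _) hi
      simpa using this
    · rw [Polynomial.notMem_support_iff.mp hi]; exact Nat.zero_le _
  have hdiv := allDiv_spec hB n q hqc (by rw [hqB]; exact h2)
  by_cases hm : m ∈ p.support
  · have key : q.coeff (m 0 + (d + 1) * m 1) = p.coeff m := by
      rw [hq, Polynomial.finsetSum_coeff, Finset.sum_eq_single m]
      · simp [Polynomial.coeff_monomial]
      · intro m' hm' hne
        rw [Polynomial.coeff_monomial, if_neg]
        intro heq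
        apply hne
        have hd : ∀ m ∈ p.support, m 0 + m 1 + m 2 = d := by
          intro m hm
          have := hp (MvPolynomial.mem_support_iff.mp hm)
          rw [← this, Finsupp.weight_apply, Finsupp.sum_fintype _ _ (by simp)]
          simp [Fin.sum_univ_three]
        have a1 := hd m hm
        have a2 := hd m' hm'
        have l1 : m 0 < d + 1 := by omega
        have l2 : m' 0 < d + 1 := by omega
        have b0 : m' 0 = m 0 := by
          have := congrArg (· % (d + 1)) heq
          simpa [Nat.add_mul_mod_self_left, Nat.mod_eq_of_lt l1, Nat.mod_eq_of_lt l2] using this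
        have b1 : m' 1 = m 1 := by
          rw [b0] at heq
          have := Nat.add_left_cancel heq
          exact Nat.eq_of_mul_eq_mul_left (Nat.succ_pos d) this
        ext i
        fin_cases i
        · exact b0
        · exact b1
        · change m' 2 = m 2; omega
      · intro h; exact absurd hm h
    rw [← key]; exact hdiv _
  · rw [MvPolynomial.notMem_support_iff.mp hm]; exact dvd_zero _

namespace Ex

/-- The check that all coefficients of a homogeneous expression are divisible by 11. -/
def chk (w : ℕ) (e : Ex) : Bool :=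
  match e.hom with
  | none => false
  | some d => force (Nat.pow 2 w) fun B =>
      Nat.blt (e.evalN 1 1 1) B &&
        force (Nat.pow B (d + 1)) fun C => allDiv B ((d + 1) * d + 1) (e.evalN B C 1)

theorem chk_sound {w : ℕ} {e : Ex} (h : e.chk w = true) {A : Type*} [CommSemiring A] [CharP A 11]
    (x y z : A) : e.eval x y z = 0 := by
  unfold chk at h
  split at h
  · exact absurd h (by simp)
  · rename_i d hd
    rw [force_eq, Bool.and_eq_true, force_eq] at h
    obtain ⟨h1, h2⟩ := h
    set p : MvPolynomial (Fin 3) ℕ := e.eval (MvPolynomial.X 0) (MvPolynomial.X 1)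
      (MvPolynomial.X 2) with hp
    have hom := e.hom_spec d hd
    have ev : ∀ (v : Fin 3 → ℕ), MvPolynomial.eval v p = e.evalN (v 0) (v 1) (v 2) := by
      intro v
      rw [hp, Ex.map_eval, Ex.evalN_eq]
      simp
    have h1' : e.evalN 1 1 1 < 2 ^ w := by
      have := Nat.ble_eq.mp h1
      exact this
    have h1 : MvPolynomial.eval ![1, 1, 1] p < 2 ^ w := by
      rw [ev]; exact h1'
    have h2 : allDiv (2 ^ w) ((d + 1) * d + 1)
        (MvPolynomial.eval ![2 ^ w, (2 ^ w) ^ (d + 1), 1] p) = true := by
      rw [ev]; exact h2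
    have hdiv := kron hom h1 _ h2
    have : e.eval x y z = MvPolynomial.eval₂ (Nat.castRingHom A) ![x, y, z] p := by
      have := Ex.map_eval (MvPolynomial.eval₂Hom (Nat.castRingHom A) ![x, y, z])
        (MvPolynomial.X 0) (MvPolynomial.X 1) (MvPolynomial.X 2) e
      rw [← hp] at this
      simp only [MvPolynomial.eval₂Hom_X'] at this
      rw [← MvPolynomial.coe_eval₂Hom, this]
      rfl
    rw [this, MvPolynomial.eval₂_eq']
    apply Finset.sum_eq_zero
    intro m _
    have : ((p.coeff m : ℕ) : A) = 0 := (CharP.cast_eq_zero_iff A 11 _).mpr (hdiv m)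
    simp [this]

/-- Equality of two expressions modulo 11. -/
def eqv (w : ℕ) (a b : Ex) : Bool := (add a (mul (c 10) b)).chk w

theorem eqv_sound {w : ℕ} {a b : Ex} (h : eqv w a b = true) {A : Type*} [CommRing A] [CharP A 11]
    (x y z : A) : a.eval x y z = b.eval x y z := by
  have := chk_sound h x y z
  simp only [Ex.eval] at this
  have h11 : ((11 : ℕ) : A) = 0 := CharP.cast_eq_zero A 11
  push_cast at this h11
  linear_combination this - h11 * b.eval x y z

end Ex

end Pool.Agent.H51Seshadri
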