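import Pool.Agent.H51Seshadri.Points

/-!
Ample line bundles of degree one on curves with large multiplicity at a node.
-/

namespace Pool.Agent.H51Seshadri
open MvPolynomial

set_option linter.unusedSectionVars false

/-- Growth of the multiplicity. -/
lemma min_growth {a b m : ℕ} (ha : 0 < a) (hb : 0 < b)
    (h : (a : ℤ) ^ 2 + 3 * a * b + b ^ 2 = 11 ^ (2 * m)) :
    2 * (11 : ℤ) ^ m ≤ 5 * (min a b : ℕ) ^ 2 := by
  have key : ∀ x y Y : ℤ, 0 < x → 0 < y → 0 < Y → x ^ 2 + 3 * x * y + y ^ 2 = Y ^ 2 →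
      2 * Y ≤ 5 * y ^ 2 := by
    intro x y Y hx hy hY hxy
    have h1 : (2 * x + 3 * y - 2 * Y) * (2 * x + 3 * y + 2 * Y) = 5 * y ^ 2 := by
      linear_combination 4 * hxy
    have h2 : 0 < 5 * y ^ 2 := by positivity
    have h3 : 0 < 2 * x + 3 * y + 2 * Y := by positivity
    have h4 : 0 < 2 * x + 3 * y - 2 * Y := by
      by_contra hcon
      push Not at hcon
      have := mul_nonpos_of_nonpos_of_nonneg hcon h3.le
      linarith
    nlinarith
  have hY : (0 : ℤ) < 11 ^ m := by positivity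
  have h' : (a : ℤ) ^ 2 + 3 * a * b + b ^ 2 = (11 ^ m) ^ 2 := by rw [h, ← pow_mul, mul_comm]
  have ha' : (0 : ℤ) < a := by exact_mod_cast ha
  have hb' : (0 : ℤ) < b := by exact_mod_cast hb
  rcases le_total a b with hab | hab
  · rw [min_eq_left hab]
    exact key b a _ hb' ha' hY (by rw [← h']; ring)
  · rw [min_eq_right hab]
    exact key a b _ ha' hb' hY h'

section
variable {k : Type*} [Field k] [CharP k 11]
variable {n : ℕ} {g : Fin 3 → MvPolynomial (Fin 2) k} {e : ℕ → MvPolynomial (Fin 2) k}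
    {d : ℕ} {μ : ℕ → ℕ} {j a b : ℕ}

/-- The line bundle: a combination of the class of the curve, an ample class and a nef class. -/
def LL (d : ℕ) (μ : ℕ → ℕ) (N α : ℤ) : Bundle where
  d := 13 * (N * 17 + α * d) + 4
  m := fun s => 13 * (N + α * μ s) + 1

lemma LL_dot (d : ℕ) (μ : ℕ → ℕ) (N α : ℤ) (G : MvPolynomial (Fin 3) k) :
    (LL d μ N α).dot G = 13 * (N * (17 * G.totalDegree - ∑ s : Fin 16, (mult (pt k s) G : ℤ)) +
      α * (d * G.totalDegree - ∑ s : Fin 16, (μ s : ℤ) * mult (pt k s) G)) +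
      (4 * G.totalDegree - ∑ s : Fin 16, (mult (pt k s) G : ℤ)) := by
  have h1 : ∑ s : Fin 16, (13 * (N + α * μ s) + 1) * (mult (pt k s) G : ℤ) =
      13 * (N * ∑ s : Fin 16, (mult (pt k s) G : ℤ) +
        α * ∑ s : Fin 16, (μ s : ℤ) * mult (pt k s) G) + ∑ s : Fin 16, (mult (pt k s) G : ℤ) := by
    rw [Finset.mul_sum, Finset.mul_sum, ← Finset.sum_add_distrib, Finset.mul_sum,
      ← Finset.sum_add_distrib]
    exact Finset.sum_congr rfl fun s _ => by ring
  unfold Bundle.dot LL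
  simp only
  rw [h1]
  ring

lemma LL_sq (d : ℕ) (μ : ℕ → ℕ) (N α : ℤ) :
    (LL d μ N α).sq = (13 * (N * 17 + α * d) + 4) ^ 2 - (16 * (13 * N + 1) ^ 2 +
      26 * α * (13 * N + 1) * (∑ s : Fin 16, (μ s : ℤ)) +
      169 * α ^ 2 * ∑ s : Fin 16, (μ s : ℤ) ^ 2) := by
  have h1 : ∑ s : Fin 16, (13 * (N + α * μ s) + 1) ^ 2 = 16 * (13 * N + 1) ^ 2 +
      26 * α * (13 * N + 1) * (∑ s : Fin 16, (μ s : ℤ)) +
      169 * α ^ 2 * ∑ s : Fin 16, (μ s : ℤ) ^ 2 := by
    have : ∀ s : Fin 16, (13 * (N + α * (μ s : ℤ)) + 1) ^ 2 = (13 * N + 1) ^ 2 +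
      26 * α * (13 * N + 1) * (μ s : ℤ) + 169 * α ^ 2 * (μ s : ℤ) ^ 2 := by
      intro s; ring
    rw [Finset.sum_congr rfl fun s _ => this s, Finset.sum_add_distrib, Finset.sum_add_distrib,
      ← Finset.mul_sum, ← Finset.mul_sum]
    simp
  unfold Bundle.sq LL
  simp only
  rw [h1]

namespace Good

/-- The numbers of any irreducible equation of the curve. -/
theorem equation (h : Good k n g e d μ j a b) [IsAlgClosed k] {G : MvPolynomial (Fin 3) k}
    (hirr : Irreducible G) (hG : G.IsHomogeneous G.totalDegree) (hev : aeval g G = 0) :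
    ∃ δ : ℕ, d = G.totalDegree * δ ∧ (∀ s : Fin 16, μ s = mult (pt k s) G * δ) ∧
      min a b = mult (fun i => (ndp j i : k)) G * δ := by
  refine ⟨Module.finrank (KS (Vg g)) (RatFunc k), ?_⟩
  set δ := Module.finrank (KS (Vg g)) (RatFunc k)
  obtain ⟨P, hP, hPD⟩ := h.pd_generic hG hirr.ne_zero hev
  obtain ⟨r1, r2⟩ := hPD.formula hG hirr hev
  have hm0 : mult P G = 0 := by
    by_contra hne
    apply hP
    have h1 := (hPD.mult_le hG hirr.ne_zero).2
    exact eval_eq_zero_of_mem (Ideal.pow_le_self hne h1)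
  rw [hm0, zero_add, Nat.sub_zero] at r2
  have key : ∀ (Q : Fin 3 → k) (ν : ℕ), PD g d Q ν → ν = mult Q G * δ := by
    intro Q ν hQ
    obtain ⟨s1, s2⟩ := hQ.formula hG hirr hev
    rw [Nat.sub_mul] at s2
    have s3 : mult Q G * δ ≤ G.totalDegree * δ := Nat.mul_le_mul_right _ s1
    change d = G.totalDegree * δ at r2
    change d = ν + (G.totalDegree * δ - mult Q G * δ) at s2
    omega
  exact ⟨r2, fun s => key _ _ (h.pd_s s), key _ _ h.pd_node⟩

/-- The intersection number with any other curve is not negative. -/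
theorem inter_nonneg (h : Good k n g e d μ j a b) {H : MvPolynomial (Fin 3) k}
    (hH : H.IsHomogeneous H.totalDegree) (hH0 : H ≠ 0) (hev : aeval g H ≠ 0) :
    ∑ s : Fin 16, μ s * mult (pt k s) H ≤ d * H.totalDegree := by
  have hdvd : ∀ s : Fin 16, e s ^ mult (pt k s) H ∣ aeval g H := by
    intro s
    have h1 := ((h.pd_s s).mult_le hH hH0).2
    obtain ⟨a1, a2, a3, a4, a5, a6⟩ := c5 s s.2
    obtain ⟨b1, b2, b3⟩ := c40 s
    have hdz := c1 s s.2 (2 - mi s) (by omega) a6
    obtain ⟨B, hAB, hBA⟩ := Am_inv (k := k) hdz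
    obtain ⟨l0, l1, l2⟩ := lg_Am (k1 s) (k2 s) (2 - mi s) g
    refine pow_dvd_aeval (fun L hL hL0 => ?_) h1
    exact lin_form_dvd hBA (cast_ne_of_mod b3) (Am_mulVec b1 b2)
      (l0 ▸ h.e_dvd a1 s.2 a3) (l1 ▸ h.e_dvd a2 s.2 a4) L hL hL0
  have hprod : ∏ s : Fin 16, e s ^ mult (pt k s) H ∣ aeval g H := by
    apply Finset.prod_dvd_of_isRelPrime
    · intro s _ s' _ hne
      apply relPrime_of
      · exact pow_ne_zero _ (h.e0 s s.2)
      · intro p hp h1 h2
        exact h.e_disj s.2 s'.2 (fun h0 => hne (Fin.ext h0)) hp (hp.dvd_of_dvd_pow h1)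
          (hp.dvd_of_dvd_pow h2)
    · intro s _
      exact hdvd s
  obtain ⟨w, hw⟩ := hprod
  have h1 : (∏ s : Fin 16, e s ^ mult (pt k s) H).IsHomogeneous
      (∑ s : Fin 16, μ s * mult (pt k s) H) :=
    IsHomogeneous.prod _ _ _ fun s _ => (h.he s s.2).pow _
  have h2 : (aeval g H).IsHomogeneous (d * H.totalDegree) := hH.aeval g h.hg
  obtain ⟨l, -, hl⟩ := homog_of_mul h1 h2 hw.symm hev
  omega

/-- The constants of the line bundle. -/
lemma consts (h : Good k n g e d μ j a b) : (17 * (d : ℤ) - ∑ s : Fin 16, (μ s : ℤ)) =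
    13 * d + 1 := by
  have := h.m1
  linarith

/-- Ampleness of the line bundle. -/
theorem ample (h : Good k n g e d μ j a b) [IsAlgClosed k] {N α : ℤ}
    (hNdef : N = (a : ℤ) ^ 2 + (b : ℤ) ^ 2) (hα : α = 13 * d + 1) :
    (LL d μ N α).Ample k := by
  have m1 := h.m1
  have hself := h.self
  have hN : 1 ≤ N := by
    have : (0 : ℤ) < a := by exact_mod_cast h.ha
    nlinarith [sq_nonneg (b : ℤ)]
  have hNpos : 0 < N := by linarith
  have hαpos : 0 < α := by rw [hα]; positivity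
  rw [← hNdef] at hself
  refine ⟨?_, ?_, ?_⟩
  · rw [LL_sq]
    have e1 : ∑ s : Fin 16, (μ s : ℤ) = 4 * d - 1 := by linarith
    have e2 : ∑ s : Fin 16, (μ s : ℤ) ^ 2 = (d : ℤ) ^ 2 + N := by linarith
    rw [e1, e2]
    have e3 : (13 * (N * 17 + α * d) + 4) ^ 2 - (16 * (13 * N + 1) ^ 2 +
        26 * α * (13 * N + 1) * (4 * d - 1) + 169 * α ^ 2 * ((d : ℤ) ^ 2 + N)) =
        169 * (273 * N ^ 2 + N * α * (2 * (13 * d + 1) - α)) + 26 * (52 * N + α) := by
      ring
    rw [e3, ← hα]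
    have e4 : 2 * α - α = α := by ring
    rw [e4]
    positivity
  · intro s
    have h1 : (LL d μ N α).m s = 13 * (N + α * μ s) + 1 := rfl
    rw [h1]
    have h2 : 0 ≤ α * (μ s : ℤ) := mul_nonneg hαpos.le (Nat.cast_nonneg _)
    linarith
  · intro G hG
    obtain ⟨hirr, hGh⟩ := hG
    rw [LL_dot]
    by_cases hev : aeval g G = 0
    · obtain ⟨δ, h1, h2, -⟩ := h.equation hirr hGh hev
      have hδ : 0 < δ := by
        rcases Nat.eq_zero_or_pos δ with h0 | h0
        · rw [h0, mul_zero] at h1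
          exact absurd h1 h.d_pos.ne'
        · exact h0
      have h1' : (d : ℤ) = G.totalDegree * δ := by exact_mod_cast h1
      have h2' : ∀ s : Fin 16, (μ s : ℤ) = mult (pt k s) G * δ := by
        intro s; exact_mod_cast h2 s
      set T : ℤ := (G.totalDegree : ℤ)
      set S : ℤ := ∑ s : Fin 16, (mult (pt k s) G : ℤ) with hS
      set U : ℤ := ∑ s : Fin 16, (μ s : ℤ) * mult (pt k s) G with hU
      have e1 : ∑ s : Fin 16, (μ s : ℤ) = S * δ := by
        rw [hS, Finset.sum_mul]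
        exact Finset.sum_congr rfl fun s _ => h2' s
      have e2 : ∑ s : Fin 16, (μ s : ℤ) ^ 2 = U * δ := by
        rw [hU, Finset.sum_mul]
        refine Finset.sum_congr rfl fun s _ => ?_
        rw [sq, mul_assoc, ← h2' s]
      rw [e1, h1'] at m1
      rw [e2] at hself
      have key : (13 * (N * (17 * T - S) + α * (d * T - U)) + (4 * T - S)) * δ = 1 := by
        have f1 : (17 * T - S) * δ = α := by
          rw [hα, h1']
          linear_combination m1
        have f2 : (d * T - U) * δ = -N := by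
          rw [← hself]
          rw [h1']
          ring
        have f3 : (4 * T - S) * δ = 1 := by linear_combination m1
        linear_combination 13 * N * f1 + 13 * α * f2 + f3
      have hδ' : (0 : ℤ) < δ := by exact_mod_cast hδ
      by_contra hcon
      push Not at hcon
      have := mul_nonpos_of_nonpos_of_nonneg hcon hδ'.le
      linarith
    · have h1 := h.inter_nonneg hGh hirr.ne_zero hev
      have h1' : ∑ s : Fin 16, (μ s : ℤ) * mult (pt k s) G ≤ d * G.totalDegree := by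
        exact_mod_cast h1
      have h2 : ∑ s : Fin 16, (mult (pt k s) G : ℤ) ≤ 16 * G.totalDegree := by
        calc ∑ s : Fin 16, (mult (pt k s) G : ℤ) ≤ ∑ s : Fin 16, (G.totalDegree : ℤ) := by
              apply Finset.sum_le_sum
              intro s _
              exact_mod_cast ((h.pd_s s).mult_le hGh hirr.ne_zero).1
          _ = 16 * G.totalDegree := by simp
      have h3 : (1 : ℤ) ≤ G.totalDegree := by
        have : G.totalDegree ≠ 0 := by
          intro h0
          rw [totalDegree_eq_zero_iff_eq_C] at h0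
          apply hirr.not_isUnit
          rw [h0]
          apply (IsUnit.mk0 _ _).map
          intro h4
          exact hirr.ne_zero (by rw [h0, h4, map_zero])
        omega
      set T : ℤ := (G.totalDegree : ℤ)
      set S : ℤ := ∑ s : Fin 16, (mult (pt k s) G : ℤ) with hS
      set U : ℤ := ∑ s : Fin 16, (μ s : ℤ) * mult (pt k s) G with hU
      have f1 : T ≤ 17 * T - S := by linarith
      have f2 : T ≤ N * (17 * T - S) := by nlinarith
      have f3 : 0 ≤ α * (d * T - U) := mul_nonneg hαpos.le (by linarith)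
      linarith

/-- For every good parametrisation: an ample line bundle of degree one on a curve of large
multiplicity at the node. -/
theorem main (h : Good k n g e d μ j a b) [IsAlgClosed k] :
    ∃ L : Bundle, L.Ample k ∧ ∃ G : MvPolynomial (Fin 3) k, IsCurve G ∧ L.dot G = 1 ∧
      mult (fun i => (ndp j i : k)) G = min a b ∧
      MvPolynomial.eval (fun i => (ndp j i : k)) G = 0 := by
  obtain ⟨G, hirr, hG, hev⟩ := exists_eq h.d_pos h.hg
  obtain ⟨δ, h1, h2, h3⟩ := h.equation hirr hG hev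
  obtain ⟨N, hNdef⟩ : ∃ N : ℤ, N = (a : ℤ) ^ 2 + (b : ℤ) ^ 2 := ⟨_, rfl⟩
  obtain ⟨α, hα⟩ : ∃ α : ℤ, α = 13 * d + 1 := ⟨_, rfl⟩
  have hA := h.ample hNdef hα
  refine ⟨_, hA, G, ⟨hirr, hG⟩, ?_⟩
  have hdot := hA.2.2 G ⟨hirr, hG⟩
  have m1 := h.m1
  have hself := h.self
  rw [← hNdef] at hself
  have h1' : (d : ℤ) = G.totalDegree * δ := by exact_mod_cast h1
  have h2' : ∀ s : Fin 16, (μ s : ℤ) = mult (pt k s) G * δ := by
    intro s; exact_mod_cast h2 s
  have key : (LL d μ N α).dot G * δ = 1 := by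
    rw [LL_dot]
    set T : ℤ := (G.totalDegree : ℤ)
    set S : ℤ := ∑ s : Fin 16, (mult (pt k s) G : ℤ) with hS
    set U : ℤ := ∑ s : Fin 16, (μ s : ℤ) * mult (pt k s) G with hU
    have e1 : ∑ s : Fin 16, (μ s : ℤ) = S * δ := by
      rw [hS, Finset.sum_mul]
      exact Finset.sum_congr rfl fun s _ => h2' s
    have e2 : ∑ s : Fin 16, (μ s : ℤ) ^ 2 = U * δ := by
      rw [hU, Finset.sum_mul]
      refine Finset.sum_congr rfl fun s _ => ?_
      rw [sq, mul_assoc, ← h2' s]
    rw [e1, h1'] at m1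
    rw [e2] at hself
    have f1 : (17 * T - S) * δ = α := by
      rw [hα, h1']
      linear_combination m1
    have f2 : (d * T - U) * δ = -N := by
      rw [← hself]
      rw [h1']
      ring
    have f3 : (4 * T - S) * δ = 1 := by linear_combination m1
    linear_combination 13 * N * f1 + 13 * α * f2 + f3
  have hδ1 : (δ : ℤ) = 1 := by
    have hd : (δ : ℤ) ∣ 1 := Dvd.intro_left _ key
    exact Int.eq_one_of_dvd_one (by positivity) hd
  have hδ : δ = 1 := by exact_mod_cast hδ1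
  rw [hδ1, mul_one] at key
  rw [hδ, mul_one] at h3
  refine ⟨key, h3.symm, ?_⟩
  have h4 := ((h.pd_node).mult_le hG hirr.ne_zero).2
  have h5 : mult (fun i => (ndp j i : k)) G ≠ 0 := by
    rw [← h3]
    have := h.ha
    have := h.hb
    omega
  exact eval_eq_zero_of_mem (Ideal.pow_le_self h5 h4)

end Good

lemma c50 : ∀ j < 3, ∀ s : Fin 16,
    (ndp j 0 * pts s 1) % 11 ≠ (ndp j 1 * pts s 0) % 11 ∨
    (ndp j 0 * pts s 2) % 11 ≠ (ndp j 2 * pts s 0) % 11 ∨
    (ndp j 1 * pts s 2) % 11 ≠ (ndp j 2 * pts s 1) % 11 := by decide +kernel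

lemma c51 : ∀ j < 3, ndp j 0 % 11 ≠ 0 := by decide +kernel

/-- The nodes are not blown up. -/
lemma node_isPoint {j : ℕ} (hj : j < 3) : IsPoint (fun i => (ndp j i : k)) := by
  constructor
  · intro h0
    exact cast_ne_of_mod (k := k) (c51 j hj) (congrFun h0 0)
  · intro s c hc
    have e : ∀ i, (ndp j i : k) = c * (pts s i : k) := fun i => congrFun hc i
    have key : ∀ x y : Fin 3, ((ndp j x * pts s y : ℕ) : k) = ((ndp j y * pts s x : ℕ) : k) := by
      intro x y
      push_cast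
      rw [e x, e y]
      ring
    have key2 : ∀ x y : Fin 3, (ndp j x * pts s y) % 11 = (ndp j y * pts s x) % 11 := by
      intro x y
      have := (CharP.cast_eq_iff_mod_eq k 11).mp (key x y)
      exact this
    rcases c50 j hj s with h | h | h
    · exact h (key2 0 1)
    · exact h (key2 0 2)
    · exact h (key2 1 2)

/-- The main theorem. -/
theorem seshadri_zero (k : Type*) [Field k] [IsAlgClosed k] [CharP k 11] :
    ∃ P : Fin 3 → k, IsPoint P ∧ ∀ N : ℕ, ∃ L : Bundle, L.Ample k ∧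
      ∃ G : MvPolynomial (Fin 3) k, IsCurve G ∧ L.dot G = 1 ∧ N ≤ mult P G := by
  by_contra hcon
  push Not at hcon
  have h3 : ∀ j < 3, ∃ N : ℕ, ∀ L : Bundle, L.Ample k →
      ∀ G : MvPolynomial (Fin 3) k, IsCurve G → L.dot G = 1 →
        mult (fun i => (ndp j i : k)) G < N := by
    intro j hj
    exact hcon _ (node_isPoint hj)
  obtain ⟨N0, h0⟩ := h3 0 (by norm_num)
  obtain ⟨N1, h1⟩ := h3 1 (by norm_num)
  obtain ⟨N2, h2⟩ := h3 2 (by norm_num)
  set N := N0 + N1 + N2 with hN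
  have hall : ∀ j < 3, ∀ L : Bundle, L.Ample k →
      ∀ G : MvPolynomial (Fin 3) k, IsCurve G → L.dot G = 1 →
        mult (fun i => (ndp j i : k)) G < N := by
    intro j hj L hL G hG hdot
    interval_cases j
    · exact lt_of_lt_of_le (h0 L hL G hG hdot) (by omega)
    · exact lt_of_lt_of_le (h1 L hL G hG hdot) (by omega)
    · exact lt_of_lt_of_le (h2 L hL G hG hdot) (by omega)
  -- a large even index
  obtain ⟨g, e, d, μ, j, a, b, h⟩ := exists_good k (2 * (5 * N ^ 2) + 1)
  have hq := h.quad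
  rw [show 2 * (5 * N ^ 2) + 1 + 1 = 2 * (5 * N ^ 2 + 1) by ring] at hq
  have hgrow := min_growth h.ha h.hb hq
  obtain ⟨L, hL, G, hG, hdot, hmult, -⟩ := h.main
  have hlt := hall j h.hj L hL G hG hdot
  rw [hmult] at hlt
  have h4 : 5 * N ^ 2 < 11 ^ (5 * N ^ 2 + 1) :=
    (Nat.lt_succ_self _).trans (Nat.lt_pow_self (by norm_num))
  have h5 : 2 * 11 ^ (5 * N ^ 2 + 1) ≤ 5 * min a b ^ 2 := by exact_mod_cast hgrow
  have h6 : min a b ^ 2 ≤ N ^ 2 := Nat.pow_le_pow_left hlt.le 2
  omega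

end

end Pool.Agent.H51Seshadri
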