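import Pool.Agent.H51Seshadri.Surface
import Pool.Agent.H51Seshadri.FF1

/-!
Multiplicities of plane curves and linear changes of coordinates.
-/

namespace Pool.Agent.H51Seshadri
open MvPolynomial

section
variable {k : Type*} [Field k]

/-- Substitution of a linear map. -/
noncomputable def lin (A : Matrix (Fin 3) (Fin 3) k) :
    MvPolynomial (Fin 3) k →ₐ[k] MvPolynomial (Fin 3) k :=
  aeval (fun i => ∑ j, C (A i j) * X j)

lemma lin_X (A : Matrix (Fin 3) (Fin 3) k) (i : Fin 3) : lin A (X i) = ∑ j, C (A i j) * X j := by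
  simp [lin]

lemma aeval_lin {R : Type*} [CommRing R] [Algebra k R] (A : Matrix (Fin 3) (Fin 3) k)
    (g : Fin 3 → R) (G : MvPolynomial (Fin 3) k) :
    aeval g (lin A G) = aeval (fun i => ∑ j, algebraMap k R (A i j) * g j) G := by
  have : (aeval g).comp (lin A) = aeval (fun i => ∑ j, algebraMap k R (A i j) * g j) := by
    apply MvPolynomial.algHom_ext
    intro i
    simp [lin_X, map_sum]
  exact DFunLike.congr_fun this G

lemma eval_lin (A : Matrix (Fin 3) (Fin 3) k) (P : Fin 3 → k) (G : MvPolynomial (Fin 3) k) :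
    MvPolynomial.eval P (lin A G) = MvPolynomial.eval (A.mulVec P) G := by
  have h := aeval_lin A P G
  exact h

lemma lin_comp (A B : Matrix (Fin 3) (Fin 3) k) (G : MvPolynomial (Fin 3) k) :
    lin A (lin B G) = lin (B * A) G := by
  have : (lin A).comp (lin B) = lin (B * A) := by
    apply MvPolynomial.algHom_ext
    intro i
    simp only [AlgHom.comp_apply, lin_X, map_sum, map_mul]
    have h1 : ∀ a, lin A (C a) = C a := fun a => (lin A).commutes a
    simp only [h1, lin_X, Matrix.mul_apply, map_sum, map_mul, Finset.sum_mul, Finset.mul_sum]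
    rw [Finset.sum_comm]
    refine Finset.sum_congr rfl fun j _ => Finset.sum_congr rfl fun l _ => ?_
    ring
  exact DFunLike.congr_fun this G

lemma lin_one (G : MvPolynomial (Fin 3) k) : lin (1 : Matrix (Fin 3) (Fin 3) k) G = G := by
  have : lin (1 : Matrix (Fin 3) (Fin 3) k) = AlgHom.id k _ := by
    apply MvPolynomial.algHom_ext
    intro i
    rw [lin_X, Finset.sum_eq_single i]
    · simp
    · intro j _ hj
      rw [Matrix.one_apply_ne (Ne.symm hj)]
      simp
    · intro h; exact absurd (Finset.mem_univ _) h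
  rw [this]; rfl

lemma lin_hom (A : Matrix (Fin 3) (Fin 3) k) {G : MvPolynomial (Fin 3) k} {m : ℕ}
    (hG : G.IsHomogeneous m) : (lin A G).IsHomogeneous m := by
  have h := hG.aeval (n := 1) (fun i => ∑ j, C (A i j) * X j) (fun i => by
    apply IsHomogeneous.sum
    intro j _
    exact isHomogeneous_C_mul_X _ _)
  rw [one_mul] at h
  exact h

/-- Invertible substitutions as equivalences. -/
noncomputable def linEquiv {A B : Matrix (Fin 3) (Fin 3) k} (h1 : A * B = 1) (h2 : B * A = 1) :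
    MvPolynomial (Fin 3) k ≃ₐ[k] MvPolynomial (Fin 3) k :=
  AlgEquiv.ofAlgHom (lin A) (lin B)
    (by apply AlgHom.ext; intro G; simp [lin_comp, h2, lin_one])
    (by apply AlgHom.ext; intro G; simp [lin_comp, h1, lin_one])

lemma lin_irreducible {A B : Matrix (Fin 3) (Fin 3) k} (h1 : A * B = 1) (h2 : B * A = 1)
    {G : MvPolynomial (Fin 3) k} (hG : Irreducible G) : Irreducible (lin A G) := by
  have : lin A G = linEquiv h1 h2 G := rfl
  rw [this]
  exact (MulEquiv.irreducible_iff (linEquiv h1 h2)).mpr hG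

lemma eval_smul_of_hom {L : MvPolynomial (Fin 3) k} {m : ℕ} (hL : L.IsHomogeneous m) (c : k)
    (P : Fin 3 → k) : MvPolynomial.eval (c • P) L = c ^ m * MvPolynomial.eval P L :=
  aeval_scale (A := k) hL c P

lemma lin_mem {A : Matrix (Fin 3) (Fin 3) k} {P Q : Fin 3 → k} {c : k}
    (h : A.mulVec P = c • Q) {m : ℕ} {G : MvPolynomial (Fin 3) k} (hG : G ∈ ptIdeal Q ^ m) :
    lin A G ∈ ptIdeal P ^ m := by
  have h1 : Ideal.map (lin A) (ptIdeal Q) ≤ ptIdeal P := by
    unfold ptIdeal
    rw [Ideal.map_span, Ideal.span_le]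
    rintro _ ⟨L, ⟨hL, hL0⟩, rfl⟩
    apply Ideal.subset_span
    refine ⟨lin_hom A hL, ?_⟩
    rw [eval_lin, h, eval_smul_of_hom hL, hL0, mul_zero]
  have h2 := Ideal.mem_map_of_mem (lin A) hG
  rw [Ideal.map_pow] at h2
  exact Ideal.pow_right_mono h1 m h2

/-! The point `(0 : 0 : 1)`. -/

/-- The vector `(0, 0, 1)`. -/
def e2 (k : Type*) [Field k] : Fin 3 → k := ![0, 0, 1]

/-- Grading by the first two variables. -/
noncomputable def tauHom : MvPolynomial (Fin 3) k →ₐ[k] Polynomial (MvPolynomial (Fin 3) k) :=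
  aeval ![Polynomial.X * Polynomial.C (X 0), Polynomial.X * Polynomial.C (X 1),
    Polynomial.C (X 2)]

lemma tau_eq (G : MvPolynomial (Fin 3) k) : tauHom G = ∑ s ∈ G.support,
    Polynomial.monomial (s 0 + s 1) (MvPolynomial.monomial s (G.coeff s)) := by
  rw [tauHom, aeval_def, eval₂_eq']
  refine Finset.sum_congr rfl fun s _ => ?_
  simp only [Fin.prod_univ_three, Matrix.cons_val_zero, Matrix.cons_val_one,
      Matrix.cons_val_two, Matrix.tail_cons, Matrix.head_cons]
  rw [← Polynomial.C_mul_X_pow_eq_monomial, MvPolynomial.monomial_eq, Finsupp.prod_fintype]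
  · rw [Fin.prod_univ_three]
    simp only [map_mul, map_pow]
    have : (algebraMap k (Polynomial (MvPolynomial (Fin 3) k))) (G.coeff s) =
      Polynomial.C (C (G.coeff s)) := rfl
    rw [this]
    ring
  · intro i; simp

lemma tau_coeff (G : MvPolynomial (Fin 3) k) {s : Fin 3 →₀ ℕ} (hs : s ∈ G.support) :
    ((tauHom G).coeff (s 0 + s 1)).coeff s = G.coeff s := by
  classical
  rw [tau_eq, Polynomial.finsetSum_coeff, coeff_sum, Finset.sum_eq_single s]
  · rw [Polynomial.coeff_monomial, if_pos rfl, coeff_monomial, if_pos rfl]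
  · intro s' _ hne
    rw [Polynomial.coeff_monomial]
    split_ifs
    · rw [coeff_monomial, if_neg hne]
    · simp
  · intro h; exact absurd hs h

lemma tau_dvd {G : MvPolynomial (Fin 3) k} {m : ℕ} (hG : G ∈ ptIdeal (e2 k) ^ m) :
    (Polynomial.X : Polynomial (MvPolynomial (Fin 3) k)) ^ m ∣ tauHom G := by
  have h1 : Ideal.map (tauHom (k := k)) (ptIdeal (e2 k)) ≤ Ideal.span {Polynomial.X} := by
    unfold ptIdeal
    rw [Ideal.map_span, Ideal.span_le]
    rintro _ ⟨L, ⟨hL, hL0⟩, rfl⟩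
    rw [SetLike.mem_coe, Ideal.mem_span_singleton, Polynomial.X_dvd_iff,
      Polynomial.coeff_zero_eq_eval_zero]
    have h2 : ((Polynomial.evalRingHom (0 : MvPolynomial (Fin 3) k)).comp
        (tauHom (k := k)).toRingHom) = (aeval (fun i => X 2 *
          algebraMap k (MvPolynomial (Fin 3) k) (e2 k i))).toRingHom := by
      apply MvPolynomial.ringHom_ext
      · intro r
        simp [tauHom]
      · intro i
        fin_cases i <;> simp [tauHom, e2]
    have h3 : Polynomial.eval 0 (tauHom L) = aeval (fun i => X 2 *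
          algebraMap k (MvPolynomial (Fin 3) k) (e2 k i)) L := DFunLike.congr_fun h2 L
    change Polynomial.eval 0 (tauHom L) = 0
    rw [h3, aeval_scale hL]
    have h4 := MvPolynomial.aeval_algebraMap_apply (B := MvPolynomial (Fin 3) k) (e2 k) L
    have h5 : aeval (fun i => algebraMap k (MvPolynomial (Fin 3) k) (e2 k i)) L =
        algebraMap k (MvPolynomial (Fin 3) k) (MvPolynomial.eval (e2 k) L) := h4
    rw [h5, hL0, map_zero, mul_zero]
  have h2 := Ideal.mem_map_of_mem (tauHom (k := k)) hG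
  rw [Ideal.map_pow] at h2
  have h3 := Ideal.pow_right_mono h1 m h2
  rwa [Ideal.span_singleton_pow, Ideal.mem_span_singleton] at h3

lemma mem_e2_iff {G : MvPolynomial (Fin 3) k} {D : ℕ} (hG : G.IsHomogeneous D) (h0 : G ≠ 0)
    (m : ℕ) : G ∈ ptIdeal (e2 k) ^ m ↔ m + G.degreeOf 2 ≤ D := by
  constructor
  · intro h
    have hsup : G.support.Nonempty := by
      rw [Finset.nonempty_iff_ne_empty]
      intro h
      exact h0 (MvPolynomial.support_eq_empty.mp h)
    obtain ⟨s, hs, hs'⟩ := Finset.exists_mem_eq_sup _ hsup (fun s => s 2)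
    rw [degreeOf_eq_sup, hs']
    have h1 := tau_dvd h
    rw [Polynomial.X_pow_dvd_iff] at h1
    have h2 := sum_eq_of_hom hG hs
    rw [Fin.sum_univ_three] at h2
    by_contra hcon
    have h3 := h1 (s 0 + s 1) (by omega)
    have h4 := tau_coeff G hs
    rw [h3, coeff_zero] at h4
    exact MvPolynomial.mem_support_iff.mp hs h4.symm
  · intro h
    have hX0 : (X 0 : MvPolynomial (Fin 3) k) ∈ ptIdeal (e2 k) :=
      Ideal.subset_span ⟨isHomogeneous_X _ _, by simp [e2]⟩
    have hX1 : (X 1 : MvPolynomial (Fin 3) k) ∈ ptIdeal (e2 k) :=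
      Ideal.subset_span ⟨isHomogeneous_X _ _, by simp [e2]⟩
    rw [MvPolynomial.as_sum G]
    apply Ideal.sum_mem
    intro s hs
    have h2 := sum_eq_of_hom hG hs
    rw [Fin.sum_univ_three] at h2
    have h3 := monomial_le_degreeOf 2 hs
    rw [MvPolynomial.monomial_eq, Finsupp.prod_fintype _ _ (by intro i; simp),
      Fin.prod_univ_three]
    have h4 : (X 0 ^ s 0 * X 1 ^ s 1 : MvPolynomial (Fin 3) k) ∈ ptIdeal (e2 k) ^ m := by
      have := Ideal.mul_mem_mul (Ideal.pow_mem_pow hX0 (s 0)) (Ideal.pow_mem_pow hX1 (s 1))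
      rw [← pow_add] at this
      exact Ideal.pow_le_pow_right (by omega) this
    exact Ideal.mul_mem_left _ _ (Ideal.mul_mem_right _ _ h4)

/-- Multiplicity through adapted coordinates. -/
theorem mem_iff {P : Fin 3 → k} {A B : Matrix (Fin 3) (Fin 3) k} (_h1 : A * B = 1)
    (h2 : B * A = 1) {c : k} (hc : c ≠ 0) (hP : A.mulVec P = c • e2 k)
    {G : MvPolynomial (Fin 3) k} {D : ℕ} (hG : G.IsHomogeneous D) (h0 : G ≠ 0) (m : ℕ) :
    G ∈ ptIdeal P ^ m ↔ m + (lin B G).degreeOf 2 ≤ D := by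
  have hB : B.mulVec (e2 k) = c⁻¹ • P := by
    have : e2 k = c⁻¹ • A.mulVec P := by rw [hP, smul_smul, inv_mul_cancel₀ hc, one_smul]
    rw [this, Matrix.mulVec_smul, Matrix.mulVec_mulVec, h2, Matrix.one_mulVec]
  have hne : lin B G ≠ 0 := by
    intro h
    apply h0
    have : lin A (lin B G) = G := by rw [lin_comp, h2, lin_one]
    rw [← this, h, map_zero]
  rw [← mem_e2_iff (lin_hom B hG) hne]
  constructor
  · intro h
    exact lin_mem hB h
  · intro h
    have := lin_mem hP h
    rwa [lin_comp, h2, lin_one] at this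

theorem mult_eq {P : Fin 3 → k} {A B : Matrix (Fin 3) (Fin 3) k} (h1 : A * B = 1)
    (h2 : B * A = 1) {c : k} (hc : c ≠ 0) (hP : A.mulVec P = c • e2 k)
    {G : MvPolynomial (Fin 3) k} {D : ℕ} (hG : G.IsHomogeneous D) (h0 : G ≠ 0) :
    mult P G + (lin B G).degreeOf 2 = D := by
  have hle : (lin B G).degreeOf 2 ≤ D := by
    have := (mem_iff h1 h2 hc hP hG h0 0).mp (by rw [pow_zero, Ideal.one_eq_top]; trivial)
    omega
  have hset : {m : ℕ | G ∈ ptIdeal P ^ m} = Set.Iic (D - (lin B G).degreeOf 2) := by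
    ext m
    rw [Set.mem_ofPred_eq, mem_iff h1 h2 hc hP hG h0, Set.mem_Iic]
    omega
  rw [mult, hset, csSup_Iic]
  omega

theorem mem_mult {P : Fin 3 → k} {A B : Matrix (Fin 3) (Fin 3) k} (h1 : A * B = 1)
    (h2 : B * A = 1) {c : k} (hc : c ≠ 0) (hP : A.mulVec P = c • e2 k)
    {G : MvPolynomial (Fin 3) k} {D : ℕ} (hG : G.IsHomogeneous D) (h0 : G ≠ 0) :
    G ∈ ptIdeal P ^ mult P G := by
  rw [mem_iff h1 h2 hc hP hG h0, mult_eq h1 h2 hc hP hG h0]

/-- Substitution of a curve into an element of a power of the ideal of a point. -/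
lemma pow_dvd_aeval {R : Type*} [CommRing R] [Algebra k R] {P : Fin 3 → k} {g : Fin 3 → R}
    {e : R} (he : ∀ L : MvPolynomial (Fin 3) k, L.IsHomogeneous 1 → MvPolynomial.eval P L = 0 →
      e ∣ aeval g L) {m : ℕ} {G : MvPolynomial (Fin 3) k} (hG : G ∈ ptIdeal P ^ m) :
    e ^ m ∣ aeval g G := by
  have h1 : Ideal.map (aeval g : MvPolynomial (Fin 3) k →ₐ[k] R) (ptIdeal P) ≤
      Ideal.span {e} := by
    unfold ptIdeal
    rw [Ideal.map_span, Ideal.span_le]
    rintro _ ⟨L, ⟨hL, hL0⟩, rfl⟩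
    rw [SetLike.mem_coe, Ideal.mem_span_singleton]
    exact he L hL hL0
  have h2 := Ideal.mem_map_of_mem (aeval g : MvPolynomial (Fin 3) k →ₐ[k] R) hG
  rw [Ideal.map_pow] at h2
  have h3 := Ideal.pow_right_mono h1 m h2
  rwa [Ideal.span_singleton_pow, Ideal.mem_span_singleton] at h3

end

end Pool.Agent.H51Seshadri
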