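import Pool.Agent.H51Seshadri.Step3

/-!
Numerical consequences of the invariants: degrees on the lines and the self-intersection number.
-/

namespace Pool.Agent.H51Seshadri
open MvPolynomial

set_option linter.unusedSectionVars false

/-- The intersection form in terms of two isotropic classes and the fifteen lines. -/
lemma quad_id (d m0 m1 m2 m3 m4 m5 m6 m7 m8 m9 m10 m11 m12 m13 m14 m15 : ℤ) :
    4 * (d ^ 2 - (m0 ^ 2 + m1 ^ 2 + m2 ^ 2 + m3 ^ 2 + m4 ^ 2 + m5 ^ 2 + m6 ^ 2 + m7 ^ 2 + m8 ^ 2 + m9 ^ 2 + m10 ^ 2 + m11 ^ 2 + m12 ^ 2 + m13 ^ 2 + m14 ^ 2 + m15 ^ 2)) =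
      2 * (4 * d - (m0 + m1 + m2 + m3 + m4 + m5 + m6 + m7 + m8 + m9 + m10 + m11 + m12 + m13 + m14 + m15)) *
        (8 * d - (3 * (m0 + m1 + m2 + m3 + m4 + m5) + (m6 + m7 + m8 + m9 + m10 + m11 + m12 + m13 + m14 + m15))) -
      (((d - (m4 + m5 + m12 + m13)) ^ 2 + (d - (m2 + m3 + m8 + m9)) ^ 2 + (d - (m0 + m1 + m6 + m7)) ^ 2 + ((d - (m4 + m5 + m12 + m13)) + (d - (m2 + m3 + m8 + m9)) + (d - (m0 + m1 + m6 + m7))) ^ 2) +
        ((d - (m0 + m5 + m8 + m14)) ^ 2 + (d - (m1 + m2 + m11 + m13)) ^ 2 + (d - (m3 + m4 + m7 + m15)) ^ 2 + ((d - (m0 + m5 + m8 + m14)) + (d - (m1 + m2 + m11 + m13)) + (d - (m3 + m4 + m7 + m15))) ^ 2) +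
        ((d - (m3 + m5 + m6 + m11)) ^ 2 + (d - (m0 + m2 + m12 + m15)) ^ 2 + (d - (m1 + m4 + m8 + m10)) ^ 2 + ((d - (m3 + m5 + m6 + m11)) + (d - (m0 + m2 + m12 + m15)) + (d - (m1 + m4 + m8 + m10))) ^ 2) +
        ((d - (m2 + m5 + m7 + m10)) ^ 2 + (d - (m1 + m3 + m12 + m14)) ^ 2 + (d - (m0 + m4 + m9 + m11)) ^ 2 + ((d - (m2 + m5 + m7 + m10)) + (d - (m1 + m3 + m12 + m14)) + (d - (m0 + m4 + m9 + m11))) ^ 2) +
        ((d - (m1 + m5 + m9 + m15)) ^ 2 + (d - (m0 + m3 + m10 + m13)) ^ 2 + (d - (m2 + m4 + m6 + m14)) ^ 2 + ((d - (m1 + m5 + m9 + m15)) + (d - (m0 + m3 + m10 + m13)) + (d - (m2 + m4 + m6 + m14))) ^ 2)) := by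
  ring

lemma sub_form {d x y z w v : ℕ} (h : d = x + y + z + w + v) :
    ((d : ℤ) - ((x : ℤ) + y + z + w)) = v := by
  subst h; push_cast; ring

lemma sub_form0 {d x y z w : ℕ} (h : d = x + y + z + w + 0) :
    ((d : ℤ) - ((x : ℤ) + y + z + w)) = 0 := by
  subst h; push_cast; ring

section
variable {F : Type*} [Field F] [CharP F 11]
variable {n : ℕ} {g : Fin 3 → MvPolynomial (Fin 2) F} {e : ℕ → MvPolynomial (Fin 2) F}
    {d : ℕ} {μ : ℕ → ℕ} {j a b : ℕ}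

namespace Good

lemma ell_ne (h : Good F n g e d μ j a b) {k : ℕ} (hk : k < 15) : ell k g ≠ 0 := by
  obtain ⟨c, hc0, hc⟩ := h.I1 k hk
  rw [hc]
  refine mul_ne_zero (C_ne_zero.mpr hc0) (mul_ne_zero ?_ ?_)
  · exact Finset.prod_ne_zero_iff.mpr fun l _ => h.e0 _ (c8 k hk l).1
  · exact Finset.prod_ne_zero_iff.mpr fun i _ => pow_ne_zero _ (lam_prime i.2).ne_zero

lemma deg_line (h : Good F n g e d μ j a b) {k : ℕ} (hk : k < 15) :
    d = (∑ l : Fin 4, μ (dd k l)) + ∑ i : Fin 3, ex a b k i j := by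
  obtain ⟨c, hc0, hc⟩ := h.I1 k hk
  have h1 := ell_hom h.hg k
  have h2 := IsHomogeneous.prod Finset.univ (fun l : Fin 4 => e (dd k l))
    (fun l : Fin 4 => μ (dd k l)) (fun l _ => h.he _ (c8 k hk l).1)
  have h3 := IsHomogeneous.prod Finset.univ (fun i : Fin 3 => lam F i ^ ex a b k i j)
    (fun i : Fin 3 => 1 * ex a b k i j) (fun i _ => (lam_hom i.2).pow _)
  have h4 := (isHomogeneous_C (Fin 2) c).mul (h2.mul h3)
  rw [← hc] at h4
  have := h1.inj_right h4 (h.ell_ne hk)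
  simpa using this

theorem self (h : Good F n g e d μ j a b) :
    (d : ℤ) ^ 2 - ∑ s : Fin 16, (μ s : ℤ) ^ 2 = -((a : ℤ) ^ 2 + (b : ℤ) ^ 2) := by
  have hdl := fun k hk => h.deg_line (k := k) hk
  have m1 := h.m1
  have m2 := h.m2
  have hq := h.quad
  have hj := h.hj
  have s1 : ∑ s : Fin 16, (μ s : ℤ) = (μ 0 + μ 1 + μ 2 + μ 3 + μ 4 + μ 5 + μ 6 + μ 7 + μ 8 + μ 9 + μ 10 + μ 11 + μ 12 + μ 13 + μ 14 + μ 15 : ℤ) := by
    simp only [Fin.sum_univ_succ, Fin.sum_univ_zero]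
    change (μ 0 : ℤ) + ((μ 1 : ℤ) + ((μ 2 : ℤ) + ((μ 3 : ℤ) + ((μ 4 : ℤ) + ((μ 5 : ℤ) + ((μ 6 : ℤ) + ((μ 7 : ℤ) + ((μ 8 : ℤ) + ((μ 9 : ℤ) + ((μ 10 : ℤ) + ((μ 11 : ℤ) + ((μ 12 : ℤ) + ((μ 13 : ℤ) + ((μ 14 : ℤ) + ((μ 15 : ℤ) + 0))))))))))))))) = _
    ring
  have s2 : ∑ s : Fin 16, (wt s : ℤ) * (μ s : ℤ) = (3 * (μ 0 + μ 1 + μ 2 + μ 3 + μ 4 + μ 5) +
      (μ 6 + μ 7 + μ 8 + μ 9 + μ 10 + μ 11 + μ 12 + μ 13 + μ 14 + μ 15) : ℤ) := by
    simp only [Fin.sum_univ_succ, Fin.sum_univ_zero]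
    change 3 * (μ 0 : ℤ) + (3 * (μ 1 : ℤ) + (3 * (μ 2 : ℤ) + (3 * (μ 3 : ℤ) + (3 * (μ 4 : ℤ) + (3 * (μ 5 : ℤ) + (1 * (μ 6 : ℤ) + (1 * (μ 7 : ℤ) + (1 * (μ 8 : ℤ) + (1 * (μ 9 : ℤ) + (1 * (μ 10 : ℤ) + (1 * (μ 11 : ℤ) + (1 * (μ 12 : ℤ) + (1 * (μ 13 : ℤ) + (1 * (μ 14 : ℤ) + (1 * (μ 15 : ℤ) + 0))))))))))))))) = _
    ring
  have s3 : ∑ s : Fin 16, (μ s : ℤ) ^ 2 = (μ 0 ^ 2 + μ 1 ^ 2 + μ 2 ^ 2 + μ 3 ^ 2 + μ 4 ^ 2 + μ 5 ^ 2 + μ 6 ^ 2 + μ 7 ^ 2 + μ 8 ^ 2 + μ 9 ^ 2 + μ 10 ^ 2 + μ 11 ^ 2 + μ 12 ^ 2 + μ 13 ^ 2 + μ 14 ^ 2 + μ 15 ^ 2 : ℤ) := by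
    simp only [Fin.sum_univ_succ, Fin.sum_univ_zero]
    change (μ 0 : ℤ) ^ 2 + ((μ 1 : ℤ) ^ 2 + ((μ 2 : ℤ) ^ 2 + ((μ 3 : ℤ) ^ 2 + ((μ 4 : ℤ) ^ 2 + ((μ 5 : ℤ) ^ 2 + ((μ 6 : ℤ) ^ 2 + ((μ 7 : ℤ) ^ 2 + ((μ 8 : ℤ) ^ 2 + ((μ 9 : ℤ) ^ 2 + ((μ 10 : ℤ) ^ 2 + ((μ 11 : ℤ) ^ 2 + ((μ 12 : ℤ) ^ 2 + ((μ 13 : ℤ) ^ 2 + ((μ 14 : ℤ) ^ 2 + ((μ 15 : ℤ) ^ 2 + 0))))))))))))))) = _
    ring
  rw [s1] at m1
  rw [s2] at m2
  rw [s3]
  have q := quad_id d (μ 0) (μ 1) (μ 2) (μ 3) (μ 4) (μ 5) (μ 6) (μ 7) (μ 8) (μ 9) (μ 10) (μ 11) (μ 12) (μ 13) (μ 14) (μ 15)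
  rw [m1, m2, ← hq] at q
  have t0 : ∑ l : Fin 4, μ (dd 0 l) = μ 4 + μ 5 + μ 12 + μ 13 := by
    rw [Fin.sum_univ_four]; rfl
  have t1 : ∑ l : Fin 4, μ (dd 1 l) = μ 2 + μ 3 + μ 8 + μ 9 := by
    rw [Fin.sum_univ_four]; rfl
  have t2 : ∑ l : Fin 4, μ (dd 2 l) = μ 0 + μ 1 + μ 6 + μ 7 := by
    rw [Fin.sum_univ_four]; rfl
  have t3 : ∑ l : Fin 4, μ (dd 3 l) = μ 0 + μ 5 + μ 8 + μ 14 := by
    rw [Fin.sum_univ_four]; rfl
  have t4 : ∑ l : Fin 4, μ (dd 4 l) = μ 3 + μ 5 + μ 6 + μ 11 := by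
    rw [Fin.sum_univ_four]; rfl
  have t5 : ∑ l : Fin 4, μ (dd 5 l) = μ 2 + μ 5 + μ 7 + μ 10 := by
    rw [Fin.sum_univ_four]; rfl
  have t6 : ∑ l : Fin 4, μ (dd 6 l) = μ 1 + μ 5 + μ 9 + μ 15 := by
    rw [Fin.sum_univ_four]; rfl
  have t7 : ∑ l : Fin 4, μ (dd 7 l) = μ 1 + μ 3 + μ 12 + μ 14 := by
    rw [Fin.sum_univ_four]; rfl
  have t8 : ∑ l : Fin 4, μ (dd 8 l) = μ 0 + μ 2 + μ 12 + μ 15 := by
    rw [Fin.sum_univ_four]; rfl
  have t9 : ∑ l : Fin 4, μ (dd 9 l) = μ 0 + μ 3 + μ 10 + μ 13 := by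
    rw [Fin.sum_univ_four]; rfl
  have t10 : ∑ l : Fin 4, μ (dd 10 l) = μ 1 + μ 2 + μ 11 + μ 13 := by
    rw [Fin.sum_univ_four]; rfl
  have t11 : ∑ l : Fin 4, μ (dd 11 l) = μ 1 + μ 4 + μ 8 + μ 10 := by
    rw [Fin.sum_univ_four]; rfl
  have t12 : ∑ l : Fin 4, μ (dd 12 l) = μ 3 + μ 4 + μ 7 + μ 15 := by
    rw [Fin.sum_univ_four]; rfl
  have t13 : ∑ l : Fin 4, μ (dd 13 l) = μ 2 + μ 4 + μ 6 + μ 14 := by
    rw [Fin.sum_univ_four]; rfl
  have t14 : ∑ l : Fin 4, μ (dd 14 l) = μ 0 + μ 4 + μ 9 + μ 11 := by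
    rw [Fin.sum_univ_four]; rfl
  interval_cases j
  · have u0 : ∑ i : Fin 3, ex a b 0 i 0 = 0 := by
      simp [Fin.sum_univ_three, ex, cl, nth, clTab]
    have e0 : ((d : ℤ) - (μ 4 + μ 5 + μ 12 + μ 13)) = 0 := by
      have := hdl 0 (by norm_num)
      rw [t0, u0] at this
      exact sub_form0 this
    have u1 : ∑ i : Fin 3, ex a b 1 i 0 = 0 := by
      simp [Fin.sum_univ_three, ex, cl, nth, clTab]
    have e1 : ((d : ℤ) - (μ 2 + μ 3 + μ 8 + μ 9)) = 0 := by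
      have := hdl 1 (by norm_num)
      rw [t1, u1] at this
      exact sub_form0 this
    have u2 : ∑ i : Fin 3, ex a b 2 i 0 = 0 := by
      simp [Fin.sum_univ_three, ex, cl, nth, clTab]
    have e2 : ((d : ℤ) - (μ 0 + μ 1 + μ 6 + μ 7)) = 0 := by
      have := hdl 2 (by norm_num)
      rw [t2, u2] at this
      exact sub_form0 this
    have u3 : ∑ i : Fin 3, ex a b 3 i 0 = 0 := by
      simp [Fin.sum_univ_three, ex, cl, nth, clTab]
    have e3 : ((d : ℤ) - (μ 0 + μ 5 + μ 8 + μ 14)) = 0 := by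
      have := hdl 3 (by norm_num)
      rw [t3, u3] at this
      exact sub_form0 this
    have u4 : ∑ i : Fin 3, ex a b 4 i 0 = 0 := by
      simp [Fin.sum_univ_three, ex, cl, nth, clTab]
    have e4 : ((d : ℤ) - (μ 3 + μ 5 + μ 6 + μ 11)) = 0 := by
      have := hdl 4 (by norm_num)
      rw [t4, u4] at this
      exact sub_form0 this
    have u5 : ∑ i : Fin 3, ex a b 5 i 0 = a := by
      simp [Fin.sum_univ_three, ex, cl, nth, clTab]
    have e5 : ((d : ℤ) - (μ 2 + μ 5 + μ 7 + μ 10)) = a := by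
      have := hdl 5 (by norm_num)
      rw [t5, u5] at this
      exact sub_form this
    have u6 : ∑ i : Fin 3, ex a b 6 i 0 = 0 := by
      simp [Fin.sum_univ_three, ex, cl, nth, clTab]
    have e6 : ((d : ℤ) - (μ 1 + μ 5 + μ 9 + μ 15)) = 0 := by
      have := hdl 6 (by norm_num)
      rw [t6, u6] at this
      exact sub_form0 this
    have u7 : ∑ i : Fin 3, ex a b 7 i 0 = 0 := by
      simp [Fin.sum_univ_three, ex, cl, nth, clTab]
    have e7 : ((d : ℤ) - (μ 1 + μ 3 + μ 12 + μ 14)) = 0 := by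
      have := hdl 7 (by norm_num)
      rw [t7, u7] at this
      exact sub_form0 this
    have u8 : ∑ i : Fin 3, ex a b 8 i 0 = b := by
      simp [Fin.sum_univ_three, ex, cl, nth, clTab]
    have e8 : ((d : ℤ) - (μ 0 + μ 2 + μ 12 + μ 15)) = b := by
      have := hdl 8 (by norm_num)
      rw [t8, u8] at this
      exact sub_form this
    have u9 : ∑ i : Fin 3, ex a b 9 i 0 = a := by
      simp [Fin.sum_univ_three, ex, cl, nth, clTab]
    have e9 : ((d : ℤ) - (μ 0 + μ 3 + μ 10 + μ 13)) = a := by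
      have := hdl 9 (by norm_num)
      rw [t9, u9] at this
      exact sub_form this
    have u10 : ∑ i : Fin 3, ex a b 10 i 0 = 0 := by
      simp [Fin.sum_univ_three, ex, cl, nth, clTab]
    have e10 : ((d : ℤ) - (μ 1 + μ 2 + μ 11 + μ 13)) = 0 := by
      have := hdl 10 (by norm_num)
      rw [t10, u10] at this
      exact sub_form0 this
    have u11 : ∑ i : Fin 3, ex a b 11 i 0 = a := by
      simp [Fin.sum_univ_three, ex, cl, nth, clTab]
    have e11 : ((d : ℤ) - (μ 1 + μ 4 + μ 8 + μ 10)) = a := by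
      have := hdl 11 (by norm_num)
      rw [t11, u11] at this
      exact sub_form this
    have u12 : ∑ i : Fin 3, ex a b 12 i 0 = 0 := by
      simp [Fin.sum_univ_three, ex, cl, nth, clTab]
    have e12 : ((d : ℤ) - (μ 3 + μ 4 + μ 7 + μ 15)) = 0 := by
      have := hdl 12 (by norm_num)
      rw [t12, u12] at this
      exact sub_form0 this
    have u13 : ∑ i : Fin 3, ex a b 13 i 0 = b := by
      simp [Fin.sum_univ_three, ex, cl, nth, clTab]
    have e13 : ((d : ℤ) - (μ 2 + μ 4 + μ 6 + μ 14)) = b := by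
      have := hdl 13 (by norm_num)
      rw [t13, u13] at this
      exact sub_form this
    have u14 : ∑ i : Fin 3, ex a b 14 i 0 = b := by
      simp [Fin.sum_univ_three, ex, cl, nth, clTab]
    have e14 : ((d : ℤ) - (μ 0 + μ 4 + μ 9 + μ 11)) = b := by
      have := hdl 14 (by norm_num)
      rw [t14, u14] at this
      exact sub_form this
    rw [e0, e1, e2, e3, e4, e5, e6, e7, e8, e9, e10, e11, e12, e13, e14] at q
    linarith
  · have u0 : ∑ i : Fin 3, ex a b 0 i 1 = 0 := by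
      simp [Fin.sum_univ_three, ex, cl, nth, clTab]
    have e0 : ((d : ℤ) - (μ 4 + μ 5 + μ 12 + μ 13)) = 0 := by
      have := hdl 0 (by norm_num)
      rw [t0, u0] at this
      exact sub_form0 this
    have u1 : ∑ i : Fin 3, ex a b 1 i 1 = 0 := by
      simp [Fin.sum_univ_three, ex, cl, nth, clTab]
    have e1 : ((d : ℤ) - (μ 2 + μ 3 + μ 8 + μ 9)) = 0 := by
      have := hdl 1 (by norm_num)
      rw [t1, u1] at this
      exact sub_form0 this
    have u2 : ∑ i : Fin 3, ex a b 2 i 1 = 0 := by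
      simp [Fin.sum_univ_three, ex, cl, nth, clTab]
    have e2 : ((d : ℤ) - (μ 0 + μ 1 + μ 6 + μ 7)) = 0 := by
      have := hdl 2 (by norm_num)
      rw [t2, u2] at this
      exact sub_form0 this
    have u3 : ∑ i : Fin 3, ex a b 3 i 1 = 0 := by
      simp [Fin.sum_univ_three, ex, cl, nth, clTab]
    have e3 : ((d : ℤ) - (μ 0 + μ 5 + μ 8 + μ 14)) = 0 := by
      have := hdl 3 (by norm_num)
      rw [t3, u3] at this
      exact sub_form0 this
    have u4 : ∑ i : Fin 3, ex a b 4 i 1 = b := by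
      simp [Fin.sum_univ_three, ex, cl, nth, clTab]
    have e4 : ((d : ℤ) - (μ 3 + μ 5 + μ 6 + μ 11)) = b := by
      have := hdl 4 (by norm_num)
      rw [t4, u4] at this
      exact sub_form this
    have u5 : ∑ i : Fin 3, ex a b 5 i 1 = 0 := by
      simp [Fin.sum_univ_three, ex, cl, nth, clTab]
    have e5 : ((d : ℤ) - (μ 2 + μ 5 + μ 7 + μ 10)) = 0 := by
      have := hdl 5 (by norm_num)
      rw [t5, u5] at this
      exact sub_form0 this
    have u6 : ∑ i : Fin 3, ex a b 6 i 1 = b := by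
      simp [Fin.sum_univ_three, ex, cl, nth, clTab]
    have e6 : ((d : ℤ) - (μ 1 + μ 5 + μ 9 + μ 15)) = b := by
      have := hdl 6 (by norm_num)
      rw [t6, u6] at this
      exact sub_form this
    have u7 : ∑ i : Fin 3, ex a b 7 i 1 = b := by
      simp [Fin.sum_univ_three, ex, cl, nth, clTab]
    have e7 : ((d : ℤ) - (μ 1 + μ 3 + μ 12 + μ 14)) = b := by
      have := hdl 7 (by norm_num)
      rw [t7, u7] at this
      exact sub_form this
    have u8 : ∑ i : Fin 3, ex a b 8 i 1 = a := by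
      simp [Fin.sum_univ_three, ex, cl, nth, clTab]
    have e8 : ((d : ℤ) - (μ 0 + μ 2 + μ 12 + μ 15)) = a := by
      have := hdl 8 (by norm_num)
      rw [t8, u8] at this
      exact sub_form this
    have u9 : ∑ i : Fin 3, ex a b 9 i 1 = 0 := by
      simp [Fin.sum_univ_three, ex, cl, nth, clTab]
    have e9 : ((d : ℤ) - (μ 0 + μ 3 + μ 10 + μ 13)) = 0 := by
      have := hdl 9 (by norm_num)
      rw [t9, u9] at this
      exact sub_form0 this
    have u10 : ∑ i : Fin 3, ex a b 10 i 1 = 0 := by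
      simp [Fin.sum_univ_three, ex, cl, nth, clTab]
    have e10 : ((d : ℤ) - (μ 1 + μ 2 + μ 11 + μ 13)) = 0 := by
      have := hdl 10 (by norm_num)
      rw [t10, u10] at this
      exact sub_form0 this
    have u11 : ∑ i : Fin 3, ex a b 11 i 1 = 0 := by
      simp [Fin.sum_univ_three, ex, cl, nth, clTab]
    have e11 : ((d : ℤ) - (μ 1 + μ 4 + μ 8 + μ 10)) = 0 := by
      have := hdl 11 (by norm_num)
      rw [t11, u11] at this
      exact sub_form0 this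
    have u12 : ∑ i : Fin 3, ex a b 12 i 1 = 0 := by
      simp [Fin.sum_univ_three, ex, cl, nth, clTab]
    have e12 : ((d : ℤ) - (μ 3 + μ 4 + μ 7 + μ 15)) = 0 := by
      have := hdl 12 (by norm_num)
      rw [t12, u12] at this
      exact sub_form0 this
    have u13 : ∑ i : Fin 3, ex a b 13 i 1 = a := by
      simp [Fin.sum_univ_three, ex, cl, nth, clTab]
    have e13 : ((d : ℤ) - (μ 2 + μ 4 + μ 6 + μ 14)) = a := by
      have := hdl 13 (by norm_num)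
      rw [t13, u13] at this
      exact sub_form this
    have u14 : ∑ i : Fin 3, ex a b 14 i 1 = a := by
      simp [Fin.sum_univ_three, ex, cl, nth, clTab]
    have e14 : ((d : ℤ) - (μ 0 + μ 4 + μ 9 + μ 11)) = a := by
      have := hdl 14 (by norm_num)
      rw [t14, u14] at this
      exact sub_form this
    rw [e0, e1, e2, e3, e4, e5, e6, e7, e8, e9, e10, e11, e12, e13, e14] at q
    linarith
  · have u0 : ∑ i : Fin 3, ex a b 0 i 2 = 0 := by
      simp [Fin.sum_univ_three, ex, cl, nth, clTab]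
    have e0 : ((d : ℤ) - (μ 4 + μ 5 + μ 12 + μ 13)) = 0 := by
      have := hdl 0 (by norm_num)
      rw [t0, u0] at this
      exact sub_form0 this
    have u1 : ∑ i : Fin 3, ex a b 1 i 2 = 0 := by
      simp [Fin.sum_univ_three, ex, cl, nth, clTab]
    have e1 : ((d : ℤ) - (μ 2 + μ 3 + μ 8 + μ 9)) = 0 := by
      have := hdl 1 (by norm_num)
      rw [t1, u1] at this
      exact sub_form0 this
    have u2 : ∑ i : Fin 3, ex a b 2 i 2 = 0 := by
      simp [Fin.sum_univ_three, ex, cl, nth, clTab]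
    have e2 : ((d : ℤ) - (μ 0 + μ 1 + μ 6 + μ 7)) = 0 := by
      have := hdl 2 (by norm_num)
      rw [t2, u2] at this
      exact sub_form0 this
    have u3 : ∑ i : Fin 3, ex a b 3 i 2 = 0 := by
      simp [Fin.sum_univ_three, ex, cl, nth, clTab]
    have e3 : ((d : ℤ) - (μ 0 + μ 5 + μ 8 + μ 14)) = 0 := by
      have := hdl 3 (by norm_num)
      rw [t3, u3] at this
      exact sub_form0 this
    have u4 : ∑ i : Fin 3, ex a b 4 i 2 = a := by
      simp [Fin.sum_univ_three, ex, cl, nth, clTab]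
    have e4 : ((d : ℤ) - (μ 3 + μ 5 + μ 6 + μ 11)) = a := by
      have := hdl 4 (by norm_num)
      rw [t4, u4] at this
      exact sub_form this
    have u5 : ∑ i : Fin 3, ex a b 5 i 2 = b := by
      simp [Fin.sum_univ_three, ex, cl, nth, clTab]
    have e5 : ((d : ℤ) - (μ 2 + μ 5 + μ 7 + μ 10)) = b := by
      have := hdl 5 (by norm_num)
      rw [t5, u5] at this
      exact sub_form this
    have u6 : ∑ i : Fin 3, ex a b 6 i 2 = a := by
      simp [Fin.sum_univ_three, ex, cl, nth, clTab]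
    have e6 : ((d : ℤ) - (μ 1 + μ 5 + μ 9 + μ 15)) = a := by
      have := hdl 6 (by norm_num)
      rw [t6, u6] at this
      exact sub_form this
    have u7 : ∑ i : Fin 3, ex a b 7 i 2 = a := by
      simp [Fin.sum_univ_three, ex, cl, nth, clTab]
    have e7 : ((d : ℤ) - (μ 1 + μ 3 + μ 12 + μ 14)) = a := by
      have := hdl 7 (by norm_num)
      rw [t7, u7] at this
      exact sub_form this
    have u8 : ∑ i : Fin 3, ex a b 8 i 2 = 0 := by
      simp [Fin.sum_univ_three, ex, cl, nth, clTab]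
    have e8 : ((d : ℤ) - (μ 0 + μ 2 + μ 12 + μ 15)) = 0 := by
      have := hdl 8 (by norm_num)
      rw [t8, u8] at this
      exact sub_form0 this
    have u9 : ∑ i : Fin 3, ex a b 9 i 2 = b := by
      simp [Fin.sum_univ_three, ex, cl, nth, clTab]
    have e9 : ((d : ℤ) - (μ 0 + μ 3 + μ 10 + μ 13)) = b := by
      have := hdl 9 (by norm_num)
      rw [t9, u9] at this
      exact sub_form this
    have u10 : ∑ i : Fin 3, ex a b 10 i 2 = 0 := by
      simp [Fin.sum_univ_three, ex, cl, nth, clTab]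
    have e10 : ((d : ℤ) - (μ 1 + μ 2 + μ 11 + μ 13)) = 0 := by
      have := hdl 10 (by norm_num)
      rw [t10, u10] at this
      exact sub_form0 this
    have u11 : ∑ i : Fin 3, ex a b 11 i 2 = b := by
      simp [Fin.sum_univ_three, ex, cl, nth, clTab]
    have e11 : ((d : ℤ) - (μ 1 + μ 4 + μ 8 + μ 10)) = b := by
      have := hdl 11 (by norm_num)
      rw [t11, u11] at this
      exact sub_form this
    have u12 : ∑ i : Fin 3, ex a b 12 i 2 = 0 := by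
      simp [Fin.sum_univ_three, ex, cl, nth, clTab]
    have e12 : ((d : ℤ) - (μ 3 + μ 4 + μ 7 + μ 15)) = 0 := by
      have := hdl 12 (by norm_num)
      rw [t12, u12] at this
      exact sub_form0 this
    have u13 : ∑ i : Fin 3, ex a b 13 i 2 = 0 := by
      simp [Fin.sum_univ_three, ex, cl, nth, clTab]
    have e13 : ((d : ℤ) - (μ 2 + μ 4 + μ 6 + μ 14)) = 0 := by
      have := hdl 13 (by norm_num)
      rw [t13, u13] at this
      exact sub_form0 this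
    have u14 : ∑ i : Fin 3, ex a b 14 i 2 = 0 := by
      simp [Fin.sum_univ_three, ex, cl, nth, clTab]
    have e14 : ((d : ℤ) - (μ 0 + μ 4 + μ 9 + μ 11)) = 0 := by
      have := hdl 14 (by norm_num)
      rw [t14, u14] at this
      exact sub_form0 this
    rw [e0, e1, e2, e3, e4, e5, e6, e7, e8, e9, e10, e11, e12, e13, e14] at q
    linarith

end Good

end

end Pool.Agent.H51Seshadri
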