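import Pool.Agent.H51Seshadri.Num
import Pool.Agent.H51Seshadri.Curve

/-!
Data of the parametrised curve at the sixteen points, at a node and at a general point.
-/

namespace Pool.Agent.H51Seshadri
open MvPolynomial

set_option linter.unusedSectionVars false

/-- The three nodes. -/
def ndp (j : ℕ) : Fin 3 → ℕ :=
  match j with
  | 0 => ![4, 9, 5]
  | 1 => ![9, 5, 8]
  | _ => ![1, 8, 9]

/-- Value of a line at an integral vector. -/
def lval (a : ℕ) (Q : Fin 3 → ℕ) : ℕ := lc a 0 * Q 0 + lc a 1 * Q 1 + lc a 2 * Q 2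

lemma c40 : ∀ s : Fin 16, lval (k1 s) (pts s) % 11 = 0 ∧ lval (k2 s) (pts s) % 11 = 0 ∧
    lval (2 - mi s) (pts s) % 11 ≠ 0 := by decide +kernel

lemma c41 : ∀ j < 3, lval (cl 0 j) (ndp j) % 11 = 0 ∧
    lval (cl 0 ((j + 1) % 3)) (ndp j) % 11 = 0 ∧ lval (2 - ni (cl 0 j)) (ndp j) % 11 ≠ 0 := by
  decide +kernel

section
variable {k : Type*} [Field k]

/-- The matrix of three lines. -/
def Am (k : Type*) [Field k] (a b c : ℕ) : Matrix (Fin 3) (Fin 3) k :=
  !![(lc a 0 : k), (lc a 1 : k), (lc a 2 : k); (lc b 0 : k), (lc b 1 : k), (lc b 2 : k);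
    (lc c 0 : k), (lc c 1 : k), (lc c 2 : k)]

lemma Am_det (a b c : ℕ) : (Am k a b c).det = ((dz a b c : ℤ) : k) := by
  rw [Matrix.det_fin_three]
  simp [Am, dz]
  ring

lemma lg_Am (a b c : ℕ) (g : Fin 3 → MvPolynomial (Fin 2) k) :
    lg (Am k a b c) g 0 = ell a g ∧ lg (Am k a b c) g 1 = ell b g ∧
      lg (Am k a b c) g 2 = ell c g := by
  refine ⟨?_, ?_, ?_⟩ <;>
  simp [lg, Am, ell, Fin.sum_univ_three]

variable [CharP k 11]

lemma cast_zero_of_mod {n : ℕ} (h : n % 11 = 0) : (n : k) = 0 :=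
  (CharP.cast_eq_zero_iff k 11 n).mpr (Nat.dvd_of_mod_eq_zero h)

lemma cast_ne_of_mod {n : ℕ} (h : n % 11 ≠ 0) : (n : k) ≠ 0 := by
  intro h0
  exact h (Nat.mod_eq_zero_of_dvd ((CharP.cast_eq_zero_iff k 11 n).mp h0))

lemma Am_inv {a b c : ℕ} (h : dz a b c % 11 ≠ 0) :
    ∃ B : Matrix (Fin 3) (Fin 3) k, Am k a b c * B = 1 ∧ B * Am k a b c = 1 := by
  have hu : IsUnit (Am k a b c).det := by
    rw [Am_det]
    apply IsUnit.mk0
    intro h0
    have := (CharP.intCast_eq_zero_iff k 11 _).mp h0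
    exact h (Int.emod_eq_zero_of_dvd (by exact_mod_cast this))
  exact ⟨(Am k a b c)⁻¹, Matrix.mul_nonsing_inv _ hu, Matrix.nonsing_inv_mul _ hu⟩

lemma Am_mulVec {a b c : ℕ} {Q : Fin 3 → ℕ} (h0 : lval a Q % 11 = 0) (h1 : lval b Q % 11 = 0) :
    (Am k a b c).mulVec (fun i => (Q i : k)) = ((lval c Q : ℕ) : k) • e2 k := by
  have e0 : ((lval a Q : ℕ) : k) = 0 := cast_zero_of_mod h0
  have e1 : ((lval b Q : ℕ) : k) = 0 := cast_zero_of_mod h1
  unfold lval at e0 e1
  push_cast at e0 e1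
  funext i
  fin_cases i
  · simp [Am, Matrix.mulVec, dotProduct, Fin.sum_univ_three, e2]
    exact e0
  · simp [Am, Matrix.mulVec, dotProduct, Fin.sum_univ_three, e2]
    exact e1
  · simp [Am, Matrix.mulVec, dotProduct, Fin.sum_univ_three, e2, lval]

/-- Data at a point: after a linear change of coordinates the point is `(0 : 0 : 1)` and the first
two forms are `h * p`, `h * q` with `p`, `q` relatively prime and `h` of degree `ν`. -/
def PD (g : Fin 3 → MvPolynomial (Fin 2) k) (d : ℕ) (P : Fin 3 → k) (ν : ℕ) : Prop :=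
  ∃ (A B : Matrix (Fin 3) (Fin 3) k) (c : k) (h p q : MvPolynomial (Fin 2) k) (m : ℕ),
    A * B = 1 ∧ B * A = 1 ∧ c ≠ 0 ∧ A.mulVec P = c • e2 k ∧ h.IsHomogeneous ν ∧ h ≠ 0 ∧
    lg A g 0 = h * p ∧ lg A g 1 = h * q ∧ p ≠ 0 ∧ q ≠ 0 ∧ p.IsHomogeneous m ∧
    q.IsHomogeneous m ∧ IsRelPrime p q ∧ 0 < m ∧ ν + m = d

lemma PD.formula [IsAlgClosed k] {g : Fin 3 → MvPolynomial (Fin 2) k} {d : ℕ} {P : Fin 3 → k}
    {ν : ℕ} (hPD : PD g d P ν) {G : MvPolynomial (Fin 3) k} {D : ℕ} (hG : G.IsHomogeneous D)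
    (hirr : Irreducible G) (hev : aeval g G = 0) :
    mult P G ≤ D ∧ d = ν + (D - mult P G) * Module.finrank (KS (Vg g)) (RatFunc k) := by
  obtain ⟨A, B, c, h, p, q, m, h1, h2, hc, hP, hh, hh0, hx, hy, hp0, hq0, hp, hq, hrel, hm, hd⟩ :=
    hPD
  obtain ⟨r1, r2⟩ := point_formula h1 h2 hc hP hh hh0 hx hy hp0 hq0 hp hq hrel hm hG hirr hev
  exact ⟨r1, by rw [← r2]; exact hd.symm⟩

lemma PD.mult_le {g : Fin 3 → MvPolynomial (Fin 2) k} {d : ℕ} {P : Fin 3 → k}
    {ν : ℕ} (hPD : PD g d P ν) {G : MvPolynomial (Fin 3) k} {D : ℕ} (hG : G.IsHomogeneous D)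
    (h0 : G ≠ 0) : mult P G ≤ D ∧ G ∈ ptIdeal P ^ mult P G := by
  obtain ⟨A, B, c, h, p, q, m, h1, h2, hc, hP, -⟩ := hPD
  exact ⟨by have := mult_eq h1 h2 hc hP hG h0; omega, mem_mult h1 h2 hc hP hG h0⟩

lemma eval_eq_zero_of_mem {P : Fin 3 → k} {G : MvPolynomial (Fin 3) k} (h : G ∈ ptIdeal P) :
    MvPolynomial.eval P G = 0 := by
  have h1 : ptIdeal P ≤ RingHom.ker (MvPolynomial.eval P) := by
    unfold ptIdeal
    rw [Ideal.span_le]
    rintro L ⟨-, hL⟩
    exact hL
  exact h1 h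

variable {n : ℕ} {g : Fin 3 → MvPolynomial (Fin 2) k} {e : ℕ → MvPolynomial (Fin 2) k}
    {d : ℕ} {μ : ℕ → ℕ} {j a b : ℕ}

namespace Good

lemma a_ne_b (h : Good k n g e d μ j a b) : a ≠ b := by
  intro hab
  have hq := h.quad
  rw [hab] at hq
  have h5 : ∀ n : ℕ, (11 : ℤ) ^ n % 5 = 1 := by
    intro n
    induction n with
    | zero => norm_num
    | succ n ih => rw [pow_succ]; omega
  have := h5 n
  rw [← hq] at this
  have h2 : (b : ℤ) ^ 2 + 3 * b * b + b ^ 2 = 5 * b ^ 2 := by ring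
  rw [h2] at this
  omega

/-- The three forms are linearly independent. -/
lemma linInd (h : Good k n g e d μ j a b) (c : Fin 3 → k)
    (hc : ∑ i, algebraMap k (MvPolynomial (Fin 2) k) (c i) * g i = 0) : c = 0 := by
  have h0 : 0 < 3 := by norm_num
  obtain ⟨hk, hnx⟩ := c11 0 h0 j h.hj
  obtain ⟨b1, b2, b3⟩ := c16 0 h0 j h.hj
  have hdz := c2 0 h0 j h.hj (2 - ni (cl 0 j)) (by omega) b2 b3
  obtain ⟨B, hAB, hBA⟩ := Am_inv (k := k) hdz
  set A := Am k (cl 0 j) (cl 0 ((j + 1) % 3)) (2 - ni (cl 0 j)) with hA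
  set v := Matrix.vecMul c B with hv
  have hvA : Matrix.vecMul v A = c := by rw [hv, Matrix.vecMul_vecMul, hBA, Matrix.vecMul_one]
  obtain ⟨l0, l1, l2⟩ := lg_Am (cl 0 j) (cl 0 ((j + 1) % 3)) (2 - ni (cl 0 j)) g
  rw [← hA] at l0 l1 l2
  have hsum : algebraMap k (MvPolynomial (Fin 2) k) (v 0) * ell (cl 0 j) g +
      algebraMap k (MvPolynomial (Fin 2) k) (v 1) * ell (cl 0 ((j + 1) % 3)) g +
      algebraMap k (MvPolynomial (Fin 2) k) (v 2) * ell (2 - ni (cl 0 j)) g = 0 := by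
    rw [← l0, ← l1, ← l2, ← hc, ← hvA]
    simp only [lg, Matrix.vecMul, dotProduct, Fin.sum_univ_three, map_add, map_mul]
    ring
  obtain ⟨x, hx, hx'⟩ := h.ord_lam hk h0
  obtain ⟨y, hy, hy'⟩ := h.ord_lam (h.cl_lt h0) h0
  rw [h.ex_left h0] at hx
  rw [h.ex_right h0] at hy
  have hp := lam_prime (F := k) h0
  have hZ : ¬ lam k 0 ∣ ell (2 - ni (cl 0 j)) g :=
    h.lam_not (by omega) h0 b2 b3 hp dvd_rfl
  have unit_of : ∀ t : k, t ≠ 0 → IsUnit (algebraMap k (MvPolynomial (Fin 2) k) t) := by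
    intro t ht
    exact (IsUnit.mk0 _ ht).map _
  have dvd_zero_of : ∀ (t : k) (w : MvPolynomial (Fin 2) k), ¬ lam k 0 ∣ w →
      lam k 0 ∣ algebraMap k (MvPolynomial (Fin 2) k) t * w → t = 0 := by
    intro t w hw hd
    by_contra ht
    exact hw ((unit_of t ht).dvd_mul_left.mp hd)
  have hX : lam k 0 ∣ ell (cl 0 j) g := (dvd_pow_self _ h.ha.ne').trans (hx ▸ dvd_mul_right _ _)
  have hY : lam k 0 ∣ ell (cl 0 ((j + 1) % 3)) g :=
    (dvd_pow_self _ h.hb.ne').trans (hy ▸ dvd_mul_right _ _)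
  have v2 : v 2 = 0 := by
    apply dvd_zero_of _ _ hZ
    have h1 : lam k 0 ∣ algebraMap k (MvPolynomial (Fin 2) k) (v 0) * ell (cl 0 j) g +
      algebraMap k (MvPolynomial (Fin 2) k) (v 1) * ell (cl 0 ((j + 1) % 3)) g :=
      dvd_add (hX.mul_left _) (hY.mul_left _)
    exact (dvd_add_right h1).mp (hsum ▸ dvd_zero _)
  rw [v2, map_zero, zero_mul, add_zero, hx, hy] at hsum
  have v01 : v 0 = 0 ∧ v 1 = 0 := by
    rcases lt_or_gt_of_ne h.a_ne_b with hlt | hgt
    · have e1 : lam k 0 ^ a * (algebraMap k (MvPolynomial (Fin 2) k) (v 0) * x +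
          lam k 0 ^ (b - a) * (algebraMap k (MvPolynomial (Fin 2) k) (v 1) * y)) = 0 := by
        rw [← hsum]
        have : lam k 0 ^ a * lam k 0 ^ (b - a) = lam k 0 ^ b := by
          rw [← pow_add]; congr 1; omega
        linear_combination (algebraMap k (MvPolynomial (Fin 2) k) (v 1) * y) * this
      have e2 := (mul_eq_zero.mp e1).resolve_left (pow_ne_zero _ hp.ne_zero)
      have v0 : v 0 = 0 := by
        apply dvd_zero_of _ _ hx'
        have h1 : lam k 0 ∣ lam k 0 ^ (b - a) *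
            (algebraMap k (MvPolynomial (Fin 2) k) (v 1) * y) :=
          (dvd_pow_self _ (by omega)).mul_right _
        exact (dvd_add_left h1).mp (e2 ▸ dvd_zero _)
      refine ⟨v0, ?_⟩
      rw [v0, map_zero, zero_mul, zero_add] at e2
      have e3 := (mul_eq_zero.mp e2).resolve_left (pow_ne_zero _ hp.ne_zero)
      exact dvd_zero_of _ _ hy' (e3 ▸ dvd_zero _)
    · have e1 : lam k 0 ^ b * (algebraMap k (MvPolynomial (Fin 2) k) (v 1) * y +
          lam k 0 ^ (a - b) * (algebraMap k (MvPolynomial (Fin 2) k) (v 0) * x)) = 0 := by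
        rw [← hsum]
        have : lam k 0 ^ b * lam k 0 ^ (a - b) = lam k 0 ^ a := by
          rw [← pow_add]; congr 1; omega
        linear_combination (algebraMap k (MvPolynomial (Fin 2) k) (v 0) * x) * this
      have e2 := (mul_eq_zero.mp e1).resolve_left (pow_ne_zero _ hp.ne_zero)
      have v1 : v 1 = 0 := by
        apply dvd_zero_of _ _ hy'
        have h1 : lam k 0 ∣ lam k 0 ^ (a - b) *
            (algebraMap k (MvPolynomial (Fin 2) k) (v 0) * x) :=
          (dvd_pow_self _ (by omega)).mul_right _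
        exact (dvd_add_left h1).mp (e2 ▸ dvd_zero _)
      refine ⟨?_, v1⟩
      rw [v1, map_zero, zero_mul, zero_add] at e2
      have e3 := (mul_eq_zero.mp e2).resolve_left (pow_ne_zero _ hp.ne_zero)
      exact dvd_zero_of _ _ hx' (e3 ▸ dvd_zero _)
  have hv0 : v = 0 := by
    funext i
    fin_cases i
    · exact v01.1
    · exact v01.2
    · exact v2
  rw [← hvA, hv0, Matrix.zero_vecMul]

/-- A homogeneous polynomial of degree zero is a constant. -/
lemma _root_.Pool.Agent.H51Seshadri.const_of_hom {p : MvPolynomial (Fin 2) k}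
    (hp : p.IsHomogeneous 0) : ∃ t : k, p = algebraMap k (MvPolynomial (Fin 2) k) t := by
  have : p.totalDegree = 0 := Nat.le_zero.mp hp.totalDegree_le
  exact ⟨_, totalDegree_eq_zero_iff_eq_C.mp this⟩

/-- Data at one of the sixteen points. -/
theorem pd_s (h : Good k n g e d μ j a b) (s : Fin 16) : PD g d (pt k s) (μ s) := by
  obtain ⟨a1, a2, a3, a4, a5, a6⟩ := c5 s s.2
  obtain ⟨b1, b2, b3⟩ := c40 s
  have hdz := c1 s s.2 (2 - mi s) (by omega) a6
  obtain ⟨B, hAB, hBA⟩ := Am_inv (k := k) hdz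
  obtain ⟨l0, l1, l2⟩ := lg_Am (k1 s) (k2 s) (2 - mi s) g
  obtain ⟨w1, hw1⟩ := h.e_dvd a1 s.2 a3
  obtain ⟨w2, hw2⟩ := h.e_dvd a2 s.2 a4
  have n1 := h.ell_ne a1
  have n2 := h.ell_ne a2
  have w10 : w1 ≠ 0 := by rintro rfl; exact n1 (by rw [hw1, mul_zero])
  have w20 : w2 ≠ 0 := by rintro rfl; exact n2 (by rw [hw2, mul_zero])
  obtain ⟨m, hm1, hm⟩ := homog_of_mul (h.he s s.2) (ell_hom h.hg (k1 s)) hw1.symm n1
  obtain ⟨m', hm1', hm'⟩ := homog_of_mul (h.he s s.2) (ell_hom h.hg (k2 s)) hw2.symm n2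
  have hmm : m' = m := by omega
  subst hmm
  have hrel : IsRelPrime w1 w2 := by
    apply relPrime_of w10
    intro p hp h1 h2
    have d1 : p ∣ ell (k1 s) g := hw1 ▸ h1.mul_left _
    have d2 : p ∣ ell (k2 s) g := hw2 ▸ h2.mul_left _
    rcases h.dvd_ell a1 hp d1 with ⟨t, ht, hto, hpt⟩ | ⟨i, hi, hex, hpi⟩
    · rcases h.dvd_ell a2 hp d2 with ⟨t', ht', hto', hpt'⟩ | ⟨i', hi', hex', hpi'⟩
      · have htt : t = t' := by
          by_contra hne
          exact h.e_disj ht ht' hne hp hpt hpt'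
        subst htt
        have hts := c23 s s.2 t ht hto hto'
        subst hts
        obtain ⟨w, hw, hw'⟩ := h.cofactor a1 s.2 a3 hp hpt
        have : w = w1 := mul_left_cancel₀ (h.e0 s s.2) (by rw [← hw, ← hw1])
        exact hw' (this ▸ h1)
      · exact h.e_lam ht hi' hp hpt hpi'
    · rcases h.dvd_ell a2 hp d2 with ⟨t', ht', hto', hpt'⟩ | ⟨i', hi', hex', hpi'⟩
      · exact h.e_lam ht' hi hp hpt' hpi
      · have hii : i = i' := by
          by_contra hne
          exact lam_disj hi hi' hne hp hpi hpi'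
        subst hii
        obtain ⟨q1, q2, q3⟩ := c22 s s.2 i hi j h.hj
        rcases h.ex_ne_zero hex with r1 | r1 <;> rcases h.ex_ne_zero hex' with r2 | r2
        · exact q3 (r1.trans r2.symm)
        · exact q1 ⟨r1, r2⟩
        · exact q2 ⟨r2, r1⟩
        · exact q3 (r1.trans r2.symm)
  have hmpos : 0 < m' := by
    rcases Nat.eq_zero_or_pos m' with h0 | h0
    · exfalso
      subst h0
      obtain ⟨t1, ht1⟩ := const_of_hom hm1
      obtain ⟨t2, ht2⟩ := const_of_hom hm1'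
      have ht20 : t2 ≠ 0 := by
        rintro rfl
        exact w20 (by rw [ht2, map_zero])
      have hrelation : algebraMap k (MvPolynomial (Fin 2) k) t2 * ell (k1 s) g -
          algebraMap k (MvPolynomial (Fin 2) k) t1 * ell (k2 s) g = 0 := by
        rw [hw1, hw2, ht1, ht2]; ring
      set A := Am k (k1 s) (k2 s) (2 - mi s) with hA
      have hc := h.linInd (Matrix.vecMul ![t2, -t1, 0] A) (by
        rw [← hrelation, ← l0, ← l1]
        simp only [lg, Matrix.vecMul, dotProduct, Fin.sum_univ_three, map_add, map_mul,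
          Matrix.cons_val_zero, Matrix.cons_val_one, Matrix.cons_val_two, Matrix.tail_cons,
          Matrix.head_cons, map_neg, map_zero]
        ring)
      have h3 : Matrix.vecMul (Matrix.vecMul ![t2, -t1, 0] A) B = ![t2, -t1, 0] := by
        rw [Matrix.vecMul_vecMul, hAB, Matrix.vecMul_one]
      rw [hc, Matrix.zero_vecMul] at h3
      exact ht20 (congrFun h3 0).symm
    · exact h0
  exact ⟨_, B, _, e s, w1, w2, m', hAB, hBA, cast_ne_of_mod b3, Am_mulVec b1 b2, h.he s s.2,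
    h.e0 s s.2, l0.trans hw1, l1.trans hw2, w10, w20, hm1, hm1', hrel, hmpos, hm⟩

/-- Data at the node of the first cusp. -/
theorem pd_node (h : Good k n g e d μ j a b) :
    PD g d (fun i => (ndp j i : k)) (min a b) := by
  have h0 : 0 < 3 := by norm_num
  obtain ⟨hk, hnx⟩ := c11 0 h0 j h.hj
  obtain ⟨b1, b2, b3⟩ := c16 0 h0 j h.hj
  obtain ⟨f1, f2, f3⟩ := c41 j h.hj
  have hdz := c2 0 h0 j h.hj (2 - ni (cl 0 j)) (by omega) b2 b3
  obtain ⟨B, hAB, hBA⟩ := Am_inv (k := k) hdz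
  obtain ⟨l0, l1, l2⟩ := lg_Am (cl 0 j) (cl 0 ((j + 1) % 3)) (2 - ni (cl 0 j)) g
  obtain ⟨x, hx, hx'⟩ := h.ord_lam hk h0
  obtain ⟨y, hy, hy'⟩ := h.ord_lam (h.cl_lt h0) h0
  rw [h.ex_left h0] at hx
  rw [h.ex_right h0] at hy
  have hp := lam_prime (F := k) h0
  have n1 := h.ell_ne hk
  have n2 := h.ell_ne (h.cl_lt h0)
  set p := lam k 0 ^ (a - min a b) * x with hpdef
  set q := lam k 0 ^ (b - min a b) * y with hqdef
  have hxp : ell (cl 0 j) g = lam k 0 ^ min a b * p := by
    rw [hx, hpdef, ← mul_assoc, ← pow_add]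
    congr 2
    omega
  have hyq : ell (cl 0 ((j + 1) % 3)) g = lam k 0 ^ min a b * q := by
    rw [hy, hqdef, ← mul_assoc, ← pow_add]
    congr 2
    omega
  have p0 : p ≠ 0 := by intro hz; exact n1 (by rw [hxp, hz, mul_zero])
  have q0 : q ≠ 0 := by intro hz; exact n2 (by rw [hyq, hz, mul_zero])
  have hhom : (lam k 0 ^ min a b).IsHomogeneous (min a b) := by
    have := (lam_hom (F := k) h0).pow (min a b)
    rwa [one_mul] at this
  obtain ⟨m, hm1, hm⟩ := homog_of_mul hhom (ell_hom h.hg _) hxp.symm n1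
  obtain ⟨m', hm1', hm'⟩ := homog_of_mul hhom (ell_hom h.hg _) hyq.symm n2
  have hmm : m' = m := by omega
  subst hmm
  have hrel : IsRelPrime p q := by
    apply relPrime_of p0
    intro π hπ h1 h2
    have d1 : π ∣ ell (cl 0 j) g := hxp ▸ h1.mul_left _
    have d2 : π ∣ ell (cl 0 ((j + 1) % 3)) g := hyq ▸ h2.mul_left _
    rcases h.dvd_ell hk hπ d1 with ⟨t, ht, hto, hpt⟩ | ⟨i, hi, hex, hpi⟩
    · rcases h.dvd_ell (h.cl_lt h0) hπ d2 with ⟨t', ht', hto', hpt'⟩ | ⟨i', hi', hex', hpi'⟩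
      · have htt : t = t' := by
          by_contra hne
          exact h.e_disj ht ht' hne hπ hpt hpt'
        subst htt
        exact c15 0 h0 j h.hj t ht ⟨hto, hto'⟩
      · exact h.e_lam ht hi' hπ hpt hpi'
    · rcases h.dvd_ell (h.cl_lt h0) hπ d2 with ⟨t', ht', hto', hpt'⟩ | ⟨i', hi', hex', hpi'⟩
      · exact h.e_lam ht' hi hπ hpt' hpi
      · have hi0 : i = 0 := by
          by_contra hne
          have hne' : 0 ≠ i := Ne.symm hne
          rcases h.ex_ne_zero hex with r1 | r1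
          · exact c14 0 h0 i hi hne' j h.hj j h.hj r1
          · exact c14 0 h0 i hi hne' j h.hj _ (Nat.mod_lt _ (by norm_num)) r1
        subst hi0
        have has : Associated π (lam k 0) :=
          hπ.irreducible.associated_of_dvd hp.irreducible hpi
        rcases lt_or_gt_of_ne h.a_ne_b with hlt | hgt
        · apply hx'
          have : p = x := by
            rw [hpdef, min_eq_left hlt.le, Nat.sub_self, pow_zero, one_mul]
          rw [← this]
          exact has.symm.dvd.trans h1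
        · apply hy'
          have : q = y := by
            rw [hqdef, min_eq_right hgt.le, Nat.sub_self, pow_zero, one_mul]
          rw [← this]
          exact has.symm.dvd.trans h2
  have hmpos : 0 < m' := by
    rcases Nat.eq_zero_or_pos m' with hz | hz
    · exfalso
      subst hz
      obtain ⟨t1, ht1⟩ := const_of_hom hm1
      obtain ⟨t2, ht2⟩ := const_of_hom hm1'
      have u1 : IsUnit p := by
        rw [ht1]
        apply (IsUnit.mk0 t1 _).map
        rintro rfl
        exact p0 (by rw [ht1, map_zero])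
      have u2 : IsUnit q := by
        rw [ht2]
        apply (IsUnit.mk0 t2 _).map
        rintro rfl
        exact q0 (by rw [ht2, map_zero])
      rcases lt_or_gt_of_ne h.a_ne_b with hlt | hgt
      · have : lam k 0 ∣ q := by
          rw [hqdef]
          exact (dvd_pow_self _ (by omega)).mul_right _
        exact hp.not_isUnit (isUnit_of_dvd_unit this u2)
      · have : lam k 0 ∣ p := by
          rw [hpdef]
          exact (dvd_pow_self _ (by omega)).mul_right _
        exact hp.not_isUnit (isUnit_of_dvd_unit this u1)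
    · exact hz
  exact ⟨_, B, _, lam k 0 ^ min a b, p, q, m', hAB, hBA, cast_ne_of_mod f3, Am_mulVec f1 f2,
    hhom, pow_ne_zero _ hp.ne_zero, l0.trans hxp, l1.trans hyq, p0, q0, hm1, hm1', hrel, hmpos,
    hm⟩

lemma d_pos (h : Good k n g e d μ j a b) : 0 < d := by
  have h1 := h.m1
  by_contra hd
  have hd0 : d = 0 := by omega
  rw [hd0] at h1
  have : 0 ≤ ∑ s : Fin 16, (μ s : ℤ) := Finset.sum_nonneg fun s _ => by positivity
  push_cast at h1
  linarith

/-- A point off the curve, with its data. -/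
theorem pd_generic (h : Good k n g e d μ j a b) [IsAlgClosed k] {G : MvPolynomial (Fin 3) k}
    {D : ℕ} (hG : G.IsHomogeneous D) (hG0 : G ≠ 0) (hev : aeval g G = 0) :
    ∃ P : Fin 3 → k, MvPolynomial.eval P G ≠ 0 ∧ PD g d P 0 := by
  have : Infinite k := IsAlgClosed.instInfinite
  have hX2 : (G * X 2 : MvPolynomial (Fin 3) k) ≠ 0 := mul_ne_zero hG0 (X_ne_zero 2)
  obtain ⟨P, hP⟩ : ∃ P : Fin 3 → k, MvPolynomial.eval P (G * X 2) ≠ 0 := by
    by_contra hcon
    push Not at hcon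
    exact hX2 (MvPolynomial.funext fun P => by rw [hcon P, map_zero])
  rw [map_mul, eval_X] at hP
  have hPG : MvPolynomial.eval P G ≠ 0 := left_ne_zero_of_mul hP
  have hP2 : P 2 ≠ 0 := right_ne_zero_of_mul hP
  refine ⟨P, hPG, ?_⟩
  set A : Matrix (Fin 3) (Fin 3) k := !![P 2, 0, -P 0; 0, P 2, -P 1; 0, 0, 1] with hA
  set B : Matrix (Fin 3) (Fin 3) k :=
    !![(P 2)⁻¹, 0, (P 2)⁻¹ * P 0; 0, (P 2)⁻¹, (P 2)⁻¹ * P 1; 0, 0, 1] with hB
  have hAB : A * B = 1 := by
    ext i j
    fin_cases i <;> fin_cases j <;>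
    simp [hA, hB, Matrix.mul_apply, Fin.sum_univ_three, hP2]
  have hBA : B * A = 1 := by
    ext i j
    fin_cases i <;> fin_cases j <;>
    simp [hA, hB, Matrix.mul_apply, Fin.sum_univ_three, hP2]
  have hAP : A.mulVec P = P 2 • e2 k := by
    funext i
    fin_cases i <;>
    simp [hA, e2, Matrix.mulVec, dotProduct, Fin.sum_univ_three, mul_comm]
  have l0 : lg A g 0 = C (P 2) * g 0 - C (P 0) * g 2 := by
    simp [lg, hA, Fin.sum_univ_three]
    ring
  have l1 : lg A g 1 = C (P 2) * g 1 - C (P 1) * g 2 := by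
    simp [lg, hA, Fin.sum_univ_three]
    ring
  have p0 : lg A g 0 ≠ 0 := by
    intro hz
    rw [l0] at hz
    have := h.linInd ![P 2, 0, -P 0] (by
      rw [← hz]
      simp [Fin.sum_univ_three]
      ring)
    exact hP2 (congrFun this 0)
  have q0 : lg A g 1 ≠ 0 := by
    intro hz
    rw [l1] at hz
    have := h.linInd ![0, P 2, -P 1] (by
      rw [← hz]
      simp [Fin.sum_univ_three]
      ring)
    exact hP2 (congrFun this 1)
  have hrel : IsRelPrime (lg A g 0) (lg A g 1) := by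
    apply relPrime_of p0
    intro π hπ d0 d1
    rw [l0] at d0
    rw [l1] at d1
    have hunit : IsUnit (C (P 2) : MvPolynomial (Fin 2) k) := (IsUnit.mk0 _ hP2).map C
    have hπ2 : π ∣ g 2 := by
      set I := Ideal.span {π} with hI
      have m0 : Ideal.Quotient.mk I (C (P 2) * g 0) = Ideal.Quotient.mk I (C (P 0) * g 2) := by
        rw [Ideal.Quotient.eq, hI, Ideal.mem_span_singleton]; exact d0
      have m1 : Ideal.Quotient.mk I (C (P 2) * g 1) = Ideal.Quotient.mk I (C (P 1) * g 2) := by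
        rw [Ideal.Quotient.eq, hI, Ideal.mem_span_singleton]; exact d1
      have e1 : aeval (fun i => C (P 2) * g i) G = 0 := by rw [aeval_scale hG, hev, mul_zero]
      have e2 : (fun i => Ideal.Quotient.mkₐ k I (C (P 2) * g i)) =
          fun i => Ideal.Quotient.mkₐ k I (g 2 * C (P i)) := by
        funext i
        fin_cases i
        · change Ideal.Quotient.mk I (C (P 2) * g 0) = Ideal.Quotient.mk I (g 2 * C (P 0))
          rw [m0, mul_comm]
        · change Ideal.Quotient.mk I (C (P 2) * g 1) = Ideal.Quotient.mk I (g 2 * C (P 1))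
          rw [m1, mul_comm]
        · change Ideal.Quotient.mk I (C (P 2) * g 2) = Ideal.Quotient.mk I (g 2 * C (P 2))
          rw [mul_comm]
      have e3 : Ideal.Quotient.mkₐ k I (aeval (fun i => g 2 * C (P i)) G) = 0 := by
        rw [MvPolynomial.comp_aeval_apply, ← e2, ← MvPolynomial.comp_aeval_apply, e1, map_zero]
      rw [aeval_scale hG] at e3
      have e4 : aeval (fun i => (C (P i) : MvPolynomial (Fin 2) k)) G =
          C (MvPolynomial.eval P G) := by
        have := MvPolynomial.aeval_algebraMap_apply (B := MvPolynomial (Fin 2) k) P G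
        exact this
      rw [e4] at e3
      have e5 : π ∣ g 2 ^ D * C (MvPolynomial.eval P G) := by
        have : Ideal.Quotient.mk I (g 2 ^ D * C (MvPolynomial.eval P G)) = 0 := e3
        rw [Ideal.Quotient.eq_zero_iff_mem, hI, Ideal.mem_span_singleton] at this
        exact this
      rcases hπ.dvd_or_dvd e5 with h1 | h1
      · exact hπ.dvd_of_dvd_pow h1
      · exact absurd h1 (not_dvd_C hPG hπ)
    apply h.I2 π hπ
    intro i
    fin_cases i
    · have := (dvd_sub_left (hπ2.mul_left (C (P 0)))).mp d0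
      exact hunit.dvd_mul_left.mp this
    · have := (dvd_sub_left (hπ2.mul_left (C (P 1)))).mp d1
      exact hunit.dvd_mul_left.mp this
    · exact hπ2
  exact ⟨A, B, P 2, 1, lg A g 0, lg A g 1, d, hAB, hBA, hP2, hAP, isHomogeneous_one _ _,
    one_ne_zero, (one_mul _).symm, (one_mul _).symm, p0, q0, lg_hom A h.hg 0, lg_hom A h.hg 1,
    hrel, h.d_pos, zero_add _⟩

end Good

end

end Pool.Agent.H51Seshadri
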