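import Pool.Agent.H51Seshadri.Inv

/-!
The induction step, first part: orders of vanishing of the sixteen forms along the curve.
-/

namespace Pool.Agent.H51Seshadri
open MvPolynomial

attribute [local irreducible] Bv ell

set_option linter.unusedSectionVars false

/-- Exponent at a cusp. -/
def zf (a b j t i : ℕ) : ℕ := if onL t (cl i ((j + 1) % 3)) = true then min a (2 * b) else 0

section
variable {F : Type*} [Field F] [CharP F 11]
variable {n : ℕ} {g : Fin 3 → MvPolynomial (Fin 2) F} {e : ℕ → MvPolynomial (Fin 2) F}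
    {d : ℕ} {μ : ℕ → ℕ} {j a b : ℕ}

variable (F) in
/-- The forced divisor of the form `t` along the curve. -/
noncomputable def DD (e : ℕ → MvPolynomial (Fin 2) F) (j a b t : ℕ) : MvPolynomial (Fin 2) F :=
  (∏ s : Fin 16, e s ^ mm t s) * ∏ i : Fin 3, lam F i ^ zf a b j t i

lemma gi_eq (g : Fin 3 → MvPolynomial (Fin 2) F) {i : ℕ} (hi : i < 3) :
    gi g i = ell (2 - i) g := by
  interval_cases i
  · simp [gi, ell, show lc 2 0 = 1 from rfl, show lc 2 1 = 0 from rfl, show lc 2 2 = 0 from rfl]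
  · simp [gi, ell, show lc 1 0 = 0 from rfl, show lc 1 1 = 1 from rfl, show lc 1 2 = 0 from rfl]
  · simp [gi, ell, show lc 0 0 = 0 from rfl, show lc 0 1 = 0 from rfl, show lc 0 2 = 1 from rfl]

lemma not_pow_succ_dvd {p y : MvPolynomial (Fin 2) F} {m : ℕ} (hp : Prime p) (h : ¬ p ∣ y) :
    ¬ p ^ (m + 1) ∣ p ^ m * y := by
  rw [pow_succ, mul_dvd_mul_iff_left (pow_ne_zero _ hp.ne_zero)]
  exact h

set_option linter.unusedSectionVars false
namespace Good

lemma e_pow_dvd (h : Good F n g e d μ j a b) {t s : ℕ} (ht : t < 16) (hs : s < 16) :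
    e s ^ mm t s ∣ Bv t g := by
  obtain ⟨a1, a2, a3, a4, -, -⟩ := c5 s hs
  obtain ⟨w1, hw1⟩ := h.e_dvd a1 hs a3
  obtain ⟨w2, hw2⟩ := h.e_dvd a2 hs a4
  obtain ⟨r, m, hr⟩ := factT' ht hs g hw1 hw2
  rw [hr]
  exact dvd_mul_right _ _

lemma node_coord (h : Good F n g e d μ j a b) {i : ℕ} (hi : i < 3) {m α : ℕ} (hα : α % 11 ≠ 0) :
    ¬ lam F i ∣ (α : MvPolynomial (Fin 2) F) * gi g (ni (cl i j)) ^ m := by
  obtain ⟨b1, b2, b3⟩ := c16 i hi j h.hj
  intro hd
  have hp := lam_prime (F := F) hi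
  rcases hp.dvd_or_dvd hd with h1 | h1
  · exact hp.not_isUnit (isUnit_of_dvd_unit h1 (isUnit_natCast hα))
  · have h2 := hp.dvd_of_dvd_pow h1
    rw [gi_eq g b1] at h2
    exact h.lam_not (by omega) hi b2 b3 hp dvd_rfl h2

lemma ordN (h : Good F n g e d μ j a b) {t i : ℕ} (ht : t < 16) (hi : i < 3) :
    lam F i ^ zf a b j t i ∣ Bv t g ∧ ¬ lam F i ^ (zf a b j t i + 1) ∣ Bv t g := by
  have hp := lam_prime (F := F) hi
  obtain ⟨hk, hnx⟩ := c11 i hi j h.hj
  obtain ⟨x, hx, hx'⟩ := h.ord_lam hk hi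
  obtain ⟨y, hy, hy'⟩ := h.ord_lam (h.cl_lt hi) hi
  rw [h.ex_left hi] at hx
  rw [h.ex_right hi] at hy
  have hX : lam F i ∣ ell (cl i j) g := (dvd_pow_self _ h.ha.ne').trans (hx ▸ dvd_mul_right _ _)
  have hY : lam F i ∣ ell (cl i ((j + 1) % 3)) g :=
    (dvd_pow_self _ h.hb.ne').trans (hy ▸ dvd_mul_right _ _)
  by_cases ho : onL t (cl i ((j + 1) % 3)) = true
  · obtain ⟨α, β, m, m', r1, r2, r3, hα, hβ, hB⟩ := factN1 ht hk (by rw [hnx]; exact ho) g
    rw [hnx] at hB
    set A1 := (α : MvPolynomial (Fin 2) F) * gi g (ni (cl i j)) ^ m +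
      ell (cl i ((j + 1) % 3)) g * r1 + ell (cl i j) g * r2 with hA1
    set A2 := (β : MvPolynomial (Fin 2) F) * gi g (ni (cl i j)) ^ m' +
      ell (cl i ((j + 1) % 3)) g * r3 with hA2
    have n1 : ¬ lam F i ∣ A1 := by
      intro hd
      rw [hA1] at hd
      have := (dvd_add_left (hX.mul_right r2)).mp hd
      exact h.node_coord hi hα ((dvd_add_left (hY.mul_right r1)).mp this)
    have n2 : ¬ lam F i ∣ A2 := by
      intro hd
      rw [hA2] at hd
      exact h.node_coord hi hβ ((dvd_add_left (hY.mul_right r3)).mp hd)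
    have hz : zf a b j t i = min a (2 * b) := by rw [zf, if_pos ho]
    rw [hz]
    rcases h.ne with hlt | hlt
    · rw [min_eq_left hlt.le]
      have e1 : Bv t g = lam F i ^ a * (x * A1 + lam F i ^ (2 * b - a) * (y ^ 2 * A2)) := by
        rw [hB, hx, hy]
        have : lam F i ^ a * lam F i ^ (2 * b - a) = (lam F i ^ b) ^ 2 := by
          rw [← pow_add, ← pow_mul]
          congr 1
          omega
        linear_combination (-(y ^ 2 * A2)) * this
      refine ⟨e1 ▸ dvd_mul_right _ _, ?_⟩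
      rw [e1]
      apply not_pow_succ_dvd hp
      intro hd
      have h2 : lam F i ∣ lam F i ^ (2 * b - a) * (y ^ 2 * A2) :=
        (dvd_pow_self _ (by omega)).mul_right _
      rcases hp.dvd_or_dvd ((dvd_add_left h2).mp hd) with h3 | h3
      · exact hx' h3
      · exact n1 h3
    · rw [min_eq_right hlt.le]
      have e1 : Bv t g = lam F i ^ (2 * b) * (y ^ 2 * A2 + lam F i ^ (a - 2 * b) * (x * A1)) := by
        rw [hB, hx, hy]
        have : lam F i ^ (2 * b) * lam F i ^ (a - 2 * b) = lam F i ^ a := by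
          rw [← pow_add]
          congr 1
          omega
        linear_combination (-(x * A1)) * this
      refine ⟨e1 ▸ dvd_mul_right _ _, ?_⟩
      rw [e1]
      apply not_pow_succ_dvd hp
      intro hd
      have h2 : lam F i ∣ lam F i ^ (a - 2 * b) * (x * A1) :=
        (dvd_pow_self _ (by omega)).mul_right _
      rcases hp.dvd_or_dvd ((dvd_add_left h2).mp hd) with h3 | h3
      · exact hy' (hp.dvd_of_dvd_pow h3)
      · exact n2 h3
  · have hz : zf a b j t i = 0 := by rw [zf, if_neg ho]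
    rw [hz, pow_zero, zero_add, pow_one]
    refine ⟨one_dvd _, ?_⟩
    obtain ⟨α, m, r1, r2, hα, hB⟩ := factN2 ht hk
      (by rw [hnx]; simpa using ho) g
    rw [hnx] at hB
    intro hd
    rw [hB] at hd
    have := (dvd_add_left (hX.mul_right r2)).mp hd
    exact h.node_coord hi hα ((dvd_add_left (hY.mul_right r1)).mp this)

lemma DD_dvd (h : Good F n g e d μ j a b) {t : ℕ} (ht : t < 16) : DD F e j a b t ∣ Bv t g := by
  unfold DD
  apply IsRelPrime.mul_dvd
  · apply relPrime_of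
    · exact Finset.prod_ne_zero_iff.mpr fun s _ => pow_ne_zero _ (h.e0 s s.2)
    · intro p hp h1 h2
      obtain ⟨s, -, hs⟩ := hp.exists_mem_finset_dvd h1
      obtain ⟨i, -, hi⟩ := hp.exists_mem_finset_dvd h2
      exact h.e_lam s.2 i.2 hp (hp.dvd_of_dvd_pow hs) (hp.dvd_of_dvd_pow hi)
  · apply Finset.prod_dvd_of_isRelPrime
    · intro s _ s' _ hne
      apply relPrime_of
      · exact pow_ne_zero _ (h.e0 s s.2)
      · intro p hp h1 h2
        exact h.e_disj s.2 s'.2 (fun h0 => hne (Fin.ext h0)) hp (hp.dvd_of_dvd_pow h1)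
          (hp.dvd_of_dvd_pow h2)
    · intro s _
      exact h.e_pow_dvd ht s.2
  · apply Finset.prod_dvd_of_isRelPrime
    · intro i _ i' _ hne
      apply relPrime_of
      · exact pow_ne_zero _ (lam_prime i.2).ne_zero
      · intro p hp h1 h2
        exact lam_disj i.2 i'.2 (fun h0 => hne (Fin.ext h0)) hp (hp.dvd_of_dvd_pow h1)
          (hp.dvd_of_dvd_pow h2)
    · intro i _
      exact (h.ordN ht i.2).1

/-- The quotients. -/
lemma exists_quot (h : Good F n g e d μ j a b) : ∃ e' : ℕ → MvPolynomial (Fin 2) F,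
    ∀ t < 16, Bv t g = DD F e j a b t * e' t := by
  have : ∀ t, ∃ x, t < 16 → Bv t g = DD F e j a b t * x := by
    intro t
    by_cases ht : t < 16
    · obtain ⟨x, hx⟩ := h.DD_dvd ht
      exact ⟨x, fun _ => hx⟩
    · exact ⟨0, fun h => absurd h ht⟩
  choose e' he' using this
  exact ⟨e', he'⟩

end Good

/-- The quotients, bundled. -/
structure Quo (F : Type*) [Field F] (g : Fin 3 → MvPolynomial (Fin 2) F)
    (e e' : ℕ → MvPolynomial (Fin 2) F) (j a b : ℕ) : Prop where
  eq : ∀ t < 16, Bv t g = DD F e j a b t * e' t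

namespace Quo
variable {e' : ℕ → MvPolynomial (Fin 2) F}

lemma lam_pow_dvd_DD {i t : ℕ} (hi : i < 3) :
    lam F i ^ zf a b j t i ∣ DD F e j a b t := by
  unfold DD
  apply Dvd.dvd.mul_left
  have := Finset.dvd_prod_of_mem (fun i : Fin 3 => lam F i ^ zf a b j t i)
    (Finset.mem_univ (⟨i, hi⟩ : Fin 3))
  simpa using this

lemma e_pow_dvd_DD {s t : ℕ} (hs : s < 16) :
    e s ^ mm t s ∣ DD F e j a b t := by
  unfold DD
  apply Dvd.dvd.mul_right
  have := Finset.dvd_prod_of_mem (fun s : Fin 16 => e s ^ mm t s)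
    (Finset.mem_univ (⟨s, hs⟩ : Fin 16))
  simpa using this

lemma lam_not (q : Quo F g e e' j a b) (h : Good F n g e d μ j a b) {i t : ℕ} (hi : i < 3)
    (ht : t < 16) : ¬ lam F i ∣ e' t := by
  intro hd
  apply (h.ordN ht hi).2
  rw [q.eq t ht, pow_succ]
  exact mul_dvd_mul (lam_pow_dvd_DD hi) hd

lemma ne_zero (q : Quo F g e e' j a b) (h : Good F n g e d μ j a b) {t : ℕ} (ht : t < 16) :
    e' t ≠ 0 := by
  intro h0
  exact q.lam_not h (i := 0) (by norm_num) ht (h0 ▸ dvd_zero _)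

lemma lead (q : Quo F g e e' j a b) (h : Good F n g e d μ j a b) {s t : ℕ} (hs : s < 16)
    (ht : t < 16) {w1 w2 p : MvPolynomial (Fin 2) F} (h1 : ell (k1 s) g = e s * w1)
    (h2 : ell (k2 s) g = e s * w2) (hp : Prime p) (hd : p ∣ e s) (hd' : p ∣ e' t) :
    p ∣ evBin w1 w2 (leadL s t) := by
  obtain ⟨r, m, hr⟩ := factT' ht hs g h1 h2
  have h3 : e s ^ mm t s * p ∣ Bv t g := by
    rw [q.eq t ht]
    exact mul_dvd_mul (e_pow_dvd_DD hs) hd'
  rw [hr, mul_dvd_mul_iff_left (pow_ne_zero _ (h.e0 s hs))] at h3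
  have h4 := (dvd_add_left (hd.mul_right r)).mp h3
  rcases hp.dvd_or_dvd h4 with h5 | h5
  · exact h5
  · exfalso
    obtain ⟨-, -, -, -, a5, a6⟩ := c5 s hs
    have h6 := hp.dvd_of_dvd_pow h5
    rw [gi_eq g a5] at h6
    exact h.e_not (by omega) hs a6 hp hd h6

end Quo

end

end Pool.Agent.H51Seshadri
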