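import Pool.Agent.H51Seshadri.Step1

/-!
The induction step, second part: the new curve.
-/

namespace Pool.Agent.H51Seshadri
open MvPolynomial

attribute [local irreducible] Bv ell

set_option linter.unusedSectionVars false

section
variable {F : Type*} [Field F] [CharP F 11]
variable {n : ℕ} {g : Fin 3 → MvPolynomial (Fin 2) F} {e e' : ℕ → MvPolynomial (Fin 2) F}
    {d : ℕ} {μ : ℕ → ℕ} {j a b : ℕ}

/-- New position. -/
def nj (a b j : ℕ) : ℕ := if a < 2 * b then (j + 1) % 3 else j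
/-- New first order. -/
def na (a b : ℕ) : ℕ := if a < 2 * b then 5 * a + b else a - 2 * b
/-- New second order. -/
def nb (a b : ℕ) : ℕ := if a < 2 * b then 2 * b - a else 2 * a + 7 * b

variable (F) in
/-- The common factor. -/
noncomputable def QQ (e : ℕ → MvPolynomial (Fin 2) F) (a b : ℕ) : MvPolynomial (Fin 2) F :=
  (∏ s : Fin 16, e s ^ MM s) * ∏ i : Fin 3, lam F i ^ min a (2 * b)

omit [CharP F 11] in
lemma prod_prod_pow {ι κ : Type*} [Fintype ι] [Fintype κ] (f : κ → MvPolynomial (Fin 2) F)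
    (m : ι → κ → ℕ) : ∏ l, ∏ s, f s ^ m l s = ∏ s, f s ^ ∑ l, m l s := by
  rw [Finset.prod_comm]
  exact Finset.prod_congr rfl fun s _ => Finset.prod_pow_eq_pow_sum _ _ _

lemma prod_line (e : ℕ → MvPolynomial (Fin 2) F) {k : ℕ} (hk : k < 15) :
    ∏ j : Fin 4, e (dd k j) = ∏ s : Fin 16, e s ^ cnt k s := by
  classical
  have h1 : ∀ j : Fin 4, e (dd k j) = ∏ s : Fin 16, e s ^ (if dd k j = s then 1 else 0) := by
    intro j
    have hj := (c8 k hk j).1
    rw [Finset.prod_eq_single (⟨dd k j, hj⟩ : Fin 16)]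
    · simp
    · intro s _ hs
      rw [if_neg, pow_zero]
      intro h0
      exact hs (Fin.ext h0.symm)
    · intro h0; exact absurd (Finset.mem_univ _) h0
  rw [Finset.prod_congr rfl fun j _ => h1 j, Finset.prod_comm]
  refine Finset.prod_congr rfl fun s _ => ?_
  rw [Finset.prod_pow_eq_pow_sum]
  rfl

lemma ex_step (a b : ℕ) (hab : a < 2 * b ∨ 2 * b < a) {k i j : ℕ} (hk : k < 15) (hi : i < 3)
    (hj : j < 3) :
    ex a b k i j + 2 * ex a b (nx (nx k)) i j + ∑ l : Fin 4, zf a b j (dd k l) i =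
      min a (2 * b) + ex (na a b) (nb a b) k i (nj a b j) := by
  have hs : ∑ l : Fin 4, zf a b j (dd k l) i = nn k (cl i ((j + 1) % 3)) * min a (2 * b) := by
    unfold zf nn
    rw [Finset.sum_mul]
    refine Finset.sum_congr rfl fun l _ => ?_
    split_ifs <;> simp
  have hj1 : j % 3 = j := Nat.mod_eq_of_lt hj
  have hj2 : ((j + 1) % 3) % 3 = (j + 1) % 3 := Nat.mod_mod _ _
  have hj3 : ((j + 1) % 3 + 1) % 3 = (j + 2) % 3 := by omega
  rw [hs]
  unfold ex na nb nj
  rcases hab with hab | hab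
  · simp only [if_pos hab, min_eq_left hab.le, hj1, hj2, hj3]
    rcases c12 k hk i hi j hj with h | h | h | h
    · obtain ⟨h1, h2, h3, h4, h5, h6⟩ := h
      simp only [if_neg h1, if_neg h2, if_neg h3, if_neg h4, h5, if_neg h6]
      omega
    · obtain ⟨h1, h2, h3, h4, h5, h6⟩ := h
      simp only [if_pos h1, if_neg h2, if_neg h3, if_neg h4, h5, if_neg h6]
      omega
    · obtain ⟨h1, h2, h3, h4, h5, h6⟩ := h
      simp only [if_neg h1, if_pos h2, if_pos h3, if_neg h4, h5, if_neg h6]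
      omega
    · obtain ⟨h1, h2, h3, h4, h5, h6⟩ := h
      simp only [if_neg h1, if_neg h2, if_neg h3, if_pos h4, h5, if_pos h6]
      omega
  · have hab' : ¬ a < 2 * b := by omega
    simp only [if_neg hab', min_eq_right hab.le, hj1]
    rcases c12 k hk i hi j hj with h | h | h | h
    · obtain ⟨h1, h2, h3, h4, h5, h6⟩ := h
      simp only [if_neg h1, if_neg h2, if_neg h3, if_neg h4, h5]
      omega
    · obtain ⟨h1, h2, h3, h4, h5, h6⟩ := h
      simp only [if_pos h1, if_neg h2, if_neg h3, if_neg h4, h5]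
      omega
    · obtain ⟨h1, h2, h3, h4, h5, h6⟩ := h
      simp only [if_neg h1, if_pos h2, if_pos h3, if_neg h4, h5]
      omega
    · obtain ⟨h1, h2, h3, h4, h5, h6⟩ := h
      simp only [if_neg h1, if_neg h2, if_neg h3, if_pos h4, h5]
      omega

namespace Good

/-- Factorisation of the right sides of the product identities. -/
lemma rhs_eq (h : Good F n g e d μ j a b) (q : Quo F g e e' j a b) {k : ℕ} (hk : k < 15) :
    ∃ c : F, c ≠ 0 ∧ rhs k g = QQ F e a b * (C c * ((∏ l : Fin 4, e' (dd k l)) *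
      ∏ i : Fin 3, lam F i ^ ex (na a b) (nb a b) k i (nj a b j))) := by
  have hk2 : nx (nx k) < 15 := c7 _ (c7 k hk)
  obtain ⟨c, hc0, hc⟩ := h.I1 k hk
  obtain ⟨c', hc0', hc'⟩ := h.I1 _ hk2
  have hck : ((nth 0 ckTab k : ℕ) : F) ≠ 0 := by
    intro h0
    exact (c17 k hk).1 (Nat.mod_eq_zero_of_dvd ((CharP.cast_eq_zero_iff F 11 _).mp h0))
  refine ⟨((nth 0 ckTab k : ℕ) : F) * c * c' ^ 2,
    mul_ne_zero (mul_ne_zero hck hc0) (pow_ne_zero 2 hc0'), ?_⟩
  rw [prod_line e hk] at hc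
  rw [prod_line e hk2] at hc'
  set E := ∏ l : Fin 4, e' (dd k l) with hE
  set L1 := ∏ i : Fin 3, lam F i ^ ex a b k i j with hL1
  set L2 := ∏ i : Fin 3, lam F i ^ ex a b (nx (nx k)) i j with hL2
  set A1 := ∏ s : Fin 16, e s ^ cnt k s with hA1
  set A2 := ∏ s : Fin 16, e s ^ cnt (nx (nx k)) s with hA2
  have hB : ∏ l : Fin 4, Bv (dd k l) g =
      (∏ s : Fin 16, e s ^ ∑ l : Fin 4, mm (dd k l) s) *
      (∏ i : Fin 3, lam F i ^ ∑ l : Fin 4, zf a b j (dd k l) i) * E := by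
    have e1 : ∀ l : Fin 4, Bv (dd k l) g = (∏ s : Fin 16, e s ^ mm (dd k l) s) *
        (∏ i : Fin 3, lam F i ^ zf a b j (dd k l) i) * e' (dd k l) :=
      fun l => q.eq _ (c8 k hk l).1
    have e2 := prod_prod_pow (fun s : Fin 16 => e s) (fun (l : Fin 4) (s : Fin 16) =>
      mm (dd k l) s)
    have e3 := prod_prod_pow (fun i : Fin 3 => lam F i) (fun (l : Fin 4) (i : Fin 3) =>
      zf a b j (dd k l) i)
    calc ∏ l : Fin 4, Bv (dd k l) g = ∏ l : Fin 4, ((∏ s : Fin 16, e s ^ mm (dd k l) s) *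
        (∏ i : Fin 3, lam F i ^ zf a b j (dd k l) i) * e' (dd k l)) :=
          Finset.prod_congr rfl fun l _ => e1 l
      _ = _ := by rw [Finset.prod_mul_distrib, Finset.prod_mul_distrib, e2, e3]
  set P := ∏ s : Fin 16, e s ^ ∑ l : Fin 4, mm (dd k l) s with hP
  set Z := ∏ i : Fin 3, lam F i ^ ∑ l : Fin 4, zf a b j (dd k l) i with hZ
  have hA : A1 * (A2 * A2) * P = ∏ s : Fin 16, e s ^ MM s := by
    rw [hA1, hA2, hP, ← Finset.prod_mul_distrib, ← Finset.prod_mul_distrib,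
      ← Finset.prod_mul_distrib]
    refine Finset.prod_congr rfl fun s _ => ?_
    rw [← pow_add, ← pow_add, ← pow_add, ← c6 k hk s s.2]
    congr 1
    ring
  have hL : L1 * (L2 * L2) * Z = (∏ i : Fin 3, lam F i ^ min a (2 * b)) *
      ∏ i : Fin 3, lam F i ^ ex (na a b) (nb a b) k i (nj a b j) := by
    rw [hL1, hL2, hZ, ← Finset.prod_mul_distrib, ← Finset.prod_mul_distrib,
      ← Finset.prod_mul_distrib, ← Finset.prod_mul_distrib]
    refine Finset.prod_congr rfl fun i _ => ?_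
    rw [← pow_add, ← pow_add, ← pow_add, ← pow_add, ← ex_step a b h.ne hk i.2 h.hj]
    congr 1
    ring
  have key : rhs k g = C (((nth 0 ckTab k : ℕ) : F) * c * c' ^ 2) *
      (A1 * (A2 * A2) * P) * (L1 * (L2 * L2) * Z) * E := by
    rw [rhs, hc, hc', hB]
    simp only [map_mul, map_pow, map_natCast]
    ring
  rw [key, hA, hL, QQ]
  ring

lemma QQ_ne (h : Good F n g e d μ j a b) : QQ F e a b ≠ 0 := by
  unfold QQ
  exact mul_ne_zero (Finset.prod_ne_zero_iff.mpr fun s _ => pow_ne_zero _ (h.e0 s s.2))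
    (Finset.prod_ne_zero_iff.mpr fun i _ => pow_ne_zero _ (lam_prime i.2).ne_zero)

/-- The new curve. -/
lemma exists_new (h : Good F n g e d μ j a b) (q : Quo F g e e' j a b) :
    ∃ g' : Fin 3 → MvPolynomial (Fin 2) F, (∀ i, Phi g i = QQ F e a b * g' i) ∧
      (∀ k < 15, ∃ c : F, c ≠ 0 ∧ ell k g' = C c * ((∏ l : Fin 4, e' (dd k l)) *
      ∏ i : Fin 3, lam F i ^ ex (na a b) (nb a b) k i (nj a b j))) := by
  obtain ⟨c0, -, h0⟩ := h.rhs_eq q (k := 0) (by norm_num)
  obtain ⟨c1, -, h1⟩ := h.rhs_eq q (k := 1) (by norm_num)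
  obtain ⟨c2, -, h2⟩ := h.rhs_eq q (k := 2) (by norm_num)
  refine ⟨![C c2 * ((∏ l : Fin 4, e' (dd 2 l)) *
      ∏ i : Fin 3, lam F i ^ ex (na a b) (nb a b) 2 i (nj a b j)),
    C c1 * ((∏ l : Fin 4, e' (dd 1 l)) *
      ∏ i : Fin 3, lam F i ^ ex (na a b) (nb a b) 1 i (nj a b j)),
    C c0 * ((∏ l : Fin 4, e' (dd 0 l)) *
      ∏ i : Fin 3, lam F i ^ ex (na a b) (nb a b) 0 i (nj a b j))], ?_, ?_⟩
  · intro i
    fin_cases i
    · exact h2
    · exact h1
    · exact h0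
  · intro k hk
    obtain ⟨c, hc, hk'⟩ := h.rhs_eq q hk
    refine ⟨c, hc, mul_left_cancel₀ h.QQ_ne ?_⟩
    rw [← hk', ← fact1 hk g]
    simp only [ell, Phi, Matrix.cons_val_zero, Matrix.cons_val_one, Matrix.cons_val_two,
      Matrix.tail_cons, Matrix.head_cons, h0, h1, h2]
    ring

end Good

end

end Pool.Agent.H51Seshadri
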