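import Pool.Agent.H51Seshadri.Step2

/-!
The induction step, third part: primitivity, degrees and the new invariants; the starting curve.
-/

namespace Pool.Agent.H51Seshadri
open MvPolynomial

attribute [local irreducible] Bv ell

set_option linter.unusedSectionVars false
set_option linter.unusedVariables false

section
variable {F : Type*} [Field F] [CharP F 11]
variable {n : ℕ} {g : Fin 3 → MvPolynomial (Fin 2) F} {e e' : ℕ → MvPolynomial (Fin 2) F}
    {d : ℕ} {μ : ℕ → ℕ} {j a b : ℕ}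

lemma dvd_ell_of {g : Fin 3 → MvPolynomial (Fin 2) F} {p : MvPolynomial (Fin 2) F}
    (h : ∀ i, p ∣ g i) (k : ℕ) : p ∣ ell k g := by
  unfold ell
  exact dvd_add (dvd_add ((h 0).mul_left _) ((h 1).mul_left _)) ((h 2).mul_left _)

namespace Good

lemma new_I2 (h : Good F n g e d μ j a b) (q : Quo F g e e' j a b)
    {g' : Fin 3 → MvPolynomial (Fin 2) F}
    (hg' : ∀ k < 15, ∃ c : F, c ≠ 0 ∧ ell k g' = C c * ((∏ l : Fin 4, e' (dd k l)) *
      ∏ i : Fin 3, lam F i ^ ex (na a b) (nb a b) k i (nj a b j)))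
    (p : MvPolynomial (Fin 2) F) (hp : Prime p) : ¬ ∀ i, p ∣ g' i := by
  intro hall
  have dich : ∀ k < 15, (∃ l : Fin 4, p ∣ e' (dd k l)) ∨
      (∃ i < 3, ex (na a b) (nb a b) k i (nj a b j) ≠ 0 ∧ p ∣ lam F i) := by
    intro k hk
    have hd := dvd_ell_of hall k
    obtain ⟨c, hc0, hc⟩ := hg' k hk
    rw [hc] at hd
    rcases hp.dvd_or_dvd hd with h1 | h1
    · exact absurd h1 (not_dvd_C hc0 hp)
    · rcases hp.dvd_or_dvd h1 with h2 | h2
      · obtain ⟨l, -, hl⟩ := hp.exists_mem_finset_dvd h2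
        exact Or.inl ⟨l, hl⟩
      · obtain ⟨i, -, hi⟩ := hp.exists_mem_finset_dvd h2
        refine Or.inr ⟨i, i.2, ?_, hp.dvd_of_dvd_pow hi⟩
        intro h0
        rw [h0, pow_zero] at hi
        exact hp.not_isUnit (isUnit_of_dvd_one hi)
  by_cases hC : ∃ i < 3, p ∣ lam F i
  · obtain ⟨i, hi, hpi⟩ := hC
    have has : Associated p (lam F i) :=
      hp.irreducible.associated_of_dvd (lam_prime hi).irreducible hpi
    obtain ⟨k, hk, hk'⟩ := c13 i hi
    rcases dich k hk with ⟨l, hl⟩ | ⟨i', hi', hex, hpi'⟩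
    · exact q.lam_not h hi (c8 k hk l).1 (has.symm.dvd.trans hl)
    · by_cases hii : i' = i
      · subst hii
        unfold ex at hex
        apply hex
        rw [if_neg (hk' _ (Nat.mod_lt _ (by norm_num))), if_neg (hk' _ (Nat.mod_lt _ (by norm_num)))]
      · exact lam_disj hi' hi hii hp hpi' hpi
  · have hE : ∀ k < 15, ∃ l : Fin 4, p ∣ e' (dd k l) := by
      intro k hk
      rcases dich k hk with h1 | ⟨i, hi, -, hpi⟩
      · exact h1
      · exact absurd ⟨i, hi, hpi⟩ hC
    obtain ⟨l2, hl2⟩ := hE 2 (by norm_num)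
    obtain ⟨l1, hl1⟩ := hE 1 (by norm_num)
    obtain ⟨l0, hl0⟩ := hE 0 (by norm_num)
    by_cases hB : ∃ s < 16, p ∣ e s
    · obtain ⟨s, hs, hps⟩ := hB
      obtain ⟨a1, a2, a3, a4, -, -⟩ := c5 s hs
      obtain ⟨w1, hw1, hw1'⟩ := h.cofactor a1 hs a3 hp hps
      obtain ⟨w2, hw2, hw2'⟩ := h.cofactor a2 hs a4 hp hps
      obtain ⟨u0, u1, u2, x, y, hxy⟩ := fact4 hs w1 w2
      have key : ∀ k < 15, ∀ l : Fin 4, p ∣ e' (dd k l) →
          p ∣ ∏ l : Fin 4, evBin w1 w2 (leadL s (dd k l)) := by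
        intro k hk l hl
        have h1 := q.lead h hs (c8 k hk l).1 hw1 hw2 hp hps hl
        exact h1.trans (Finset.dvd_prod_of_mem
          (fun l : Fin 4 => evBin w1 w2 (leadL s (dd k l))) (Finset.mem_univ l))
      have hd : p ∣ w1 ^ x * w2 ^ y := by
        rw [hxy]
        exact dvd_add (dvd_add ((key 2 (by norm_num) l2 hl2).mul_left _)
          ((key 1 (by norm_num) l1 hl1).mul_left _)) ((key 0 (by norm_num) l0 hl0).mul_left _)
      rcases hp.dvd_or_dvd hd with h1 | h1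
      · exact hw1' (hp.dvd_of_dvd_pow h1)
      · exact hw2' (hp.dvd_of_dvd_pow h1)
    · have hBv : ∀ k < 15, ∀ l : Fin 4, p ∣ e' (dd k l) → p ∣ Bv (dd k l) g := by
        intro k hk l hl
        rw [q.eq _ (c8 k hk l).1]
        exact hl.mul_left _
      have b2 := hBv 2 (by norm_num) l2 hl2
      have b1 := hBv 1 (by norm_num) l1 hl1
      have b0 := hBv 0 (by norm_num) l0 hl0
      have hpp : ∀ x y : ℕ, p ∣ Bv x g → p ∣ Bv y g → PairP x y g → False := by
        intro x y hx hy hP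
        obtain ⟨m, u, v, huv⟩ := hP
        have hd : p ∣ (∏ k ∈ Finset.range 15, ell k g) ^ m := by
          rw [huv]
          exact dvd_add (hx.mul_left _) (hy.mul_left _)
        obtain ⟨k, hk, hk'⟩ := hp.exists_mem_finset_dvd (hp.dvd_of_dvd_pow hd)
        rcases h.dvd_ell (Finset.mem_range.mp hk) hp hk' with ⟨s, hs, -, hps⟩ | ⟨i, hi, -, hpi⟩
        · exact hB ⟨s, hs, hps⟩
        · exact hC ⟨i, hi, hpi⟩
      rcases fact2 g l2 l1 l0 with h1 | h1 | h1
      · exact hpp _ _ b2 b1 h1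
      · exact hpp _ _ b1 b0 h1
      · exact hpp _ _ b2 b0 h1

end Good

lemma totOK_decTot (n : ℕ) : ∀ t N, totOK t (decTot n t N) = true := by
  induction n with
  | zero => intro t N; rfl
  | succ n ih =>
    intro t N
    rw [decTot, force_eq, totOK, digs_length, ih, Bool.and_true]
    exact Nat.beq_refl _

lemma length_decTot (n : ℕ) : ∀ t N, (decTot n t N).length = n := by
  induction n with
  | zero => intro t N; rfl
  | succ n ih => intro t N; rw [decTot, force_eq]; simp [ih]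

lemma Bv_hom {g : Fin 3 → MvPolynomial (Fin 2) F} (hg : ∀ i, (g i).IsHomogeneous d) (t : ℕ) :
    (Bv t g).IsHomogeneous (d * dg t) := by
  have := evTot_hom (hg 0) (hg 1) (hg 2) (BL t) 0 (totOK_decTot _ _ _)
  unfold Bv
  rw [BL, length_decTot, Nat.add_sub_cancel, zero_add] at this
  exact this

lemma nat_hom (m : ℕ) : ((m : MvPolynomial (Fin 2) F)).IsHomogeneous 0 := by
  have := isHomogeneous_C (Fin 2) (m : F)
  simpa using this

lemma ell_hom {g : Fin 3 → MvPolynomial (Fin 2) F} (hg : ∀ i, (g i).IsHomogeneous d) (k : ℕ) :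
    (ell k g).IsHomogeneous d := by
  unfold ell
  have h : ∀ (m : ℕ) (i : Fin 3), ((m : MvPolynomial (Fin 2) F) * g i).IsHomogeneous d := by
    intro m i
    have := (nat_hom (F := F) m).mul (hg i)
    rwa [zero_add] at this
  exact ((h _ 0).add (h _ 1)).add (h _ 2)

lemma rhs_hom {g : Fin 3 → MvPolynomial (Fin 2) F} (hg : ∀ i, (g i).IsHomogeneous d) {k : ℕ}
    (hk : k < 15) : (rhs k g).IsHomogeneous (51 * d) := by
  have h1 := (nat_hom (F := F) (nth 0 ckTab k)).mul
    ((ell_hom hg k).mul ((ell_hom hg (nx (nx k))).mul (ell_hom hg (nx (nx k)))))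
  have h2 := IsHomogeneous.prod Finset.univ (fun l : Fin 4 => Bv (dd k l) g)
    (fun l : Fin 4 => d * dg (dd k l)) (fun l _ => Bv_hom hg _)
  have h3 := h1.mul h2
  rw [← Finset.mul_sum, c21 k hk] at h3
  have : 0 + (d + (d + d)) + d * 48 = 51 * d := by ring
  rw [this] at h3
  exact h3

namespace Good

lemma DD_hom (h : Good F n g e d μ j a b) (t : ℕ) : (DD F e j a b t).IsHomogeneous
    ((∑ s : Fin 16, μ s * mm t s) + ∑ i : Fin 3, zf a b j t i) := by
  unfold DD
  apply IsHomogeneous.mul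
  · exact IsHomogeneous.prod _ _ _ fun s _ => (h.he s s.2).pow _
  · have := IsHomogeneous.prod Finset.univ (fun i : Fin 3 => lam F i ^ zf a b j t i)
      (fun i : Fin 3 => 1 * zf a b j t i) fun i _ => (lam_hom i.2).pow _
    simpa using this

lemma QQ_hom (h : Good F n g e d μ j a b) : (QQ F e a b).IsHomogeneous
    ((∑ s : Fin 16, μ s * MM s) + 3 * min a (2 * b)) := by
  unfold QQ
  apply IsHomogeneous.mul
  · exact IsHomogeneous.prod _ _ _ fun s _ => (h.he s s.2).pow _
  · have := IsHomogeneous.prod Finset.univ (fun i : Fin 3 => lam F i ^ min a (2 * b))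
      (fun i : Fin 3 => 1 * min a (2 * b)) fun i _ => (lam_hom i.2).pow _
    simpa using this

/-- The induction step. -/
theorem step (h : Good F n g e d μ j a b) : ∃ (g' : Fin 3 → MvPolynomial (Fin 2) F)
    (e' : ℕ → MvPolynomial (Fin 2) F) (d' : ℕ) (μ' : ℕ → ℕ) (j' a' b' : ℕ),
    Good F (n + 1) g' e' d' μ' j' a' b' := by
  obtain ⟨e', he'⟩ := h.exists_quot
  have q : Quo F g e e' j a b := ⟨he'⟩
  obtain ⟨g', hPhi, hg'⟩ := h.exists_new q
  have e'0 : ∀ t < 16, e' t ≠ 0 := fun t ht => q.ne_zero h ht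
  -- degrees of the quotients
  have hμ : ∀ t, ∃ m, t < 16 → (e' t).IsHomogeneous m ∧
      (∑ s : Fin 16, μ s * mm t s) + (∑ i : Fin 3, zf a b j t i) + m = d * dg t := by
    intro t
    by_cases ht : t < 16
    · have hB0 : Bv t g ≠ 0 := by
        intro h0
        apply (h.ordN ht (i := 0) (by norm_num)).2
        rw [h0]
        exact dvd_zero _
      obtain ⟨l, hl, hl'⟩ := homog_of_mul (h.DD_hom t) (Bv_hom h.hg t) (he' t ht).symm hB0
      exact ⟨l, fun _ => ⟨hl, hl'⟩⟩
    · exact ⟨0, fun h => absurd h ht⟩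
  choose μ' hμ' using hμ
  -- degree of the new curve
  have ell0 : ∀ k < 15, ell k g' ≠ 0 := by
    intro k hk
    obtain ⟨c, hc0, hc⟩ := hg' k hk
    rw [hc]
    refine mul_ne_zero (C_ne_zero.mpr hc0) (mul_ne_zero ?_ ?_)
    · exact Finset.prod_ne_zero_iff.mpr fun l _ => e'0 _ (c8 k hk l).1
    · exact Finset.prod_ne_zero_iff.mpr fun i _ => pow_ne_zero _ (lam_prime i.2).ne_zero
  have hdg : ∀ i : Fin 3, ∃ l, (g' i).IsHomogeneous l ∧
      (∑ s : Fin 16, μ s * MM s) + 3 * min a (2 * b) + l = 51 * d := by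
    have main : ∀ (i : Fin 3) (k : ℕ), k < 15 → Phi g i = rhs k g → g' i = ell k g' →
        ∃ l, (g' i).IsHomogeneous l ∧
      (∑ s : Fin 16, μ s * MM s) + 3 * min a (2 * b) + l = 51 * d := by
      intro i k hk h1 h2
      have h3 : (Phi g i).IsHomogeneous (51 * d) := by rw [h1]; exact rhs_hom h.hg hk
      refine homog_of_mul h.QQ_hom h3 (hPhi i).symm ?_
      rw [hPhi i]
      exact mul_ne_zero h.QQ_ne (by rw [h2]; exact ell0 k hk)
    intro i
    fin_cases i
    · exact main 0 2 (by norm_num) rfl (gi_eq g' (i := 0) (by norm_num))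
    · exact main 1 1 (by norm_num) rfl (gi_eq g' (i := 1) (by norm_num))
    · exact main 2 0 (by norm_num) rfl (gi_eq g' (i := 2) (by norm_num))
  obtain ⟨d', hd', hdd⟩ := hdg 0
  have hgd : ∀ i, (g' i).IsHomogeneous d' := by
    intro i
    obtain ⟨l, hl, hl'⟩ := hdg i
    have : l = d' := by omega
    rwa [← this]
  -- numbers
  set z := min a (2 * b) with hz
  have n1 : (∑ t : Fin 16, ∑ s : Fin 16, μ s * mm t s) + ∑ s : Fin 16, μ s =
      4 * ∑ s : Fin 16, μ s * MM s := by
    rw [Finset.sum_comm, ← Finset.sum_add_distrib, Finset.mul_sum]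
    refine Finset.sum_congr rfl fun s _ => ?_
    rw [← Finset.mul_sum]
    have := c18.2 s
    calc μ s * (∑ t : Fin 16, mm t s) + μ s = μ s * ((∑ t : Fin 16, mm t s) + 1) := by ring
      _ = _ := by rw [this]; ring
  have n2 : (∑ t : Fin 16, wt t * ∑ s : Fin 16, μ s * mm t s) + 11 * ∑ s : Fin 16, wt s * μ s =
      8 * ∑ s : Fin 16, μ s * MM s := by
    have : ∀ t : Fin 16, wt t * ∑ s : Fin 16, μ s * mm t s =
        ∑ s : Fin 16, μ s * (wt t * mm t s) := by
      intro t
      rw [Finset.mul_sum]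
      exact Finset.sum_congr rfl fun s _ => by ring
    rw [Finset.sum_congr rfl fun t _ => this t, Finset.sum_comm, Finset.mul_sum,
      ← Finset.sum_add_distrib, Finset.mul_sum]
    refine Finset.sum_congr rfl fun s _ => ?_
    rw [← Finset.mul_sum]
    have := c19.2 s
    calc μ s * (∑ t : Fin 16, wt t * mm t s) + 11 * (wt s * μ s) =
        μ s * ((∑ t : Fin 16, wt t * mm t s) + 11 * wt s) := by ring
      _ = _ := by rw [this]; ring
  have hzf : ∀ t i : ℕ, zf a b j t i = (if onL t (cl i ((j + 1) % 3)) = true then 1 else 0) * z := by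
    intro t i
    unfold zf
    split_ifs <;> simp [hz]
  have hzf' : ∀ t i : ℕ, wt t * zf a b j t i =
      (wt t * if onL t (cl i ((j + 1) % 3)) = true then 1 else 0) * z := by
    intro t i
    rw [hzf, mul_assoc]
  have n3 : ∑ t : Fin 16, ∑ i : Fin 3, zf a b j t i = 12 * z := by
    rw [Finset.sum_comm]
    have : ∀ i : Fin 3, ∑ t : Fin 16, zf a b j t i = 4 * z := by
      intro i
      rw [Finset.sum_congr rfl fun (t : Fin 16) _ => hzf t i, ← Finset.sum_mul,
        (c20 i i.2 _ (Nat.mod_lt _ (by norm_num))).1]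
    rw [Finset.sum_congr rfl fun i _ => this i]
    simp
    ring
  have n4 : ∑ t : Fin 16, wt t * ∑ i : Fin 3, zf a b j t i = 24 * z := by
    have h0 : ∀ t : Fin 16, wt t * ∑ i : Fin 3, zf a b j t i =
        ∑ i : Fin 3, wt t * zf a b j t i := fun t => Finset.mul_sum _ _ _
    rw [Finset.sum_congr rfl fun t _ => h0 t, Finset.sum_comm]
    have : ∀ i : Fin 3, ∑ t : Fin 16, wt t * zf a b j t i = 8 * z := by
      intro i
      rw [Finset.sum_congr rfl fun (t : Fin 16) _ => hzf' t i, ← Finset.sum_mul,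
        (c20 i i.2 _ (Nat.mod_lt _ (by norm_num))).2]
    rw [Finset.sum_congr rfl fun i _ => this i]
    simp
    ring
  have n5 : (∑ t : Fin 16, ∑ s : Fin 16, μ s * mm t s) + 12 * z + ∑ t : Fin 16, μ' t =
      200 * d := by
    rw [← n3, ← Finset.sum_add_distrib, ← Finset.sum_add_distrib,
      Finset.sum_congr rfl fun (t : Fin 16) _ => (hμ' t t.2).2, ← Finset.mul_sum, c18.1]
    ring
  have n6 : (∑ t : Fin 16, wt t * ∑ s : Fin 16, μ s * mm t s) + 24 * z +
      ∑ t : Fin 16, wt t * μ' t = 320 * d := by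
    rw [← n4, ← Finset.sum_add_distrib, ← Finset.sum_add_distrib]
    have : ∀ t : Fin 16, wt t * (∑ s : Fin 16, μ s * mm t s) +
        wt t * (∑ i : Fin 3, zf a b j t i) + wt t * μ' t = d * (wt t * dg t) := by
      intro t
      rw [← mul_add, ← mul_add, (hμ' t t.2).2]
      ring
    rw [Finset.sum_congr rfl fun (t : Fin 16) _ => this t, ← Finset.mul_sum, c19.1]
    ring
  have m1 := h.m1
  have m2 := h.m2
  refine ⟨g', e', d', μ', nj a b j, na a b, nb a b, ?_⟩
  refine ⟨?_, hgd, fun s hs => (hμ' s hs).1, e'0, ?_, ?_, hg', h.new_I2 q hg', ?_, ?_, ?_, ?_⟩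
  · unfold nj
    have := h.hj
    split_ifs
    · exact Nat.mod_lt _ (by norm_num)
    · exact this
  · have := h.ha
    unfold na
    rcases h.ne with h1 | h1 <;> split_ifs <;> omega
  · have := h.hb
    unfold nb
    rcases h.ne with h1 | h1 <;> split_ifs <;> omega
  · have hq := h.quad
    unfold na nb
    rcases h.ne with h1 | h1
    · rw [if_pos h1, if_pos h1]
      push_cast [Nat.cast_sub h1.le]
      rw [pow_succ (11 : ℤ) n, ← hq]
      ring
    · rw [if_neg (by omega), if_neg (by omega)]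
      push_cast [Nat.cast_sub h1.le]
      rw [pow_succ (11 : ℤ) n, ← hq]
      ring
  · have hm := h.md
    unfold na nb
    rcases h.ne with h1 | h1
    · rw [if_pos h1, if_pos h1]
      push_cast [Nat.cast_sub h1.le]
      intro hd
      apply hm
      omega
    · rw [if_neg (by omega), if_neg (by omega)]
      push_cast [Nat.cast_sub h1.le]
      intro hd
      apply hm
      omega
  · have e1 : ((∑ t : Fin 16, μ' t : ℕ) : ℤ) = ∑ s : Fin 16, (μ' s : ℤ) := by push_cast; rfl
    have e2 : ((∑ t : Fin 16, μ t : ℕ) : ℤ) = ∑ s : Fin 16, (μ s : ℤ) := by push_cast; rfl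
    rw [← e1]
    rw [← e2] at m1
    omega
  · have e1 : ((∑ t : Fin 16, wt t * μ' t : ℕ) : ℤ) = ∑ s : Fin 16, (wt s : ℤ) * (μ' s : ℤ) := by
      push_cast; rfl
    have e2 : ((∑ t : Fin 16, wt t * μ t : ℕ) : ℤ) = ∑ s : Fin 16, (wt s : ℤ) * (μ s : ℤ) := by
      push_cast; rfl
    rw [← e1]
    rw [← e2] at m2
    rw [pow_succ (11 : ℤ) n, ← m2]
    omega

end Good

lemma c30 : ∀ s < 16, ∃ u < 11, ∃ v < 11, evBinN u v (nth [] e0Tab s) % 11 ≠ 0 := by
  decide +kernel

lemma c31 : ∀ i : Fin 3, (nth [] g0Tab i).length = 5 := by decide +kernel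

variable (F) in
/-- The starting curve has the invariants. -/
theorem good_one : Good F 1 (g0 (X 0) (X 1)) (e0 (X 0) (X 1)) 4
    (fun s => (nth [] e0Tab s).length - 1) 0 1 2 := by
  have X0 : (X 0 : MvPolynomial (Fin 2) F).IsHomogeneous 1 := isHomogeneous_X _ _
  have X1 : (X 1 : MvPolynomial (Fin 2) F).IsHomogeneous 1 := isHomogeneous_X _ _
  refine ⟨by norm_num, ?_, ?_, ?_, by norm_num, by norm_num, ?_, ?_, by norm_num, ?_, ?_, ?_⟩
  · intro i
    have h : ∀ i : Fin 3, (evBin (X 0 : MvPolynomial (Fin 2) F) (X 1)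
        (nth [] g0Tab i)).IsHomogeneous 4 := by
      intro i
      have := evBin_hom X0 X1 (nth [] g0Tab i)
      rwa [c31 i] at this
    fin_cases i
    · exact h 0
    · exact h 1
    · exact h 2
  · intro s _
    have := evBin_hom X0 X1 (nth [] e0Tab s)
    rwa [one_mul] at this
  · intro s hs h0
    obtain ⟨u, -, v, -, huv⟩ := c30 s hs
    have h1 := congrArg (MvPolynomial.eval ![(u : F), (v : F)]) h0
    rw [e0, map_evBin, eval_X, eval_X, map_zero] at h1
    have h2 := map_evBin (Nat.castRingHom F) u v (nth [] e0Tab s)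
    rw [← evBinN_eq] at h2
    apply huv
    apply Nat.mod_eq_zero_of_dvd
    rw [← CharP.cast_eq_zero_iff F 11]
    exact h2.trans h1
  · intro k hk
    refine ⟨((nth 0 c0Tab k : ℕ) : F), ?_, ?_⟩
    · intro h0
      exact (c17 k hk).2 (Nat.mod_eq_zero_of_dvd ((CharP.cast_eq_zero_iff F 11 _).mp h0))
    · rw [fact0 hk]
      simp only [map_natCast]
      unfold lam
      rfl
  · intro p hp hall
    obtain ⟨⟨r0, r1, r2, hr⟩, ⟨t0, t1, t2, ht⟩⟩ := fact00 (X 0 : MvPolynomial (Fin 2) F) (X 1)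
    refine X01 hp (hp.dvd_of_dvd_pow (n := 5) ?_) (hp.dvd_of_dvd_pow (n := 5) ?_)
    · rw [hr]
      exact dvd_add (dvd_add ((hall 0).mul_left _) ((hall 1).mul_left _)) ((hall 2).mul_left _)
    · rw [ht]
      exact dvd_add (dvd_add ((hall 0).mul_left _) ((hall 1).mul_left _)) ((hall 2).mul_left _)
  · norm_num
  · decide +kernel
  · decide +kernel

variable (F) in
theorem exists_good (n : ℕ) : ∃ (g : Fin 3 → MvPolynomial (Fin 2) F)
    (e : ℕ → MvPolynomial (Fin 2) F) (d : ℕ) (μ : ℕ → ℕ) (j a b : ℕ),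
    Good F (n + 1) g e d μ j a b := by
  induction n with
  | zero => exact ⟨_, _, _, _, _, _, _, good_one F⟩
  | succ n ih =>
    obtain ⟨g, e, d, μ, j, a, b, h⟩ := ih
    exact h.step

end

end Pool.Agent.H51Seshadri
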