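import Mathlib

/-!
# The blow-up of the projective plane at sixteen points: line bundles, curves, intersection numbers

`k` is a field of characteristic 11.  The points of the projective plane over `k` are given by
nonzero vectors `Fin 3 → k` up to scaling, and the irreducible plane curves by irreducible
homogeneous polynomials in three variables.
-/

namespace Pool.Agent.H51Seshadri
open MvPolynomial

/-- The sixteen points in the projective plane over the field with 11 elements which are blown up
(the triple and fivefold points of the arrangement of the 15 mirrors of the icosahedral group). -/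
def pts (s : Fin 16) : Fin 3 → ℕ :=
  (![![0, 1, 4], ![0, 1, 7], ![1, 0, 3], ![1, 0, 8], ![1, 4, 0], ![1, 7, 0],
    ![0, 1, 2], ![0, 1, 9], ![1, 0, 5], ![1, 0, 6], ![1, 1, 1], ![1, 1, 10], ![1, 2, 0],
    ![1, 9, 0], ![1, 10, 1], ![1, 10, 10]] : Fin 16 → Fin 3 → ℕ) s

section
variable {k : Type*} [Field k]

/-- The `s`-th blown up point, as a point with coordinates in `k`. -/
def pt (k : Type*) [Field k] (s : Fin 16) : Fin 3 → k := fun i => (pts s i : k)

/-- The homogeneous ideal of the point of the plane with coordinate vector `P`: it is generated
by the linear forms vanishing at `P`. -/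
noncomputable def ptIdeal (P : Fin 3 → k) : Ideal (MvPolynomial (Fin 3) k) :=
  Ideal.span {L | L.IsHomogeneous 1 ∧ MvPolynomial.eval P L = 0}

/-- The multiplicity at `P` of the plane curve `G = 0`: the largest `m` such that `G` lies in the
`m`-th power of the ideal of the point. -/
noncomputable def mult (P : Fin 3 → k) (G : MvPolynomial (Fin 3) k) : ℕ :=
  sSup {m : ℕ | G ∈ ptIdeal P ^ m}

/-- `G` is the equation of an irreducible plane curve. -/
def IsCurve (G : MvPolynomial (Fin 3) k) : Prop :=
  Irreducible G ∧ G.IsHomogeneous G.totalDegree

/-- The line bundle `O(d H - ∑ m_s E_s)` on the blow-up `X` of the plane at the sixteen points. -/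
structure Bundle where
  d : ℤ
  m : Fin 16 → ℤ

/-- The self-intersection number `L²`. -/
def Bundle.sq (L : Bundle) : ℤ := L.d ^ 2 - ∑ s, L.m s ^ 2

/-- The intersection number of `L` with the strict transform on `X` of the plane curve `G = 0`. -/
noncomputable def Bundle.dot (L : Bundle) (G : MvPolynomial (Fin 3) k) : ℤ :=
  L.d * G.totalDegree - ∑ s, L.m s * mult (pt k s) G

/-- Ampleness of `L` on `X`, by the Nakai–Moishezon criterion: `L² > 0`, `L · E_s > 0` for the
exceptional curves, and `L · C > 0` for the strict transform `C` of every irreducible plane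
curve. -/
def Bundle.Ample (k : Type*) [Field k] (L : Bundle) : Prop :=
  0 < L.sq ∧ (∀ s, 0 < L.m s) ∧ ∀ G : MvPolynomial (Fin 3) k, IsCurve G → 0 < L.dot G

/-- `P` is the coordinate vector of a point of the plane which is not blown up, that is, of a
point of `X` outside the exceptional curves. -/
def IsPoint (P : Fin 3 → k) : Prop :=
  P ≠ 0 ∧ ∀ (s : Fin 16) (c : k), P ≠ c • pt k s

end

end Pool.Agent.H51Seshadri
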